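import Mathlib
import Pool.Agent.R38.NC.Stm
import Pool.Agent.H548.BL.Main

/-!
# Project QN (helper852, MP_18ea5f_nt): weak Manin for all smooth divisors of type `(1,2)` in
`ℙⁿ × ℙ²`, all `n ≥ 2`, all big and nef line bundles.  Definitions and statements of the parts.

`M : Fin m → Matrix (Fin 3) (Fin 3) ℤ` are the symmetric matrices of `m = n + 1` ternary quadratic
forms; `X` is given by `∑ t_i M_i(x) = 0`.
-/

set_option autoImplicit false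

namespace Pool.Agent.N852.QN

open Matrix Finset
open Pool.Agent.H548.WM (ht bx Rep)

/-- the matrix of the conic with the parameter `t` -/
def gm {m : ℕ} {R : Type*} [CommRing R] (M : Fin m → Matrix (Fin 3) (Fin 3) ℤ) (t : Fin m → R) :
    Matrix (Fin 3) (Fin 3) R :=
  fun j k => ∑ i, t i * (M i j k : R)

/-- the value of the quadratic form with the matrix `A` -/
def qf {R : Type*} [CommRing R] (A : Matrix (Fin 3) (Fin 3) R) (x : Fin 3 → R) : R :=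
  x ⬝ᵥ A.mulVec x

/-- the values of the quadratic forms of the linear system -/
def cq {m : ℕ} {R : Type*} [CommRing R] (M : Fin m → Matrix (Fin 3) (Fin 3) ℤ) (x : Fin 3 → R)
    (i : Fin m) : R :=
  qf ((M i).map (Int.castRingHom R)) x

/-- the divisor is smooth: at no complex point of it do all partial derivatives vanish -/
def Smooth {m : ℕ} (M : Fin m → Matrix (Fin 3) (Fin 3) ℤ) : Prop :=
  ∀ (t : Fin m → ℂ) (x : Fin 3 → ℂ), t ≠ 0 → x ≠ 0 → qf (gm M t) x = 0 →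
    (∃ i, cq M x i ≠ 0) ∨ (∃ j, (gm M t).mulVec x j ≠ 0)

/-- no common zeros -/
def Bpf {m : ℕ} (M : Fin m → Matrix (Fin 3) (Fin 3) ℤ) : Prop :=
  ∀ x : Fin 3 → ℂ, x ≠ 0 → ∃ i, cq M x i ≠ 0

/-- the quadratic forms are linearly independent -/
def Ind {m : ℕ} (M : Fin m → Matrix (Fin 3) (Fin 3) ℤ) : Prop :=
  LinearIndependent ℚ fun i => (M i).map (Int.cast : ℤ → ℚ)

/-- primitive integer vectors -/
def Prim {n : ℕ} (v : Fin n → ℤ) : Prop := ∀ d : ℤ, (∀ i, d ∣ v i) → IsUnit d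

/-- the greatest common divisor of the entries of the adjugate -/
def gg (A : Matrix (Fin 3) (Fin 3) ℤ) : ℕ :=
  Finset.univ.gcd fun p : Fin 3 × Fin 3 => (A.adjugate p.1 p.2).natAbs

/-- the weight `min (1, g / |det|^(1/3))` -/
noncomputable def wt (A : Matrix (Fin 3) (Fin 3) ℤ) : ℝ :=
  min 1 ((gg A : ℝ) / ((A.det.natAbs : ℝ) ^ ((1 : ℝ) / 3)))

/-- Part GEO: consequences of smoothness. -/
def S_GEO : Prop := ∀ (m : ℕ) (M : Fin m → Matrix (Fin 3) (Fin 3) ℤ), 3 ≤ m →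
  (∀ i, (M i).IsSymm) → Smooth M →
  Bpf M ∧ (∃ t : Fin m → ℤ, (gm M t).det ≠ 0) ∧
  (∃ (t : Fin m → ℂ) (x : Fin 3 → ℂ), t ≠ 0 ∧ x ≠ 0 ∧ qf (gm M t) x = 0 ∧ (gm M t).det ≠ 0)

/-- Part NST: content and size of the values of forms without common zeros. -/
def S_NST : Prop := ∀ (m : ℕ) (M : Fin m → Matrix (Fin 3) (Fin 3) ℤ), Bpf M →
  (∃ K : ℕ, 1 ≤ K ∧ ∀ x : Fin 3 → ℤ, Prim x → ∀ d : ℤ, (∀ i, d ∣ cq M x i) → d ∣ (K : ℤ)) ∧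
  (∃ c : ℝ, 0 < c ∧ ∀ x : Fin 3 → ℤ, x ≠ 0 →
    ∃ i, c * (ht x : ℝ) ^ 2 ≤ |((cq M x i : ℤ) : ℝ)|)

/-- Part UB: the uniform bound for the number of rational points of a conic. -/
def S_UB : Prop := ∀ ε : ℝ, 0 < ε → ∃ C : ℝ, 0 ≤ C ∧ ∀ M : Matrix (Fin 3) (Fin 3) ℤ,
  M.IsSymm → M.det ≠ 0 → ∀ (X : ℕ) (S : Finset (Fin 3 → ℤ)), 1 ≤ X →
    (∀ x ∈ S, Rep x ∧ ht x ≤ X ∧ qf M x = 0) →
    (S.card : ℝ) ≤ C * X * (M.det.natAbs : ℝ) ^ ε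

/-- Part SPC: matrices on a line whose adjugates have a common divisor. -/
def S_SPC : Prop := ∀ (B E : Matrix (Fin 3) (Fin 3) ℤ) (s t G : ℤ),
  (∀ i j, G ∣ (B + s • E).adjugate i j) → (∀ i j, G ∣ (B + t • E).adjugate i j) →
  ∀ i j, G ∣ (t - s) * E.det * ((2 : ℤ) • B + (s + t) • E) i j

/-- Part LIN: the sum of the weights over a line. -/
def S_LIN : Prop := ∃ C : ℝ, 0 ≤ C ∧ ∀ (B E : Matrix (Fin 3) (Fin 3) ℤ) (h : ℕ) (R : ℤ) (P : ℕ),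
  E.det ≠ 0 → 1 ≤ h → R ≠ 0 → 1 ≤ P →
  (∀ s t G : ℤ, (∀ i j, G ∣ (B + s • E).adjugate i j) →
    (∀ i j, G ∣ (B + t • E).adjugate i j) → G ∣ h * (t - s)) →
  (∀ t G : ℤ, (∀ i j, G ∣ (B + t • E).adjugate i j) → G ∣ R) →
  ∑ t ∈ (Icc (-(P : ℤ)) P).filter (fun t => (B + t • E).det ≠ 0), wt (B + t • E) ≤
    C * (R.natAbs.divisors.card : ℝ) * h * (1 + Real.log P)

/-- Part EXC: a nonzero number divisible by all common divisors on a line. -/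
def S_EXC : Prop := ∀ (n : ℕ) (M : Fin (n + 1) → Matrix (Fin 3) (Fin 3) ℤ), 2 ≤ n →
  (∀ i, (M i).IsSymm) → Ind M → (M 0).det ≠ 0 →
  ∃ R : MvPolynomial (Fin n) ℤ, R ≠ 0 ∧ ∀ (x : Fin n → ℤ) (t G : ℤ),
    (∀ i j, G ∣ (gm M (Fin.cons t x : Fin (n + 1) → ℤ)).adjugate i j) →
    G ∣ MvPolynomial.eval x R

/-- Part SUMC: the sum of the weights over a box. -/
def S_SUMC : Prop := ∀ (n : ℕ) (M : Fin (n + 1) → Matrix (Fin 3) (Fin 3) ℤ), 2 ≤ n →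
  (∀ i, (M i).IsSymm) → Ind M → (∃ t : Fin (n + 1) → ℤ, (gm M t).det ≠ 0) →
  ∀ ε : ℝ, 0 < ε → ∃ C : ℝ, 0 ≤ C ∧ ∀ P : ℕ, 1 ≤ P →
    ∑ t ∈ (bx (n + 1) P).filter (fun t => (gm M t).det ≠ 0), wt (gm M t) ≤
      C * (P : ℝ) ^ n * (P : ℝ) ^ ε

open Classical in
/-- Part CONC: the number of the points on a conic of the linear system. -/
def S_CONC : Prop := ∀ (m : ℕ) (M : Fin m → Matrix (Fin 3) (Fin 3) ℤ), (∀ i, (M i).IsSymm) →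
  ∀ ε : ℝ, 0 < ε → ∃ C : ℝ, 0 ≤ C ∧ ∀ P Q : ℕ, 1 ≤ P → 1 ≤ Q → ∀ t ∈ bx m P,
    (gm M t).det ≠ 0 →
    (((bx 3 Q).filter fun x => Rep x ∧ qf (gm M t) x = 0).card : ℝ) ≤
      C * ((P : ℝ) * Q) ^ ε * (1 + Q * wt (gm M t))

/-- the integer vectors of the box orthogonal to `w` -/
noncomputable def La {m : ℕ} (w : Fin m → ℤ) (P : ℕ) : Finset (Fin m → ℤ) :=
  (bx m P).filter fun t => t ⬝ᵥ w = 0

/-- those which are the parameters of smooth conics -/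
noncomputable def Ua {m : ℕ} (M : Fin m → Matrix (Fin 3) (Fin 3) ℤ) (w : Fin m → ℤ) (P : ℕ) :
    Finset (Fin m → ℤ) :=
  (La w P).filter fun t => (gm M t).det ≠ 0

/-- Part HYP: hyperplanes with a full set of short vectors. -/
def S_HYP : Prop := ∀ n : ℕ, ∃ C : ℝ, 0 ≤ C ∧ ∀ (w : Fin (n + 1) → ℤ) (K P : ℕ),
  w ≠ 0 → 1 ≤ K → 1 ≤ P → (∀ d : ℤ, (∀ i, d ∣ w i) → d ∣ (K : ℤ)) →
  ∀ v : Fin n → Fin (n + 1) → ℤ, LinearIndependent ℤ v →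
    (∀ i, v i ⬝ᵥ w = 0) → (∀ i, ht (v i) ≤ P) →
    ((La w P).card : ℝ) * ht w ≤ C * K * (P : ℝ) ^ n

/-- Part DIC: the dichotomy for one hyperplane. -/
def S_DIC : Prop := ∀ (n K : ℕ), 2 ≤ n → 1 ≤ K → ∃ C : ℝ, 1 ≤ C ∧
  ∀ (M : Fin (n + 1) → Matrix (Fin 3) (Fin 3) ℤ) (w : Fin (n + 1) → ℤ) (P : ℕ),
  w ≠ 0 → 1 ≤ P → (∀ d : ℤ, (∀ i, d ∣ w i) → d ∣ (K : ℤ)) →
    ((Ua M w P).card : ℝ) * ht w ≤ C * (P : ℝ) ^ n ∨
    ∃ j : ℕ, 2 ^ j ≤ P ∧ ((2 : ℝ) ^ j) ^ 2 ≤ C * ht w ∧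
      ((Ua M w P).card : ℝ) ≤ C * (P / (2 : ℝ) ^ j) ^ n * ((Ua M w (8 * 2 ^ j)).card : ℝ)

open Classical in
/-- the points in a box -/
noncomputable def PP {m : ℕ} (M : Fin m → Matrix (Fin 3) (Fin 3) ℤ) (A B : ℕ) :
    Finset ((Fin m → ℤ) × (Fin 3 → ℤ)) :=
  ((bx m A) ×ˢ (bx 3 B)).filter fun z => Rep z.2 ∧ qf (gm M z.1) z.2 = 0 ∧ (gm M z.1).det ≠ 0

/-- Part BOXI: the number of points in a box, linearly independent forms. -/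
def S_BOXI : Prop := ∀ (n : ℕ) (M : Fin (n + 1) → Matrix (Fin 3) (Fin 3) ℤ), 2 ≤ n →
  (∀ i, (M i).IsSymm) → Bpf M → Ind M → (∃ t : Fin (n + 1) → ℤ, (gm M t).det ≠ 0) →
  ∀ ε : ℝ, 0 < ε → ∃ C : ℝ, 0 ≤ C ∧ ∀ A B : ℕ, 1 ≤ A → 1 ≤ B →
    ((PP M A B).card : ℝ) ≤ C * ((A : ℝ) ^ n * B) * ((A : ℝ) * B) ^ ε

/-- The same for all linear systems. -/
def S_BOX : Prop := ∀ (n : ℕ) (M : Fin (n + 1) → Matrix (Fin 3) (Fin 3) ℤ), 2 ≤ n →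
  (∀ i, (M i).IsSymm) → Bpf M → (∃ t : Fin (n + 1) → ℤ, (gm M t).det ≠ 0) →
  ∀ ε : ℝ, 0 < ε → ∃ C : ℝ, 0 ≤ C ∧ ∀ A B : ℕ, 1 ≤ A → 1 ≤ B →
    ((PP M A B).card : ℝ) ≤ C * ((A : ℝ) ^ n * B) * ((A : ℝ) * B) ^ ε

/-- Part DEP: reduction to linearly independent forms. -/
def S_DEP : Prop := S_BOXI → S_BOX

end Pool.Agent.N852.QN
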