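import Mathlib
import Pool.Agent.N852.QN.Stm

/-! Project QN, part BOXI: the number of points in a box, linearly independent forms. -/

set_option autoImplicit false

namespace Pool.Agent.N852.QN

open Matrix Finset
open Pool.Agent.H548.WM (ht bx Rep mem_bx ht_le le_ht le_ht' card_bx)

variable {m : ℕ}

theorem dot_cq {R : Type*} [CommRing R] (M : Fin m → Matrix (Fin 3) (Fin 3) ℤ) (t : Fin m → R)
    (x : Fin 3 → R) : qf (gm M t) x = t ⬝ᵥ cq M x := by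
  unfold qf gm cq qf
  simp only [dotProduct, Matrix.mulVec, Matrix.map_apply, eq_intCast, Finset.mul_sum,
    Finset.sum_mul]
  rw [Finset.sum_comm' (t' := Finset.univ) (s' := fun _ => Finset.univ) (by simp)]
  rw [Finset.sum_comm' (t' := Finset.univ) (s' := fun _ => Finset.univ) (by simp)]
  simp only [Fin.sum_univ_three]
  rw [← Finset.sum_add_distrib, ← Finset.sum_add_distrib, ← Finset.sum_add_distrib,
    ← Finset.sum_add_distrib, ← Finset.sum_add_distrib, ← Finset.sum_add_distrib,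
    ← Finset.sum_add_distrib, ← Finset.sum_add_distrib]
  refine Finset.sum_congr rfl fun i _ => ?_
  ring

theorem rep_prim {n : ℕ} {v : Fin n → ℤ} (h : Rep v) : Prim v := by
  intro d hd
  have h1 : d ∣ Finset.univ.gcd v := Finset.dvd_gcd fun i _ => hd i
  rw [h.1] at h1
  exact isUnit_of_dvd_one h1

/-- an explicit bound for the values of the forms -/
theorem cq_le (M : Fin m → Matrix (Fin 3) (Fin 3) ℤ) : ∃ c : ℕ, ∀ x : Fin 3 → ℤ,
    ht (cq M x) ≤ c * ht x ^ 2 := by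
  refine ⟨∑ i, ∑ j, ∑ k, (M i j k).natAbs, fun x => ?_⟩
  refine ht_le fun i => ?_
  have h1 : cq M x i = ∑ j, ∑ k, M i j k * (x j * x k) := by
    unfold cq qf
    simp only [dotProduct, Matrix.mulVec, Matrix.map_apply, eq_intCast, Finset.mul_sum]
    refine Finset.sum_congr rfl fun j _ => Finset.sum_congr rfl fun k _ => ?_
    simp only [Int.cast_id]
    ring
  rw [h1]
  have hx : ∀ j, |x j| ≤ (ht x : ℤ) := le_ht' x
  have h2 : |∑ j, ∑ k, M i j k * (x j * x k)| ≤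
      ∑ j, ∑ k, |M i j k| * ((ht x : ℤ) ^ 2) := by
    refine (Finset.abs_sum_le_sum_abs _ _).trans (Finset.sum_le_sum fun j _ => ?_)
    refine (Finset.abs_sum_le_sum_abs _ _).trans (Finset.sum_le_sum fun k _ => ?_)
    rw [abs_mul, abs_mul, pow_two]
    exact mul_le_mul_of_nonneg_left (mul_le_mul (hx j) (hx k) (abs_nonneg _) (by positivity))
      (abs_nonneg _)
  refine h2.trans ?_
  push_cast
  simp only [Int.natCast_natAbs, ← Finset.sum_mul]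
  refine mul_le_mul_of_nonneg_right ?_ (by positivity)
  exact Finset.single_le_sum (f := fun i => ∑ j, ∑ k, |M i j k|)
    (fun i _ => Finset.sum_nonneg fun j _ => Finset.sum_nonneg fun k _ => abs_nonneg _)
    (Finset.mem_univ i)

/-- `∑ 1 / ht² ≤ C B` -/
theorem sum_ht (B : ℕ) : ∑ x ∈ (bx 3 B).filter (fun x => x ≠ 0), 1 / (ht x : ℝ) ^ 2 ≤
    (26 : ℝ) * B := by
  have h0 : ∀ x ∈ (bx 3 B).filter (fun x => x ≠ 0), ht x ∈ Finset.Icc 1 B := by
    intro x hx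
    rw [mem_filter, mem_bx] at hx
    rw [mem_Icc]
    exact ⟨Pool.Agent.H548.WM.ht_pos hx.2, hx.1⟩
  rw [← Finset.sum_fiberwise_of_maps_to h0]
  have h1 : ∀ h ∈ Finset.Icc 1 B, ∑ x ∈ ((bx 3 B).filter (fun x => x ≠ 0)).filter
      (fun x => ht x = h), 1 / (ht x : ℝ) ^ 2 ≤ 26 := by
    intro h hh
    rw [mem_Icc] at hh
    have h2 : ∑ x ∈ ((bx 3 B).filter (fun x => x ≠ 0)).filter
      (fun x => ht x = h), 1 / (ht x : ℝ) ^ 2 = ∑ x ∈ ((bx 3 B).filter (fun x => x ≠ 0)).filter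
      (fun x => ht x = h), 1 / (h : ℝ) ^ 2 := by
      refine Finset.sum_congr rfl fun x hx => ?_
      rw [(mem_filter.1 hx).2]
    rw [h2, Finset.sum_const, nsmul_eq_mul]
    have hpos : (0 : ℝ) < (h : ℝ) ^ 2 := by
      have : (0 : ℝ) < h := by exact_mod_cast hh.1
      positivity
    rw [mul_one_div, div_le_iff₀ hpos]
    have h3 : ((bx 3 B).filter (fun x => x ≠ 0)).filter (fun x => ht x = h) ⊆
        bx 3 h \ bx 3 (h - 1) := by
      intro x hx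
      rw [mem_filter] at hx
      rw [mem_sdiff, mem_bx, mem_bx]
      omega
    have h4 : bx 3 (h - 1) ⊆ bx 3 h := by
      intro x hx
      rw [mem_bx] at hx ⊢
      omega
    have h5 := (card_le_card h3).trans_eq (card_sdiff_of_subset h4)
    rw [card_bx, card_bx] at h5
    obtain ⟨k, rfl⟩ : ∃ k, h = k + 1 := ⟨h - 1, by omega⟩
    have h6 : (2 * (k + 1) + 1) ^ 3 - (2 * (k + 1 - 1) + 1) ^ 3 ≤ 26 * (k + 1) ^ 2 := by
      rw [Nat.add_sub_cancel, Nat.sub_le_iff_le_add]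
      nlinarith [sq_nonneg k]
    exact_mod_cast h5.trans h6
  refine (Finset.sum_le_sum h1).trans ?_
  rw [Finset.sum_const, Nat.card_Icc, nsmul_eq_mul]
  simp
  linarith


theorem card_bx_le' (m : ℕ) {X : ℕ} (hX : 1 ≤ X) : ((bx m X).card : ℝ) ≤ (3 * (X : ℝ)) ^ m :=
  Pool.Agent.H548.WM.card_bx_le m hX

/-- counting by the parameters of the conics -/
theorem pp_t (hC : S_CONC) (hS : S_SUMC) {n : ℕ} {M : Fin (n + 1) → Matrix (Fin 3) (Fin 3) ℤ}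
    (hn : 2 ≤ n) (hs : ∀ i, (M i).IsSymm) (hI : Ind M)
    (hd : ∃ t : Fin (n + 1) → ℤ, (gm M t).det ≠ 0) (ε : ℝ) (hε : 0 < ε) :
    ∃ C : ℝ, 0 ≤ C ∧ ∀ A B : ℕ, 1 ≤ A → 1 ≤ B →
      ((PP M A B).card : ℝ) ≤ C * ((A : ℝ) * B) ^ ε * ((A : ℝ) ^ (n + 1) + B * (A : ℝ) ^ n) := by
  classical
  obtain ⟨C1, h10, h1⟩ := hC (n + 1) M hs (ε / 2) (by positivity)
  obtain ⟨C2, h20, h2⟩ := hS n M hn hs hI hd (ε / 2) (by positivity)
  refine ⟨C1 * (3 ^ (n + 1) + C2), by positivity, fun A B hA hB => ?_⟩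
  have hA1 : (1 : ℝ) ≤ A := by exact_mod_cast hA
  have hB1 : (1 : ℝ) ≤ B := by exact_mod_cast hB
  have hAB : (1 : ℝ) ≤ (A : ℝ) * B := by nlinarith
  have hsub : PP M A B ⊆ ((bx (n + 1) A).filter fun t => (gm M t).det ≠ 0).biUnion fun t =>
      ((bx 3 B).filter fun x => Rep x ∧ qf (gm M t) x = 0).image fun x => (t, x) := by
    intro z hz
    unfold PP at hz
    rw [mem_filter, mem_product] at hz
    rw [mem_biUnion]
    refine ⟨z.1, mem_filter.2 ⟨hz.1.1, hz.2.2.2⟩, mem_image.2 ⟨z.2, ?_, rfl⟩⟩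
    exact mem_filter.2 ⟨hz.1.2, hz.2.1, hz.2.2.1⟩
  have h3 : ((PP M A B).card : ℝ) ≤ ∑ t ∈ (bx (n + 1) A).filter (fun t => (gm M t).det ≠ 0),
      C1 * ((A : ℝ) * B) ^ (ε / 2) * (1 + B * wt (gm M t)) := by
    have h4 := (card_le_card hsub).trans card_biUnion_le
    have h5 : ((PP M A B).card : ℝ) ≤ ∑ t ∈ (bx (n + 1) A).filter (fun t => (gm M t).det ≠ 0),
      ((((bx 3 B).filter fun x => Rep x ∧ qf (gm M t) x = 0).image fun x => (t, x)).card : ℝ) := by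
      exact_mod_cast h4
    refine h5.trans (Finset.sum_le_sum fun t ht => ?_)
    rw [mem_filter] at ht
    refine le_trans ?_ (h1 A B hA hB t ht.1 ht.2)
    have h6 := card_image_le (s := (bx 3 B).filter fun x => Rep x ∧ qf (gm M t) x = 0)
      (f := fun x => (t, x))
    have h6' : ((((bx 3 B).filter fun x => Rep x ∧ qf (gm M t) x = 0).image
      fun x => (t, x)).card : ℝ) ≤ (((bx 3 B).filter fun x => Rep x ∧ qf (gm M t) x = 0).card : ℝ) := by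
      exact_mod_cast h6
    refine h6'.trans (le_of_eq ?_)
    congr!
  have h7 : ∑ t ∈ (bx (n + 1) A).filter (fun t => (gm M t).det ≠ 0),
      C1 * ((A : ℝ) * B) ^ (ε / 2) * (1 + B * wt (gm M t)) =
      C1 * ((A : ℝ) * B) ^ (ε / 2) * ((((bx (n + 1) A).filter
        (fun t => (gm M t).det ≠ 0)).card : ℝ) + B * ∑ t ∈ (bx (n + 1) A).filter
        (fun t => (gm M t).det ≠ 0), wt (gm M t)) := by
    rw [← Finset.mul_sum, Finset.sum_add_distrib, Finset.sum_const, ← Finset.mul_sum]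
    simp
  have h8 : (((bx (n + 1) A).filter (fun t => (gm M t).det ≠ 0)).card : ℝ) ≤
      3 ^ (n + 1) * (A : ℝ) ^ (n + 1) := by
    have h9 := card_filter_le (bx (n + 1) A) (fun t => (gm M t).det ≠ 0)
    have h10 := card_bx_le' (n + 1) hA
    rw [mul_pow] at h10
    exact le_trans (by exact_mod_cast h9) h10
  have h9 := h2 A hA
  have e1 : ((A : ℝ) * B) ^ (ε / 2) ≤ ((A : ℝ) * B) ^ ε :=
    Real.rpow_le_rpow_of_exponent_le hAB (by linarith)
  have e2 : ((A : ℝ) * B) ^ (ε / 2) * (A : ℝ) ^ (ε / 2) ≤ ((A : ℝ) * B) ^ ε := by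
    have e3 : (A : ℝ) ^ (ε / 2) ≤ ((A : ℝ) * B) ^ (ε / 2) :=
      Real.rpow_le_rpow (by positivity) (by nlinarith) (by positivity)
    calc ((A : ℝ) * B) ^ (ε / 2) * (A : ℝ) ^ (ε / 2) ≤
        ((A : ℝ) * B) ^ (ε / 2) * ((A : ℝ) * B) ^ (ε / 2) := by gcongr
      _ = ((A : ℝ) * B) ^ ε := by
        rw [← Real.rpow_add (by positivity)]
        congr 1
        ring
  rw [h7] at h3
  calc ((PP M A B).card : ℝ) ≤ _ := h3
    _ ≤ C1 * ((A : ℝ) * B) ^ (ε / 2) * (3 ^ (n + 1) * (A : ℝ) ^ (n + 1) +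
        B * (C2 * (A : ℝ) ^ n * (A : ℝ) ^ (ε / 2))) := by gcongr
    _ = C1 * (3 ^ (n + 1) * (((A : ℝ) * B) ^ (ε / 2) * (A : ℝ) ^ (n + 1)) +
        C2 * ((((A : ℝ) * B) ^ (ε / 2) * (A : ℝ) ^ (ε / 2)) * (B * (A : ℝ) ^ n))) := by ring
    _ ≤ C1 * (3 ^ (n + 1) * (((A : ℝ) * B) ^ ε * (A : ℝ) ^ (n + 1)) +
        C2 * (((A : ℝ) * B) ^ ε * (B * (A : ℝ) ^ n))) := by gcongr
    _ ≤ C1 * ((3 ^ (n + 1) + C2) * (((A : ℝ) * B) ^ ε * ((A : ℝ) ^ (n + 1) + B * (A : ℝ) ^ n))) := by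
        refine mul_le_mul_of_nonneg_left ?_ h10
        have p1 : 0 ≤ ((A : ℝ) * B) ^ ε * (A : ℝ) ^ (n + 1) := by positivity
        have p2 : 0 ≤ ((A : ℝ) * B) ^ ε * (B * (A : ℝ) ^ n) := by positivity
        have p3 : (0 : ℝ) ≤ 3 ^ (n + 1) := by positivity
        nlinarith [mul_nonneg p3 p2, mul_nonneg h20 p1]
    _ = _ := by ring

open Classical in
/-- counting by the points of the plane -/
theorem pp_y {n : ℕ} (M : Fin (n + 1) → Matrix (Fin 3) (Fin 3) ℤ) (A B : ℕ) :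
    ((PP M A B).card : ℝ) =
      ∑ y ∈ (bx 3 B).filter (fun y => Rep y), ((Ua M (cq M y) A).card : ℝ) := by
  classical
  have h1 : PP M A B = ((bx 3 B).filter (fun y => Rep y)).biUnion fun y =>
      (Ua M (cq M y) A).image fun t => (t, y) := by
    ext z
    rw [mem_biUnion]
    unfold PP Ua La
    rw [mem_filter, mem_product]
    constructor
    · rintro ⟨⟨h1, h2⟩, h3, h4, h5⟩
      refine ⟨z.2, mem_filter.2 ⟨h2, h3⟩, mem_image.2 ⟨z.1, ?_, rfl⟩⟩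
      rw [mem_filter, mem_filter]
      exact ⟨⟨h1, by rw [← dot_cq]; exact h4⟩, h5⟩
    · rintro ⟨y, hy, hz⟩
      rw [mem_image] at hz
      obtain ⟨t, ht, rfl⟩ := hz
      rw [mem_filter] at hy
      rw [mem_filter, mem_filter] at ht
      exact ⟨⟨ht.1.1, hy.1⟩, hy.2, by rw [dot_cq]; exact ht.1.2, ht.2⟩
  rw [h1, card_biUnion]
  · push_cast
    refine Finset.sum_congr ?_ fun y _ => ?_
    · congr!
    · rw [card_image_of_injective]
      intro a b hab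
      exact (Prod.mk.inj hab).1
  · intro y _ y' _ hyy'
    rw [Function.onFun, disjoint_left]
    intro z hz hz'
    rw [mem_image] at hz hz'
    obtain ⟨a, -, rfl⟩ := hz
    obtain ⟨b, -, hb⟩ := hz'
    exact hyy' (Prod.mk.inj hb).2.symm


/-- real inequality for one dyadic term -/
theorem term_le {n j : ℕ} {A B C1 c5 ε : ℝ} (hA : 1 ≤ A) (hB : 1 ≤ B) (hC1 : 0 ≤ C1) (hε : 0 ≤ ε)
    (hc5 : 1 ≤ c5) (hjA : (2 : ℝ) ^ j ≤ A) (hjB : (2 : ℝ) ^ j ≤ c5 * B) :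
    (A / (2 : ℝ) ^ j) ^ n * (C1 * ((8 * (2 : ℝ) ^ j) * B) ^ ε *
      ((8 * (2 : ℝ) ^ j) ^ (n + 1) + B * (8 * (2 : ℝ) ^ j) ^ n)) ≤
    C1 * 8 ^ (n + 2) * 8 ^ ε * c5 * (A ^ n * B) * (A * B) ^ ε := by
  have h2 : (0 : ℝ) < (2 : ℝ) ^ j := by positivity
  have e1 : ((8 * (2 : ℝ) ^ j) * B) ^ ε ≤ 8 ^ ε * (A * B) ^ ε := by
    rw [← Real.mul_rpow (by norm_num) (by positivity)]
    refine Real.rpow_le_rpow (by positivity) ?_ hε
    rw [mul_assoc]
    gcongr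
  have e2 : (A / (2 : ℝ) ^ j) ^ n * ((8 * (2 : ℝ) ^ j) ^ (n + 1) + B * (8 * (2 : ℝ) ^ j) ^ n) =
      A ^ n * 8 ^ n * (8 * (2 : ℝ) ^ j + B) := by
    rw [div_pow, mul_pow, mul_pow]
    field_simp
    ring
  have e3 : 8 * (2 : ℝ) ^ j + B ≤ 8 ^ 2 * (c5 * B) := by
    have : B ≤ c5 * B := by nlinarith
    nlinarith
  calc (A / (2 : ℝ) ^ j) ^ n * (C1 * ((8 * (2 : ℝ) ^ j) * B) ^ ε *
      ((8 * (2 : ℝ) ^ j) ^ (n + 1) + B * (8 * (2 : ℝ) ^ j) ^ n)) =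
      C1 * ((8 * (2 : ℝ) ^ j) * B) ^ ε * ((A / (2 : ℝ) ^ j) ^ n *
        ((8 * (2 : ℝ) ^ j) ^ (n + 1) + B * (8 * (2 : ℝ) ^ j) ^ n)) := by ring
    _ = C1 * ((8 * (2 : ℝ) ^ j) * B) ^ ε * (A ^ n * 8 ^ n * (8 * (2 : ℝ) ^ j + B)) := by rw [e2]
    _ ≤ C1 * (8 ^ ε * (A * B) ^ ε) * (A ^ n * 8 ^ n * (8 ^ 2 * (c5 * B))) := by gcongr
    _ = _ := by ring

theorem boxiP (hN : S_NST) (hD : S_DIC) (hC : S_CONC) (hS : S_SUMC) : S_BOXI := by
  classical
  intro n M hn hs hb hI hd ε hε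
  obtain ⟨⟨K, hK, hcont⟩, ⟨c, hc0, hlow⟩⟩ := hN (n + 1) M hb
  obtain ⟨C, hC1, hdic⟩ := hD n K hn hK
  obtain ⟨c3, hc3⟩ := cq_le M
  obtain ⟨C1, hC10, hpp⟩ := pp_t hC hS hn hs hI hd (ε / 2) (by positivity)
  set c5 : ℝ := C * c3 + 1 with hc5
  have hc51 : 1 ≤ c5 := by
    rw [hc5]
    have : (0 : ℝ) ≤ C * c3 := by positivity
    linarith
  set D1 : ℝ := C / c * 26 with hD1
  set D2 : ℝ := C * (C1 * 8 ^ (n + 2) * 8 ^ (ε / 2) * c5) with hD2
  set D3 : ℝ := 1 + 1 / (ε / 2 * Real.log 2) with hD3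
  have hl2 : 0 < Real.log 2 := Real.log_pos (by norm_num)
  have hD10 : 0 ≤ D1 := by positivity
  have hD20 : 0 ≤ D2 := by positivity
  have hD30 : 0 ≤ D3 := by positivity
  refine ⟨D1 + D3 * D2, by positivity, fun A B hA hB => ?_⟩
  have hA1 : (1 : ℝ) ≤ A := by exact_mod_cast hA
  have hB1 : (1 : ℝ) ≤ B := by exact_mod_cast hB
  have hAB : (1 : ℝ) ≤ (A : ℝ) * B := by nlinarith
  -- the dyadic values
  set J : Finset ℕ := (Finset.range (Nat.log 2 A + 1)).filter fun j => (2 : ℝ) ^ j ≤ c5 * B with hJ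
  have hJmem : ∀ j ∈ J, (2 : ℝ) ^ j ≤ A ∧ (2 : ℝ) ^ j ≤ c5 * B := by
    intro j hj
    rw [hJ, mem_filter, mem_range] at hj
    refine ⟨?_, hj.2⟩
    have h1 : 2 ^ j ≤ A := (Nat.pow_le_pow_right (by norm_num) (by omega)).trans
      (Nat.pow_log_le_self 2 (by omega))
    exact_mod_cast h1
  have hJc : (J.card : ℝ) ≤ D3 * (A : ℝ) ^ (ε / 2) := by
    have h1 : J.card ≤ Nat.log 2 A + 1 := (card_filter_le _ _).trans (by simp)
    have h2 : ((Nat.log 2 A : ℕ) : ℝ) * Real.log 2 ≤ Real.log A := by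
      have h3 : ((2 : ℝ) ^ (Nat.log 2 A)) ≤ A := by
        exact_mod_cast Nat.pow_log_le_self 2 (by omega)
      have h4 := Real.log_le_log (by positivity) h3
      rwa [Real.log_pow] at h4
    have h3 : Real.log A ≤ (A : ℝ) ^ (ε / 2) / (ε / 2) :=
      Real.log_le_rpow_div (by positivity) (by positivity)
    have h4 : (1 : ℝ) ≤ (A : ℝ) ^ (ε / 2) := Real.one_le_rpow hA1 (by positivity)
    have h5 : ((Nat.log 2 A : ℕ) : ℝ) ≤ (A : ℝ) ^ (ε / 2) / (ε / 2) / Real.log 2 := by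
      rw [le_div_iff₀ hl2]
      linarith
    have h6 : (J.card : ℝ) ≤ (Nat.log 2 A : ℕ) + 1 := by exact_mod_cast h1
    rw [hD3]
    have h7 : (A : ℝ) ^ (ε / 2) / (ε / 2) / Real.log 2 = 1 / (ε / 2 * Real.log 2) * (A : ℝ) ^ (ε / 2) := by
      field_simp
    rw [h7] at h5
    nlinarith
  -- one point of the plane
  have hy1 : ∀ y ∈ (bx 3 B).filter (fun y => Rep y), ((Ua M (cq M y) A).card : ℝ) ≤
      C / c * (A : ℝ) ^ n * (1 / (ht y : ℝ) ^ 2) +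
      ∑ j ∈ J, C * (A / (2 : ℝ) ^ j) ^ n * ((Ua M (cq M y) (8 * 2 ^ j)).card : ℝ) := by
    intro y hy
    rw [mem_filter, mem_bx] at hy
    have hy0 : y ≠ 0 := Pool.Agent.H548.BL.rep_ne hy.2
    have hyp : (0 : ℝ) < (ht y : ℝ) := by exact_mod_cast Pool.Agent.H548.WM.ht_pos hy0
    obtain ⟨i, hi⟩ := hlow y hy0
    have hw0 : cq M y ≠ 0 := by
      intro h
      rw [h] at hi
      simp only [Pi.zero_apply, Int.cast_zero, abs_zero] at hi
      nlinarith [mul_pos hc0 (pow_pos hyp 2)]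
    have hwl : c * (ht y : ℝ) ^ 2 ≤ (ht (cq M y) : ℝ) := by
      refine hi.trans ?_
      have := le_ht' (cq M y) i
      exact_mod_cast this
    have hwu : (ht (cq M y) : ℝ) ≤ c3 * (B : ℝ) ^ 2 := by
      have h1 := hc3 y
      have h2 : c3 * ht y ^ 2 ≤ c3 * B ^ 2 := Nat.mul_le_mul_left _ (Nat.pow_le_pow_left hy.1 2)
      exact_mod_cast h1.trans h2
    have hnn : ∀ j ∈ J, 0 ≤ C * (A / (2 : ℝ) ^ j) ^ n *
        ((Ua M (cq M y) (8 * 2 ^ j)).card : ℝ) := fun j _ => by positivity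
    rcases hdic M (cq M y) A hw0 hA (hcont y (rep_prim hy.2)) with h | ⟨j, hj1, hj2, hj3⟩
    · have h1 : ((Ua M (cq M y) A).card : ℝ) ≤ C / c * (A : ℝ) ^ n * (1 / (ht y : ℝ) ^ 2) := by
        have h2 : C / c * (A : ℝ) ^ n * (1 / (ht y : ℝ) ^ 2) =
            C * (A : ℝ) ^ n / (c * (ht y : ℝ) ^ 2) := by
          field_simp
        rw [h2, le_div_iff₀ (by positivity)]
        exact (mul_le_mul_of_nonneg_left hwl (by positivity)).trans h
      have h2 := Finset.sum_nonneg hnn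
      linarith
    · have hjJ : j ∈ J := by
        rw [hJ, mem_filter, mem_range]
        refine ⟨?_, ?_⟩
        · have := Nat.le_log_of_pow_le (by norm_num) hj1
          omega
        · have h1 : ((2 : ℝ) ^ j) ^ 2 ≤ (c5 * B) ^ 2 := by
            refine hj2.trans ?_
            have h2 : C * (ht (cq M y) : ℝ) ≤ C * (c3 * (B : ℝ) ^ 2) := by gcongr
            refine h2.trans ?_
            rw [mul_pow, ← mul_assoc]
            refine mul_le_mul_of_nonneg_right ?_ (by positivity)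
            rw [hc5]
            have : (0 : ℝ) ≤ C * c3 := by positivity
            nlinarith
          exact le_of_sq_le_sq h1 (by positivity)
      have h1 := Finset.single_le_sum hnn hjJ
      have h2 : 0 ≤ C / c * (A : ℝ) ^ n * (1 / (ht y : ℝ) ^ 2) := by positivity
      linarith
  -- the sum over the points of the plane
  rw [pp_y]
  have hsum1 : ∑ y ∈ (bx 3 B).filter (fun y => Rep y), C / c * (A : ℝ) ^ n *
      (1 / (ht y : ℝ) ^ 2) ≤ D1 * ((A : ℝ) ^ n * B) := by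
    rw [← Finset.mul_sum]
    have h1 : ∑ y ∈ (bx 3 B).filter (fun y => Rep y), 1 / (ht y : ℝ) ^ 2 ≤ (26 : ℝ) * B := by
      refine le_trans ?_ (sum_ht B)
      refine Finset.sum_le_sum_of_subset_of_nonneg ?_ (fun _ _ _ => by positivity)
      intro y hy
      rw [mem_filter] at hy ⊢
      exact ⟨hy.1, Pool.Agent.H548.BL.rep_ne hy.2⟩
    calc C / c * (A : ℝ) ^ n * ∑ y ∈ (bx 3 B).filter (fun y => Rep y), 1 / (ht y : ℝ) ^ 2 ≤
        C / c * (A : ℝ) ^ n * ((26 : ℝ) * B) := by gcongr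
      _ = _ := by rw [hD1]; ring
  have hsum2 : ∑ y ∈ (bx 3 B).filter (fun y => Rep y),
      ∑ j ∈ J, C * (A / (2 : ℝ) ^ j) ^ n * ((Ua M (cq M y) (8 * 2 ^ j)).card : ℝ) ≤
      D3 * D2 * ((A : ℝ) ^ n * B) * ((A : ℝ) * B) ^ ε := by
    rw [Finset.sum_comm]
    have h1 : ∀ j ∈ J, ∑ y ∈ (bx 3 B).filter (fun y => Rep y),
        C * (A / (2 : ℝ) ^ j) ^ n * ((Ua M (cq M y) (8 * 2 ^ j)).card : ℝ) ≤
        D2 * ((A : ℝ) ^ n * B) * ((A : ℝ) * B) ^ (ε / 2) := by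
      intro j hj
      obtain ⟨hj1, hj2⟩ := hJmem j hj
      rw [← Finset.mul_sum, ← pp_y]
      have h2 := hpp (8 * 2 ^ j) B (by have := Nat.one_le_two_pow (n := j); omega) hB
      have h3 := term_le (n := n) (j := j) (C1 := C1) (ε := ε / 2) hA1 hB1 hC10 (by positivity)
        hc51 hj1 hj2
      push_cast at h2
      calc C * (A / (2 : ℝ) ^ j) ^ n * ((PP M (8 * 2 ^ j) B).card : ℝ) ≤
          C * (A / (2 : ℝ) ^ j) ^ n * (C1 * ((8 * (2 : ℝ) ^ j) * B) ^ (ε / 2) *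
            ((8 * (2 : ℝ) ^ j) ^ (n + 1) + B * (8 * (2 : ℝ) ^ j) ^ n)) := by gcongr
        _ = C * ((A / (2 : ℝ) ^ j) ^ n * (C1 * ((8 * (2 : ℝ) ^ j) * B) ^ (ε / 2) *
            ((8 * (2 : ℝ) ^ j) ^ (n + 1) + B * (8 * (2 : ℝ) ^ j) ^ n))) := by ring
        _ ≤ C * (C1 * 8 ^ (n + 2) * 8 ^ (ε / 2) * c5 * ((A : ℝ) ^ n * B) *
            ((A : ℝ) * B) ^ (ε / 2)) := by gcongr
        _ = _ := by rw [hD2]; ring
    refine (Finset.sum_le_sum h1).trans ?_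
    rw [Finset.sum_const, nsmul_eq_mul]
    have e1 : (A : ℝ) ^ (ε / 2) * ((A : ℝ) * B) ^ (ε / 2) ≤ ((A : ℝ) * B) ^ ε := by
      have e3 : (A : ℝ) ^ (ε / 2) ≤ ((A : ℝ) * B) ^ (ε / 2) :=
        Real.rpow_le_rpow (by positivity) (by nlinarith) (by positivity)
      calc (A : ℝ) ^ (ε / 2) * ((A : ℝ) * B) ^ (ε / 2) ≤
          ((A : ℝ) * B) ^ (ε / 2) * ((A : ℝ) * B) ^ (ε / 2) := by gcongr
        _ = ((A : ℝ) * B) ^ ε := by
          rw [← Real.rpow_add (by positivity)]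
          congr 1
          ring
    calc (J.card : ℝ) * (D2 * ((A : ℝ) ^ n * B) * ((A : ℝ) * B) ^ (ε / 2)) ≤
        D3 * (A : ℝ) ^ (ε / 2) * (D2 * ((A : ℝ) ^ n * B) * ((A : ℝ) * B) ^ (ε / 2)) := by gcongr
      _ = D3 * D2 * ((A : ℝ) ^ n * B) * ((A : ℝ) ^ (ε / 2) * ((A : ℝ) * B) ^ (ε / 2)) := by ring
      _ ≤ _ := by gcongr
  have h1 : (1 : ℝ) ≤ ((A : ℝ) * B) ^ ε := Real.one_le_rpow hAB hε.le
  calc ∑ y ∈ (bx 3 B).filter (fun y => Rep y), ((Ua M (cq M y) A).card : ℝ) ≤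
      ∑ y ∈ (bx 3 B).filter (fun y => Rep y), (C / c * (A : ℝ) ^ n * (1 / (ht y : ℝ) ^ 2) +
      ∑ j ∈ J, C * (A / (2 : ℝ) ^ j) ^ n * ((Ua M (cq M y) (8 * 2 ^ j)).card : ℝ)) :=
        Finset.sum_le_sum hy1
    _ ≤ D1 * ((A : ℝ) ^ n * B) + D3 * D2 * ((A : ℝ) ^ n * B) * ((A : ℝ) * B) ^ ε := by
        rw [Finset.sum_add_distrib]
        exact add_le_add hsum1 hsum2
    _ ≤ D1 * ((A : ℝ) ^ n * B) * ((A : ℝ) * B) ^ ε +
        D3 * D2 * ((A : ℝ) ^ n * B) * ((A : ℝ) * B) ^ ε := by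
        have h2 : D1 * ((A : ℝ) ^ n * B) ≤ D1 * ((A : ℝ) ^ n * B) * ((A : ℝ) * B) ^ ε :=
          le_mul_of_one_le_right (by positivity) h1
        linarith
    _ = _ := by ring

end Pool.Agent.N852.QN
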