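import Pool.Agent.N852.QN.Stm
import Pool.Agent.N852.Div
import Pool.Agent.R38.NC.Coni
import Pool.Agent.R38.NC.Tri
import Pool.Agent.R38.NC.Bas2
import Pool.Agent.R38.NC.Par
import Pool.Agent.R38.NC.Dvd

/-!
# Project QN, part CONC (helper713): the number of the points on a conic of the linear system
-/

set_option autoImplicit false

namespace Pool.Agent.N852.QN

open Matrix Finset
open Pool.Agent.H548.WM (ht bx Rep)

/-- the bound for the library theorem on conics -/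
theorem conc_con : Pool.Agent.R38.NC.S_CON :=
  Pool.Agent.R38.NC.con_ Pool.Agent.R38.NC.tri_ Pool.Agent.R38.NC.bas2_
    Pool.Agent.R38.NC.par_ Pool.Agent.R38.NC.dvd_

theorem conc_gg_pos (A : Matrix (Fin 3) (Fin 3) ℤ) (hA : A.det ≠ 0) : 1 ≤ gg A := by
  rw [Nat.one_le_iff_ne_zero]
  intro h
  unfold gg at h
  rw [Finset.gcd_eq_zero_iff] at h
  have h1 : A.adjugate = 0 := by
    ext i j
    have := h (i, j) (mem_univ _)
    simpa using this
  have h2 := A.mul_adjugate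
  rw [h1, Matrix.mul_zero] at h2
  have h3 := congrFun (congrFun h2 0) 0
  simp at h3
  exact hA h3.symm

theorem conc_gg_dvd (A : Matrix (Fin 3) (Fin 3) ℤ) (d : ℤ) (h : ∀ i j, d ∣ A.adjugate i j) :
    d ∣ (gg A : ℤ) := by
  rw [← Int.natAbs_dvd_natAbs, Int.natAbs_natCast]
  exact Finset.dvd_gcd fun p _ => Int.natAbs_dvd_natAbs.2 (h p.1 p.2)

theorem conc_det {m : ℕ} (M : Fin m → Matrix (Fin 3) (Fin 3) ℤ) (P : ℕ) (t : Fin m → ℤ)
    (ht' : t ∈ bx m P) :
    (gm M t).det.natAbs ≤ 6 * ((1 + ∑ i, ∑ j, ∑ k, (M i j k).natAbs) * P) ^ 3 := by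
  set B : ℕ := 1 + ∑ i, ∑ j, ∑ k, (M i j k).natAbs with hB
  have hent : ∀ j k, |gm M t j k| ≤ ((B * P : ℕ) : ℤ) := by
    intro j k
    have hle : ∀ i, |t i| ≤ (P : ℤ) := fun i =>
      (Pool.Agent.H548.WM.le_ht' t i).trans (by
        exact_mod_cast Pool.Agent.H548.WM.mem_bx.1 ht')
    have h1 : |gm M t j k| ≤ ∑ i, |t i * (M i j k : ℤ)| := by
      unfold gm
      exact Finset.abs_sum_le_sum_abs _ _
    have h2 : ∑ i, |t i * (M i j k : ℤ)| ≤ ∑ i, (P : ℤ) * ((M i j k).natAbs : ℤ) := by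
      refine Finset.sum_le_sum fun i _ => ?_
      rw [abs_mul, Int.natCast_natAbs]
      exact mul_le_mul_of_nonneg_right (hle i) (abs_nonneg _)
    have h3 : ∑ i, (M i j k).natAbs ≤ B := by
      have : ∀ i, (M i j k).natAbs ≤ ∑ j, ∑ k, (M i j k).natAbs := by
        intro i
        calc (M i j k).natAbs ≤ ∑ k, (M i j k).natAbs :=
              Finset.single_le_sum (f := fun k => (M i j k).natAbs) (fun _ _ => Nat.zero_le _)
                (mem_univ k)
          _ ≤ ∑ j, ∑ k, (M i j k).natAbs :=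
              Finset.single_le_sum (f := fun j => ∑ k, (M i j k).natAbs)
                (fun _ _ => Nat.zero_le _) (mem_univ j)
      have := Finset.sum_le_sum fun i (_ : i ∈ (univ : Finset (Fin m))) => this i
      omega
    calc |gm M t j k| ≤ ∑ i, (P : ℤ) * ((M i j k).natAbs : ℤ) := h1.trans h2
      _ = (P : ℤ) * ((∑ i, (M i j k).natAbs : ℕ) : ℤ) := by rw [← mul_sum]; push_cast; rfl
      _ ≤ (P : ℤ) * (B : ℤ) := by
          apply mul_le_mul_of_nonneg_left _ (by positivity)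
          exact_mod_cast h3
      _ = ((B * P : ℕ) : ℤ) := by push_cast; ring
  have h := Matrix.det_le (A := gm M t) (abv := AbsoluteValue.abs) (x := ((B * P : ℕ) : ℤ)) hent
  simp only [Fintype.card_fin, AbsoluteValue.abs_apply] at h
  have h6 : Nat.factorial 3 = 6 := rfl
  rw [h6, nsmul_eq_mul, ← Int.natCast_natAbs] at h
  exact_mod_cast h

theorem concP (hU : S_UB) : S_CONC := by
  classical
  intro m M hM ε hε
  obtain ⟨C1, hC1, hub⟩ := hU (ε / 3) (by positivity)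
  obtain ⟨C2, hC2, hdiv⟩ := Pool.Agent.N852.divisor_bound (ε / 6) (by positivity)
  set B : ℕ := 1 + ∑ i, ∑ j, ∑ k, (M i j k).natAbs with hB
  have hB1 : (1 : ℝ) ≤ B := by
    rw [hB]; push_cast
    have : (0 : ℝ) ≤ ∑ i, ∑ j, ∑ k, ((M i j k).natAbs : ℝ) := by positivity
    linarith
  set E : ℝ := 12 * (B : ℝ) ^ 3 with hE
  have hE0 : 0 < E := by positivity
  refine ⟨C1 * E ^ (ε / 3) + 1 + 40 * (C2 * E ^ (ε / 6)) ^ 2, by positivity, ?_⟩
  intro P Q hP hQ t htP hdet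
  set A := gm M t with hA
  set D : ℕ := A.det.natAbs with hD
  have hD1 : 1 ≤ D := Nat.one_le_iff_ne_zero.2 (Int.natAbs_ne_zero.2 hdet)
  have hDle : D ≤ 6 * (B * P) ^ 3 := conc_det M P t htP
  have hP1 : (1 : ℝ) ≤ P := by exact_mod_cast hP
  have hQ1 : (1 : ℝ) ≤ Q := by exact_mod_cast hQ
  have hDr : (D : ℝ) ≤ 6 * ((B : ℝ) * P) ^ 3 := by exact_mod_cast hDle
  have h2D : 2 * (D : ℝ) ≤ E * (P : ℝ) ^ 3 := by
    rw [hE]
    calc 2 * (D : ℝ) ≤ 2 * (6 * ((B : ℝ) * P) ^ 3) := by linarith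
      _ = 12 * (B : ℝ) ^ 3 * (P : ℝ) ^ 3 := by ring
  have hD0 : (0 : ℝ) ≤ D := by positivity
  have h1D : (D : ℝ) ≤ E * (P : ℝ) ^ 3 := by linarith
  set T : ℝ := ((P : ℝ) * Q) ^ ε with hT
  have hPT : (P : ℝ) ^ ε ≤ T :=
    Real.rpow_le_rpow (by positivity) (le_mul_of_one_le_right (by positivity) hQ1) hε.le
  have hT1 : 1 ≤ T := Real.one_le_rpow (by nlinarith) hε.le
  -- powers
  have hp3 : ((P : ℝ) ^ 3) ^ (ε / 3) = (P : ℝ) ^ ε := by
    rw [← Real.rpow_natCast, ← Real.rpow_mul (by positivity)]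
    congr 1
    push_cast
    ring
  have hp6 : (((P : ℝ) ^ 3) ^ (ε / 6)) ^ 2 = (P : ℝ) ^ ε := by
    rw [← Real.rpow_natCast (P : ℝ) 3, ← Real.rpow_mul (by positivity), ← Real.rpow_natCast,
      ← Real.rpow_mul (by positivity)]
    congr 1
    push_cast
    ring
  have hDe : (D : ℝ) ^ (ε / 3) ≤ E ^ (ε / 3) * T := by
    calc (D : ℝ) ^ (ε / 3) ≤ (E * (P : ℝ) ^ 3) ^ (ε / 3) :=
          Real.rpow_le_rpow hD0 h1D (by positivity)
      _ = E ^ (ε / 3) * (P : ℝ) ^ ε := by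
          rw [Real.mul_rpow hE0.le (by positivity), hp3]
      _ ≤ E ^ (ε / 3) * T := mul_le_mul_of_nonneg_left hPT (by positivity)
  have hdv : (((2 * D).divisors.card : ℕ) : ℝ) ^ 2 ≤ (C2 * E ^ (ε / 6)) ^ 2 * T := by
    have h1 := hdiv (2 * D) (by omega)
    have h2 : (((2 * D : ℕ) : ℝ)) ^ (ε / 6) ≤ E ^ (ε / 6) * ((P : ℝ) ^ 3) ^ (ε / 6) := by
      rw [← Real.mul_rpow hE0.le (by positivity)]
      refine Real.rpow_le_rpow (by positivity) ?_ (by positivity)
      push_cast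
      exact h2D
    have h3 : (((2 * D).divisors.card : ℕ) : ℝ) ≤ C2 * E ^ (ε / 6) * ((P : ℝ) ^ 3) ^ (ε / 6) := by
      refine h1.trans ?_
      rw [mul_assoc]
      exact mul_le_mul_of_nonneg_left h2 hC2.le
    calc (((2 * D).divisors.card : ℕ) : ℝ) ^ 2
        ≤ (C2 * E ^ (ε / 6) * ((P : ℝ) ^ 3) ^ (ε / 6)) ^ 2 :=
          pow_le_pow_left₀ (by positivity) h3 2
      _ = (C2 * E ^ (ε / 6)) ^ 2 * (P : ℝ) ^ ε := by rw [mul_pow, hp6]
      _ ≤ (C2 * E ^ (ε / 6)) ^ 2 * T := mul_le_mul_of_nonneg_left hPT (by positivity)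
  -- the set
  set S := (bx 3 Q).filter fun x => Rep x ∧ qf A x = 0 with hS
  have hmem : ∀ x ∈ S, Rep x ∧ ht x ≤ Q ∧ qf A x = 0 := by
    intro x hx
    rw [hS, mem_filter] at hx
    exact ⟨hx.2.1, Pool.Agent.H548.WM.mem_bx.1 hx.1, hx.2.2⟩
  have hsymm : A.IsSymm := by
    ext i j
    rw [hA]
    simp only [Matrix.transpose_apply, gm]
    refine Finset.sum_congr rfl fun k _ => ?_
    rw [(hM k).apply i j]
  have hb1 := hub A hsymm hdet Q S hQ hmem
  have hb2 := conc_con (gg A) A (conc_gg_pos A hdet) hsymm hdet (conc_gg_dvd A) Q S hQ hmem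
  have hwt0 : 0 ≤ wt A := le_min (by norm_num) (by positivity)
  set K1 := C1 * E ^ (ε / 3) with hK1
  set K2 := (C2 * E ^ (ε / 6)) ^ 2 with hK2
  have hK1' : 0 ≤ K1 := by positivity
  have hK2' : 0 ≤ K2 := by positivity
  have hQw : 0 ≤ (Q : ℝ) * wt A := by positivity
  have hbase : 0 ≤ T * (1 + Q * wt A) := by positivity
  rcases le_total 1 ((gg A : ℝ) / ((A.det.natAbs : ℝ) ^ ((1 : ℝ) / 3))) with hw | hw
  · have hwt : wt A = 1 := min_eq_left hw
    rw [hwt, mul_one]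
    calc (S.card : ℝ) ≤ C1 * Q * (D : ℝ) ^ (ε / 3) := hb1
      _ ≤ C1 * Q * (E ^ (ε / 3) * T) := mul_le_mul_of_nonneg_left hDe (by positivity)
      _ = K1 * (T * Q) := by rw [hK1]; ring
      _ ≤ (K1 + 1 + 40 * K2) * (T * (1 + Q)) := by
          apply mul_le_mul _ _ (by positivity) (by positivity)
          · linarith
          · exact mul_le_mul_of_nonneg_left (by linarith) (by positivity)
      _ = (K1 + 1 + 40 * K2) * T * (1 + Q) := by ring
  · have hwt : wt A = (gg A : ℝ) / ((A.det.natAbs : ℝ) ^ ((1 : ℝ) / 3)) := min_eq_right hw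
    have h40 : 40 * ((gg A : ℝ) * Q) / ((A.det.natAbs : ℝ) ^ ((1 : ℝ) / 3)) =
        40 * (Q * wt A) := by rw [hwt]; ring
    rw [h40] at hb2
    calc (S.card : ℝ) ≤ 1 + (((2 * D).divisors.card : ℕ) : ℝ) ^ 2 * (10 + 40 * (Q * wt A)) := hb2
      _ ≤ 1 + K2 * T * (40 * (1 + Q * wt A)) := by
          have : (((2 * D).divisors.card : ℕ) : ℝ) ^ 2 * (10 + 40 * (Q * wt A)) ≤
              K2 * T * (40 * (1 + Q * wt A)) := by
            apply mul_le_mul hdv (by linarith) (by positivity) (by positivity)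
          linarith
      _ ≤ T * (1 + Q * wt A) + K2 * T * (40 * (1 + Q * wt A)) := by
          have : 1 ≤ T * (1 + Q * wt A) := by nlinarith
          linarith
      _ ≤ (K1 + 1 + 40 * K2) * T * (1 + Q * wt A) := by
          have : 0 ≤ K1 * (T * (1 + Q * wt A)) := by positivity
          nlinarith

end Pool.Agent.N852.QN
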