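import Mathlib
import Pool.Agent.N852.QN.Stm

/-!
# QN/DEP: reduction to linearly independent forms (helper767)
-/

set_option autoImplicit false

namespace Pool.Agent.N852.QN

open Matrix Finset
open Pool.Agent.H548.WM (ht bx Rep)

namespace Dep

section alg

variable {R : Type*} [CommRing R]

/-- the value at a vector is linear in the matrix -/
def qfL (x : Fin 3 → R) : Matrix (Fin 3) (Fin 3) R →ₗ[R] R where
  toFun A := qf A x
  map_add' A B := by unfold qf; rw [Matrix.add_mulVec, dotProduct_add]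
  map_smul' c A := by
    unfold qf
    rw [Matrix.smul_mulVec, dotProduct_smul, smul_eq_mul, RingHom.id_apply, smul_eq_mul]

theorem qf_lin (A : Matrix (Fin 3) (Fin 3) R) (x y : R) (u v : Fin 3 → R) :
    qf A (x • u + y • v) = qf A u * x ^ 2 + (u ⬝ᵥ A.mulVec v + v ⬝ᵥ A.mulVec u) * (x * y) +
      qf A v * y ^ 2 := by
  unfold qf
  simp only [Matrix.mulVec_add, Matrix.mulVec_smul, dotProduct_add, add_dotProduct,
    dotProduct_smul, smul_dotProduct, smul_eq_mul]
  ring

end alg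

theorem bin_zero (a b c : ℂ) :
    ∃ x y : ℂ, (x ≠ 0 ∨ y ≠ 0) ∧ a * x ^ 2 + b * (x * y) + c * y ^ 2 = 0 := by
  by_cases ha : a = 0
  · exact ⟨1, 0, Or.inl one_ne_zero, by rw [ha]; ring⟩
  · obtain ⟨s, hs⟩ := IsAlgClosed.exists_pow_nat_eq (discrim a b c) (n := 2) (by norm_num)
    obtain ⟨x, hx⟩ := exists_quadratic_eq_zero ha ⟨s, by rw [← hs]; ring⟩
    exact ⟨x, 1, Or.inr one_ne_zero, by linear_combination hx⟩

theorem plane_zero (A : Matrix (Fin 3) (Fin 3) ℂ) (u v : Fin 3 → ℂ) :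
    ∃ x y : ℂ, (x ≠ 0 ∨ y ≠ 0) ∧ qf A (x • u + y • v) = 0 := by
  obtain ⟨x, y, h, h1⟩ := bin_zero (qf A u) (u ⬝ᵥ A.mulVec v + v ⬝ᵥ A.mulVec u) (qf A v)
  exact ⟨x, y, h, by rw [qf_lin, h1]⟩

theorem sing_zero (C D : Matrix (Fin 3) (Fin 3) ℂ) (hC : C.IsSymm) (v : Fin 3 → ℂ) (hv : v ≠ 0)
    (hCv : C.mulVec v = 0) : ∃ z : Fin 3 → ℂ, z ≠ 0 ∧ qf C z = 0 ∧ qf D z = 0 := by
  obtain ⟨p, hp⟩ := Function.ne_iff.1 hv
  have key : ∀ p : Fin 3, ∃ q r : Fin 3, q ≠ p ∧ r ≠ p ∧ q ≠ r := by decide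
  obtain ⟨q, r, hq, hr, hqr⟩ := key p
  obtain ⟨x, y, hxy, h1⟩ := plane_zero C (Pi.single q 1) (Pi.single r 1)
  set u : Fin 3 → ℂ := x • Pi.single q 1 + y • Pi.single r 1 with hu
  have up : u p = 0 := by simp [hu, hq.symm, hr.symm]
  have uq : u q = x := by simp [hu, hqr]
  have ur : u r = y := by simp [hu, hqr.symm]
  obtain ⟨s, t, hst, h2⟩ := plane_zero D u v
  refine ⟨s • u + t • v, ?_, ?_, h2⟩
  · intro h0
    have e1 := congrFun h0 p
    simp only [Pi.add_apply, Pi.smul_apply, smul_eq_mul, up, mul_zero, zero_add, Pi.zero_apply,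
      mul_eq_zero] at e1
    have ht : t = 0 := e1.resolve_right hp
    have hs : s ≠ 0 := by
      rcases hst with h | h
      · exact h
      · exact absurd ht h
    have e2 := congrFun h0 q
    have e3 := congrFun h0 r
    simp only [Pi.add_apply, Pi.smul_apply, smul_eq_mul, uq, ur, ht, zero_mul, add_zero,
      Pi.zero_apply, mul_eq_zero] at e2 e3
    rcases hxy with h | h
    · exact h (e2.resolve_left hs)
    · exact h (e3.resolve_left hs)
  · rw [qf_lin, h1]
    have e4 : v ⬝ᵥ C.mulVec u = 0 := by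
      rw [dotProduct_mulVec, ← mulVec_transpose, hC, hCv, zero_dotProduct]
    have e5 : qf C v = 0 := by
      unfold qf
      rw [hCv, dotProduct_zero]
    rw [e4, e5, hCv, dotProduct_zero]
    ring

/-- two ternary quadratic forms have a common zero -/
theorem common_zero (A B : Matrix (Fin 3) (Fin 3) ℂ) (hA : A.IsSymm) (hB : B.IsSymm) :
    ∃ z : Fin 3 → ℂ, z ≠ 0 ∧ qf A z = 0 ∧ qf B z = 0 := by
  by_cases hd : B.det = 0
  · obtain ⟨v, hv, hBv⟩ := Matrix.exists_mulVec_eq_zero_iff.2 hd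
    obtain ⟨z, h1, h2, h3⟩ := sing_zero B A hB v hv hBv
    exact ⟨z, h1, h3, h2⟩
  · obtain ⟨t, ht⟩ := Module.End.exists_eigenvalue (Matrix.toLin' (B⁻¹ * A))
    obtain ⟨v, hv⟩ := ht.exists_hasEigenvector
    have h1 := hv.apply_eq_smul
    rw [Matrix.toLin'_apply] at h1
    have h2 : A.mulVec v = t • B.mulVec v := by
      have h3 : B.mulVec ((B⁻¹ * A).mulVec v) = B.mulVec (t • v) := by rw [h1]
      rw [mulVec_mulVec, ← Matrix.mul_assoc, Matrix.mul_nonsing_inv _ (isUnit_iff_ne_zero.2 hd),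
        Matrix.one_mul, mulVec_smul] at h3
      exact h3
    obtain ⟨z, h4, h5, h6⟩ := sing_zero (A - t • B) B (hA.sub (hB.smul t)) v hv.2 (by
      rw [sub_mulVec, smul_mulVec, h2, sub_self])
    refine ⟨z, h4, ?_, h6⟩
    have h7 : qf (A - t • B) z = qf A z - t * qf B z := by
      have := (qfL z).map_sub A (t • B)
      rw [(qfL z).map_smul] at this
      exact this
    rw [h7, h6, mul_zero, sub_zero] at h5
    exact h5

/-! ### The relation between the two systems -/

section rel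

variable {m r : ℕ} (M : Fin m → Matrix (Fin 3) (Fin 3) ℤ) (M' : Fin r → Matrix (Fin 3) (Fin 3) ℤ)
  (N : ℤ) (c : Fin m → Fin r → ℤ)

/-- the matrices of the first system are combinations of those of the second -/
def Rel : Prop := ∀ i p q, N * M i p q = ∑ k, c i k * M' k p q

variable {M M' N c}

theorem cq_rel (h : Rel M M' N c) {R : Type*} [CommRing R] (x : Fin 3 → R) (i : Fin m) :
    (N : R) * cq M x i = ∑ k, (c i k : R) * cq M' x k := by
  have h1 : (N : R) • (M i).map (Int.castRingHom R) =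
      ∑ k, (c i k : R) • (M' k).map (Int.castRingHom R) := by
    ext p q
    rw [Matrix.sum_apply]
    simp only [Matrix.smul_apply, Matrix.map_apply, smul_eq_mul, eq_intCast]
    exact_mod_cast congrArg (Int.cast : ℤ → R) (h i p q)
  have h2 := congrArg (qfL x) h1
  rw [map_smul, map_sum] at h2
  simp only [map_smul, smul_eq_mul] at h2
  exact h2

theorem gm_rel (h : Rel M M' N c) (t : Fin m → ℤ) :
    N • gm M t = gm M' (fun k => ∑ i, c i k * t i) := by
  ext p q
  simp only [gm, Matrix.smul_apply, smul_eq_mul, Int.cast_id]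
  simp_rw [Finset.sum_mul]
  rw [Finset.sum_comm, Finset.mul_sum]
  refine Finset.sum_congr rfl fun i _ => ?_
  rw [mul_left_comm, h i p q, Finset.mul_sum]
  refine Finset.sum_congr rfl fun k _ => ?_
  ring

theorem Bpf_rel (h : Rel M M' N c) (hN : N ≠ 0) (hB : Bpf M) : Bpf M' := by
  intro x hx
  obtain ⟨i, hi⟩ := hB x hx
  by_contra hcon
  push Not at hcon
  have h1 := cq_rel h x i
  simp only [hcon, mul_zero, sum_const_zero, mul_eq_zero, Int.cast_eq_zero] at h1
  rcases h1 with h1 | h1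
  · exact hN h1
  · exact hi h1

end rel

/-- at least three forms -/
theorem three_le {r : ℕ} (M' : Fin r → Matrix (Fin 3) (Fin 3) ℤ) (hs : ∀ i, (M' i).IsSymm)
    (hB : Bpf M') : 3 ≤ r := by
  by_contra hr
  let f : ℕ → Matrix (Fin 3) (Fin 3) ℂ := fun j =>
    if h : j < r then (M' ⟨j, h⟩).map (Int.castRingHom ℂ) else 0
  have hf : ∀ j, (f j).IsSymm := by
    intro j
    by_cases h : j < r
    · simp only [f, dif_pos h]
      exact (hs _).map _
    · simp only [f, dif_neg h]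
      exact Matrix.isSymm_zero
  obtain ⟨z, hz, h0, h1⟩ := common_zero (f 0) (f 1) (hf 0) (hf 1)
  obtain ⟨i, hi⟩ := hB z hz
  apply hi
  have h2 : cq M' z i = qf (f i) z := by
    simp only [f, dif_pos i.2, cq]
  rw [h2]
  have h3 : (i : ℕ) = 0 ∨ (i : ℕ) = 1 := by
    have := i.2
    omega
  rcases h3 with h3 | h3 <;> rw [h3]
  · exact h0
  · exact h1

/-- a common denominator -/
theorem exists_den {m r : ℕ} (q : Fin m → Fin r → ℚ) :
    ∃ (N : ℤ) (c : Fin m → Fin r → ℤ), 0 < N ∧ ∀ i k, (N : ℚ) * q i k = c i k := by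
  refine ⟨∏ p : Fin m × Fin r, ((q p.1 p.2).den : ℤ), fun i k =>
    (∏ p ∈ univ.erase (i, k), ((q p.1 p.2).den : ℤ)) * (q i k).num, ?_, fun i k => ?_⟩
  · exact prod_pos fun p _ => by exact_mod_cast (q p.1 p.2).den_pos
  · rw [← mul_prod_erase univ _ (mem_univ (i, k))]
    push_cast
    have h1 : ((q i k).den : ℚ) * q i k = (q i k).num := Rat.den_mul_eq_num (q i k)
    rw [← h1]
    ring

theorem exists_sub {n : ℕ} (M : Fin (n + 1) → Matrix (Fin 3) (Fin 3) ℤ) :
    ∃ (r : ℕ) (a : Fin r → Fin (n + 1)) (N : ℤ) (c : Fin (n + 1) → Fin r → ℤ),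
      Function.Injective a ∧ Ind (M ∘ a) ∧ 0 < N ∧ Rel M (M ∘ a) N c := by
  obtain ⟨κ, b, hb, hspan, hli⟩ := exists_linearIndependent' ℚ
    fun i => (M i).map (Int.cast : ℤ → ℚ)
  have : Finite κ := Finite.of_injective b hb
  have := Fintype.ofFinite κ
  let e := (Fintype.equivFin κ).symm
  have h1 : ∀ i, ∃ q : Fin (Fintype.card κ) → ℚ,
      ∑ k, q k • (M (b (e k))).map (Int.cast : ℤ → ℚ) = (M i).map (Int.cast : ℤ → ℚ) := by
    intro i
    rw [← Submodule.mem_span_range_iff_exists_fun]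
    have h2 : Set.range (fun k => (M (b (e k))).map (Int.cast : ℤ → ℚ)) =
        Set.range ((fun i => (M i).map (Int.cast : ℤ → ℚ)) ∘ b) :=
      e.surjective.range_comp ((fun i => (M i).map (Int.cast : ℤ → ℚ)) ∘ b)
    rw [h2, hspan]
    exact Submodule.subset_span ⟨i, rfl⟩
  choose q hq using h1
  obtain ⟨N, c, hN, hc⟩ := exists_den q
  refine ⟨Fintype.card κ, b ∘ e, N, c, hb.comp e.injective, hli.comp e e.injective, hN, ?_⟩
  intro i p p'
  have h3 := congrFun (congrFun (hq i) p) p'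
  rw [Matrix.sum_apply] at h3
  simp only [Matrix.smul_apply, Matrix.map_apply, smul_eq_mul] at h3
  have h4 : ((N * M i p p' : ℤ) : ℚ) =
      ((∑ k, c i k * (M ∘ b ∘ e) k p p' : ℤ) : ℚ) := by
    push_cast
    rw [← h3, Finset.mul_sum]
    refine Finset.sum_congr rfl fun k _ => ?_
    rw [← mul_assoc, hc]
    rfl
  exact_mod_cast h4

theorem card_le {n r : ℕ} (M : Fin (n + 1) → Matrix (Fin 3) (Fin 3) ℤ) (a : Fin r → Fin (n + 1))
    (N : ℤ) (c : Fin (n + 1) → Fin r → ℤ) (ha : Function.Injective a) (hI : Ind (M ∘ a))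
    (hN : 0 < N) (hrel : Rel M (M ∘ a) N c) :
    ∃ K : ℕ, 1 ≤ K ∧ ∀ A B : ℕ, (PP M A B).card ≤
      (PP (M ∘ a) (K * A) B).card * (2 * A + 1) ^ (n + 1 - r) := by
  classical
  refine ⟨1 + ∑ i, ∑ k, (c i k).natAbs, by omega, fun A B => ?_⟩
  set K : ℕ := 1 + ∑ i, ∑ k, (c i k).natAbs with hK
  have hcard : (Fintype.piFinset fun _ : {i // i ∉ Set.range a} =>
      Icc (-(A : ℤ)) A).card = (2 * A + 1) ^ (n + 1 - r) := by
    rw [Fintype.card_piFinset, prod_const, Int.card_Icc, card_univ]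
    have h1 : Fintype.card {i // i ∉ Set.range a} = n + 1 - r := by
      rw [Fintype.card_subtype_compl, Fintype.card_fin]
      congr 1
      have := Set.card_range_of_injective ha
      rw [Fintype.card_fin] at this
      convert this
    rw [h1]
    congr 1
    omega
  rw [← hcard, ← card_product]
  refine card_le_card_of_injOn (fun z => ((fun k => ∑ i, c i k * z.1 i, z.2),
    fun i : {i // i ∉ Set.range a} => z.1 i)) ?_ ?_
  · rintro ⟨t, y⟩ hz
    obtain ⟨h1, h2, h3, h4⟩ := mem_filter.1 hz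
    obtain ⟨h5, h6⟩ := mem_product.1 h1
    simp only at h5 h6 h2 h3 h4
    have h7 := gm_rel hrel t
    have h8 : ∀ i, t i ∈ Icc (-(A : ℤ)) A := Fintype.mem_piFinset.1 h5
    refine mem_product.2 ⟨mem_filter.2 ⟨mem_product.2 ⟨?_, h6⟩, h2, ?_, ?_⟩, ?_⟩
    · refine Fintype.mem_piFinset.2 fun k => ?_
      have h9 : |∑ i, c i k * t i| ≤ (K * A : ℕ) := by
        refine (abs_sum_le_sum_abs _ _).trans ?_
        have h10 : ∀ i, |c i k * t i| ≤ ((∑ k, (c i k).natAbs : ℕ) : ℤ) * A := by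
          intro i
          rw [abs_mul]
          refine mul_le_mul ?_ (abs_le.2 (mem_Icc.1 (h8 i))) (abs_nonneg _) (by positivity)
          rw [Int.abs_eq_natAbs]
          exact_mod_cast single_le_sum (f := fun k => (c i k).natAbs)
            (fun _ _ => Nat.zero_le _) (mem_univ k)
        refine (sum_le_sum fun i _ => h10 i).trans ?_
        rw [← Finset.sum_mul]
        push_cast [hK]
        have h11 : (0 : ℤ) ≤ A := by positivity
        nlinarith
      exact mem_Icc.2 (abs_le.1 h9)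
    · show qf (gm (M ∘ a) fun k => ∑ i, c i k * t i) y = 0
      rw [← h7]
      have h12 := (qfL y).map_smul N (gm M t)
      show qfL y (N • gm M t) = 0
      rw [h12]
      show N • qf (gm M t) y = 0
      rw [h3, smul_zero]
    · show (gm (M ∘ a) fun k => ∑ i, c i k * t i).det ≠ 0
      rw [← h7, Matrix.det_smul]
      exact mul_ne_zero (pow_ne_zero _ hN.ne') h4
    · exact Fintype.mem_piFinset.2 fun i => h8 i
  · rintro ⟨t, y⟩ - ⟨s, y'⟩ - h
    simp only [Prod.mk.injEq] at h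
    obtain ⟨⟨h1, rfl⟩, h2⟩ := h
    suffices h : t = s by rw [h]
    have h3 : ∀ i, i ∉ Set.range a → t i = s i := fun i hi => congrFun h2 ⟨i, hi⟩
    have h4 : gm M t = gm M s := by
      have h5 := gm_rel hrel t
      have h6 := gm_rel hrel s
      rw [h1, ← h6] at h5
      exact smul_right_injective _ hN.ne' h5
    have h7 : ∑ k, ((t (a k) - s (a k) : ℤ) : ℚ) • ((M ∘ a) k).map (Int.cast : ℤ → ℚ) = 0 := by
      ext p q
      rw [Matrix.sum_apply]
      simp only [Matrix.smul_apply, Matrix.map_apply, smul_eq_mul, Matrix.zero_apply,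
        Function.comp_apply]
      have h8 := congrFun (congrFun h4 p) q
      simp only [gm, Int.cast_id] at h8
      rw [← sub_eq_zero, ← Finset.sum_sub_distrib] at h8
      have h9 : ∑ k, (t (a k) - s (a k)) * M (a k) p q = 0 := by
        rw [← h8, ← Finset.sum_image (s := univ) (g := a)
          (f := fun i => (t i - s i) * M i p q) (fun x _ y _ h => ha h)]
        refine (Finset.sum_subset (subset_univ _) fun i _ hi => ?_).trans
          (Finset.sum_congr rfl fun i _ => by ring)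
        have h10 : i ∉ Set.range a := by
          rintro ⟨k, rfl⟩
          exact hi (mem_image_of_mem _ (mem_univ k))
        rw [h3 i h10]
        ring
      exact_mod_cast congrArg (Int.cast : ℤ → ℚ) h9
    have h11 := Fintype.linearIndependent_iff.1 hI _ h7
    funext i
    by_cases hi : i ∈ Set.range a
    · obtain ⟨k, rfl⟩ := hi
      have := h11 k
      rw [Int.cast_eq_zero] at this
      omega
    · exact h3 i hi

end Dep

/-- QN/DEP -/
theorem depP : S_DEP := by
  intro hbox n M hn hs hB hNd ε hε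
  obtain ⟨r, a, N, c, ha, hI, hN, hrel⟩ := Dep.exists_sub M
  have hB' := Dep.Bpf_rel hrel hN.ne' hB
  have hr := Dep.three_le (M ∘ a) (fun i => hs _) hB'
  obtain ⟨K, hK, hcard⟩ := Dep.card_le M a N c ha hI hN hrel
  obtain ⟨r', rfl⟩ : ∃ r', r = r' + 1 := ⟨r - 1, by omega⟩
  have hrn : r' ≤ n := by
    have := Fintype.card_le_of_injective a ha
    simp only [Fintype.card_fin] at this
    omega
  have hNd' : ∃ t : Fin (r' + 1) → ℤ, (gm (M ∘ a) t).det ≠ 0 := by
    obtain ⟨t, ht⟩ := hNd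
    refine ⟨fun k => ∑ i, c i k * t i, ?_⟩
    rw [← Dep.gm_rel hrel t, Matrix.det_smul]
    exact mul_ne_zero (pow_ne_zero _ hN.ne') ht
  obtain ⟨C, hC, h⟩ := hbox r' (M ∘ a) (by omega) (fun i => hs _) hB' hI hNd' ε hε
  refine ⟨3 ^ (n - r') * C * (K : ℝ) ^ r' * (K : ℝ) ^ ε, by positivity, fun A B hA hB1 => ?_⟩
  have h1 := h (K * A) B (Nat.mul_pos hK hA) hB1
  have h2 : ((PP M A B).card : ℝ) ≤ (PP (M ∘ a) (K * A) B).card * (2 * A + 1) ^ (n - r') := by
    have := hcard A B
    rw [Nat.add_sub_add_right] at this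
    exact_mod_cast this
  have hA' : (1 : ℝ) ≤ A := by exact_mod_cast hA
  have hB' : (1 : ℝ) ≤ B := by exact_mod_cast hB1
  have hK' : (1 : ℝ) ≤ K := by exact_mod_cast hK
  have h3 : (2 * (A : ℝ) + 1) ^ (n - r') ≤ (3 * A) ^ (n - r') := by
    gcongr
    linarith
  calc ((PP M A B).card : ℝ) ≤ (PP (M ∘ a) (K * A) B).card * (2 * A + 1) ^ (n - r') := h2
    _ ≤ (C * (((K * A : ℕ) : ℝ) ^ r' * B) * (((K * A : ℕ) : ℝ) * B) ^ ε) *
        (3 * A) ^ (n - r') := mul_le_mul h1 h3 (by positivity) (by positivity)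
    _ = 3 ^ (n - r') * C * (K : ℝ) ^ r' * (K : ℝ) ^ ε * ((A : ℝ) ^ n * B) *
        ((A : ℝ) * B) ^ ε := by
      push_cast
      rw [mul_assoc (K : ℝ) A B, Real.mul_rpow (by positivity) (by positivity), mul_pow,
        mul_pow, ← Nat.sub_add_cancel hrn, pow_add, Nat.add_sub_cancel]
      ring

end Pool.Agent.N852.QN
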