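import Mathlib
import Pool.Agent.N852.QN.Stm
import Pool.Agent.H548.BL.Cnt

/-!
# Project QN (helper852), part DIC (helper232): the dichotomy for one hyperplane
-/

set_option autoImplicit false

namespace Pool.Agent.N852.QN

open Matrix Finset Module
open Pool.Agent.H548.WM (ht bx mem_bx le_ht le_ht' ht_le ht_pos)
open Pool.Agent.H548.BL (rc rc_dot rc_inj norm_rc orth mem_orth finrank_orth lat mem_lat
  lat_doubling doubling)

namespace Dic_

section
variable {R : Type*} [CommRing R] {m : ℕ}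

theorem gm_add (M : Fin m → Matrix (Fin 3) (Fin 3) ℤ) (x y : Fin m → R) :
    gm M (x + y) = gm M x + gm M y := by
  ext j k
  simp only [gm, Pi.add_apply, Matrix.add_apply, add_mul, Finset.sum_add_distrib]

theorem gm_smul (M : Fin m → Matrix (Fin 3) (Fin 3) ℤ) (c : R) (x : Fin m → R) :
    gm M (c • x) = c • gm M x := by
  ext j k
  simp only [gm, Pi.smul_apply, smul_eq_mul, Matrix.smul_apply, Finset.mul_sum, mul_assoc]

theorem cubic (A B : Matrix (Fin 3) (Fin 3) R) : ∃ c1 c2 : R, ∀ t : R,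
    (A + t • B).det = A.det + c1 * t + c2 * t ^ 2 + B.det * t ^ 3 := by
  refine ⟨(B 0 0 * A 1 1 * A 2 2 - B 0 0 * A 1 2 * A 2 1 - B 0 1 * A 1 0 * A 2 2 +
      B 0 1 * A 1 2 * A 2 0 + B 0 2 * A 1 0 * A 2 1 - B 0 2 * A 1 1 * A 2 0) +
    (A 0 0 * B 1 1 * A 2 2 - A 0 0 * B 1 2 * A 2 1 - A 0 1 * B 1 0 * A 2 2 +
      A 0 1 * B 1 2 * A 2 0 + A 0 2 * B 1 0 * A 2 1 - A 0 2 * B 1 1 * A 2 0) +
    (A 0 0 * A 1 1 * B 2 2 - A 0 0 * A 1 2 * B 2 1 - A 0 1 * A 1 0 * B 2 2 +
      A 0 1 * A 1 2 * B 2 0 + A 0 2 * A 1 0 * B 2 1 - A 0 2 * A 1 1 * B 2 0),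
    (A 0 0 * B 1 1 * B 2 2 - A 0 0 * B 1 2 * B 2 1 - A 0 1 * B 1 0 * B 2 2 +
      A 0 1 * B 1 2 * B 2 0 + A 0 2 * B 1 0 * B 2 1 - A 0 2 * B 1 1 * B 2 0) +
    (B 0 0 * A 1 1 * B 2 2 - B 0 0 * A 1 2 * B 2 1 - B 0 1 * A 1 0 * B 2 2 +
      B 0 1 * A 1 2 * B 2 0 + B 0 2 * A 1 0 * B 2 1 - B 0 2 * A 1 1 * B 2 0) +
    (B 0 0 * B 1 1 * A 2 2 - B 0 0 * B 1 2 * A 2 1 - B 0 1 * B 1 0 * A 2 2 +
      B 0 1 * B 1 2 * A 2 0 + B 0 2 * B 1 0 * A 2 1 - B 0 2 * B 1 1 * A 2 0), fun t => ?_⟩
  simp only [Matrix.det_fin_three, Matrix.add_apply, Matrix.smul_apply, smul_eq_mul]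
  ring

end

section
variable {m : ℕ} (M : Fin m → Matrix (Fin 3) (Fin 3) ℤ)

/-- a cubic polynomial which vanishes at `0, 1, 2, 3` -/
theorem line_zero (a b : Fin m → ℝ) (h : ∀ k : ℕ, k ≤ 3 → (gm M (a + (k : ℝ) • b)).det = 0)
    (t : ℝ) : (gm M (a + t • b)).det = 0 := by
  obtain ⟨c1, c2, hc⟩ := cubic (gm M a) (gm M b)
  have e : ∀ t : ℝ, (gm M (a + t • b)).det =
      (gm M a).det + c1 * t + c2 * t ^ 2 + (gm M b).det * t ^ 3 := by
    intro t
    rw [gm_add, gm_smul, hc]
  have h0 := h 0 (by norm_num)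
  have h1 := h 1 (by norm_num)
  have h2 := h 2 (by norm_num)
  have h3 := h 3 le_rfl
  rw [e] at h0 h1 h2 h3 ⊢
  push_cast at h0 h1 h2 h3
  have e0 : (gm M a).det = 0 := by linarith
  have e3 : (gm M b).det = 0 := by linarith
  have e2 : c2 = 0 := by linarith
  have e1 : c1 = 0 := by linarith
  rw [e0, e1, e2, e3]
  ring

theorem span_zero {ι : Type*} [DecidableEq ι] (s : Finset ι) (v : ι → Fin m → ℝ) :
    ∀ a : Fin m → ℝ, (∀ k : ι → ℕ, (∀ i, k i ≤ 3) →
      (gm M (a + ∑ i ∈ s, (k i : ℝ) • v i)).det = 0) →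
      ∀ c : ι → ℝ, (gm M (a + ∑ i ∈ s, c i • v i)).det = 0 := by
  induction s using Finset.induction_on with
  | empty =>
    intro a h c
    have := h (fun _ => 0) (fun _ => by norm_num)
    simpa using this
  | insert i s hi ih =>
    intro a h c
    have h1 : ∀ k : ℕ, k ≤ 3 → (gm M ((a + ∑ j ∈ s, c j • v j) + (k : ℝ) • v i)).det = 0 := by
      intro k hk
      have h2 := ih (a + (k : ℝ) • v i) (fun k' hk' => by
        have h3 := h (Function.update k' i k) (fun j => by
          by_cases hj : j = i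
          · subst hj
            rw [Function.update_self]
            exact hk
          · rw [Function.update_of_ne hj]
            exact hk' j)
        rw [Finset.sum_insert hi, Function.update_self] at h3
        have e : ∑ j ∈ s, ((Function.update k' i k j : ℕ) : ℝ) • v j =
            ∑ j ∈ s, (k' j : ℝ) • v j := by
          refine Finset.sum_congr rfl fun j hj => ?_
          have hne : j ≠ i := by
            rintro rfl
            exact hi hj
          rw [Function.update_of_ne hne]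
        rw [e, ← add_assoc] at h3
        exact h3) c
      have e : (a + ∑ j ∈ s, c j • v j) + (k : ℝ) • v i =
          (a + (k : ℝ) • v i) + ∑ j ∈ s, c j • v j := by abel
      rw [e]
      exact h2
    have h4 := line_zero M (a + ∑ j ∈ s, c j • v j) (v i) h1 (c i)
    rw [Finset.sum_insert hi]
    have e : a + (c i • v i + ∑ j ∈ s, c j • v j) = (a + ∑ j ∈ s, c j • v j) + c i • v i := by abel
    rw [e]
    exact h4

theorem det_rc (x : Fin m → ℤ) : (gm M (rc x)).det = (((gm M x).det : ℤ) : ℝ) := by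
  have e : gm M (rc x) = (Int.castRingHom ℝ).mapMatrix (gm M x) := by
    ext j k
    simp [gm, rc]
  rw [e, ← RingHom.map_det]
  rfl

end

theorem mem_La {m : ℕ} {w : Fin m → ℤ} {P : ℕ} {t : Fin m → ℤ} :
    t ∈ La w P ↔ ht t ≤ P ∧ t ⬝ᵥ w = 0 := by
  unfold La
  rw [mem_filter, mem_bx]

theorem mem_Ua {m : ℕ} {M : Fin m → Matrix (Fin 3) (Fin 3) ℤ} {w : Fin m → ℤ} {P : ℕ}
    {t : Fin m → ℤ} : t ∈ Ua M w P ↔ ht t ≤ P ∧ t ⬝ᵥ w = 0 ∧ (gm M t).det ≠ 0 := by
  unfold Ua
  rw [mem_filter, mem_La, and_assoc]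

theorem ht_add {m : ℕ} (x y : Fin m → ℤ) : ht (x + y) ≤ ht x + ht y := by
  refine ht_le fun i => ?_
  have h1 := le_ht' x i
  have h2 := le_ht' y i
  have h3 := abs_add_le (x i) (y i)
  rw [Pi.add_apply]
  push_cast
  linarith

theorem ht_smul {m : ℕ} (k : ℕ) (x : Fin m → ℤ) : ht ((k : ℤ) • x) ≤ k * ht x := by
  refine ht_le fun i => ?_
  have h1 := le_ht' x i
  rw [Pi.smul_apply, smul_eq_mul, abs_mul, Nat.abs_cast]
  push_cast
  exact mul_le_mul_of_nonneg_left h1 (Int.natCast_nonneg k)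

theorem ht_sum {m : ℕ} {ι : Type*} (s : Finset ι) (f : ι → Fin m → ℤ) (B : ℕ)
    (h : ∀ i ∈ s, ht (f i) ≤ B) : ht (∑ i ∈ s, f i) ≤ s.card * B := by
  refine ht_le fun j => ?_
  rw [Finset.sum_apply]
  refine (Finset.abs_sum_le_sum_abs _ _).trans ?_
  refine (Finset.sum_le_sum (g := fun _ => (B : ℤ)) fun i hi => ?_).trans (le_of_eq ?_)
  · have h1 := le_ht' (f i) j
    have h2 : (ht (f i) : ℤ) ≤ B := by exact_mod_cast h i hi
    linarith
  · rw [Finset.sum_const, nsmul_eq_mul]
    push_cast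
    ring

/-- the doubling property of the lattice of a hyperplane -/
theorem La_doubling {n : ℕ} {w : Fin (n + 1) → ℤ} (hw : w ≠ 0) (B ρ : ℕ) (hρ : 1 ≤ ρ)
    (hB : ρ ≤ B) : ((La w B).card : ℝ) ≤ (3 * B / ρ) ^ n * ((La w ρ).card : ℝ) := by
  classical
  have hli : LinearIndependent ℤ (fun _ : Fin 1 => w) := by
    rw [linearIndependent_unique_iff]
    exact hw
  have h := lat_doubling hli B ρ hρ hB
  have e : ∀ B : ℕ, La w B = (bx (n + 1) B).filter (· ∈ lat (fun _ : Fin 1 => w)) := by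
    intro B
    unfold La
    refine Finset.filter_congr fun t _ => ?_
    rw [mem_lat]
    constructor
    · intro h _
      rw [dotProduct_comm]
      exact h
    · intro h
      rw [dotProduct_comm]
      exact h 0
  rw [e, e]
  have e2 : n + 1 - Fintype.card (Fin 1) = n := by simp
  rw [e2] at h
  convert h using 3

/-- short vectors by the pigeonhole principle -/
theorem pigeon {n : ℕ} (w : Fin (n + 1) → ℤ) (r : ℕ) :
    (r + 1) ^ (n + 1) ≤ (La w r).card * (2 * ((n + 1) * r * ht w) + 1) := by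
  classical
  set Bx : Finset (Fin (n + 1) → ℤ) := Fintype.piFinset fun _ => Finset.Icc (0 : ℤ) r with hBx
  have hBc : Bx.card = (r + 1) ^ (n + 1) := by
    rw [hBx, Fintype.card_piFinset_const]
    simp
  set T : Finset ℤ := Finset.Icc (-(((n + 1) * r * ht w : ℕ) : ℤ)) ((n + 1) * r * ht w : ℕ) with hT
  have hTc : T.card = 2 * ((n + 1) * r * ht w) + 1 := by
    rw [hT, Int.card_Icc]
    omega
  have hx : ∀ x ∈ Bx, ∀ i, 0 ≤ x i ∧ x i ≤ r := by
    intro x hx i
    rw [hBx, Fintype.mem_piFinset] at hx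
    exact Finset.mem_Icc.1 (hx i)
  rw [← hBc, ← hTc]
  refine Finset.card_le_mul_card_image_of_maps_to (f := fun x => x ⬝ᵥ w) (fun x hxB => ?_) _
    fun c _ => ?_
  · rw [hT, Finset.mem_Icc, ← abs_le]
    unfold dotProduct
    refine (Finset.abs_sum_le_sum_abs _ _).trans ?_
    refine (Finset.sum_le_sum (g := fun _ => (r : ℤ) * ht w) fun i _ => ?_).trans (le_of_eq ?_)
    · rw [abs_mul]
      have h1 := hx x hxB i
      have h2 : |x i| ≤ r := by rw [abs_of_nonneg h1.1]; exact h1.2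
      exact mul_le_mul h2 (le_ht' w i) (abs_nonneg _) (Int.natCast_nonneg r)
    · rw [Finset.sum_const, Finset.card_univ, Fintype.card_fin, nsmul_eq_mul]
      push_cast
      ring
  · rcases Finset.eq_empty_or_nonempty (Bx.filter fun x => x ⬝ᵥ w = c) with h | ⟨x0, hx0⟩
    · rw [h]
      simp
    · rw [Finset.mem_filter] at hx0
      refine Finset.card_le_card_of_injOn (fun x => x - x0) (fun x hxx => ?_) ?_
      · rw [Finset.mem_coe, Finset.mem_filter] at hxx
        rw [Finset.mem_coe, mem_La]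
        refine ⟨ht_le fun i => ?_, ?_⟩
        · have h1 := hx x hxx.1 i
          have h2 := hx x0 hx0.1 i
          show |x i - x0 i| ≤ (r : ℤ)
          rw [abs_le]
          constructor <;> linarith [h1.1, h1.2, h2.1, h2.2]
        · rw [sub_dotProduct, hxx.2, hx0.2, sub_self]
      · intro x _ y _ hxy
        exact sub_left_injective hxy

/-- case 1: adding multiples of a good vector -/
theorem shift_card {n : ℕ} {M : Fin (n + 1) → Matrix (Fin 3) (Fin 3) ℤ} {w x0 : Fin (n + 1) → ℤ}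
    (h0 : x0 ⬝ᵥ w = 0) (hd : (gm M x0).det ≠ 0) (A B : ℕ) (hA : A + 3 * ht x0 ≤ B) :
    (La w A).card ≤ 4 * (Ua M w B).card := by
  classical
  have hk : ∀ x : Fin (n + 1) → ℤ, ∃ k : ℕ, k ≤ 3 ∧ (gm M (x + (k : ℤ) • x0)).det ≠ 0 := by
    intro x
    by_contra hcon
    push Not at hcon
    obtain ⟨c1, c2, hc⟩ := cubic (gm M x) (gm M x0)
    have e : ∀ t : ℤ, (gm M (x + t • x0)).det =
        (gm M x).det + c1 * t + c2 * t ^ 2 + (gm M x0).det * t ^ 3 := by
      intro t
      rw [gm_add, gm_smul, hc]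
    have g0 := hcon 0 (by norm_num)
    have g1 := hcon 1 (by norm_num)
    have g2 := hcon 2 (by norm_num)
    have g3 := hcon 3 le_rfl
    rw [e] at g0 g1 g2 g3
    push_cast at g0 g1 g2 g3
    apply hd
    omega
  choose k hk3 hkd using hk
  rw [mul_comm]
  refine (Finset.card_le_mul_card_image_of_maps_to (s := La w A) (t := Ua M w B)
    (f := fun x => x + (k x : ℤ) • x0) (fun x hx => ?_) 4 fun y _ => ?_).trans (le_of_eq ?_)
  · rw [mem_La] at hx
    rw [mem_Ua]
    refine ⟨?_, ?_, hkd x⟩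
    · have h1 := ht_add x ((k x : ℤ) • x0)
      have h2 := ht_smul (k x) x0
      have h3 : k x * ht x0 ≤ 3 * ht x0 := Nat.mul_le_mul_right _ (hk3 x)
      omega
    · rw [add_dotProduct, smul_dotProduct, hx.2, h0, smul_zero, add_zero]
  · have h1 : (La w A).filter (fun x => x + (k x : ℤ) • x0 = y) ⊆
        (Finset.range 4).image fun k : ℕ => y - (k : ℤ) • x0 := by
      intro x hx
      rw [Finset.mem_filter] at hx
      rw [Finset.mem_image]
      refine ⟨k x, Finset.mem_range.2 (Nat.lt_succ_of_le (hk3 x)), ?_⟩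
      rw [← hx.2]
      abel
    refine (Finset.card_le_card h1).trans (Finset.card_image_le.trans ?_)
    rw [Finset.card_range]
  · ring

/-- the lattice points of a subspace -/
def sub {N : ℕ} (V : Submodule ℝ (Fin N → ℝ)) : AddSubgroup (Fin N → ℤ) where
  carrier := {v | rc v ∈ V}
  add_mem' := by
    intro a b ha hb
    have e : rc (a + b) = rc a + rc b := by
      funext i
      simp [rc]
    show rc (a + b) ∈ V
    rw [e]
    exact V.add_mem ha hb
  zero_mem' := by
    have e : rc (0 : Fin N → ℤ) = 0 := by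
      funext i
      simp [rc]
    show rc (0 : Fin N → ℤ) ∈ V
    rw [e]
    exact V.zero_mem
  neg_mem' := by
    intro a ha
    have e : rc (-a) = -rc a := by
      funext i
      simp [rc]
    show rc (-a) ∈ V
    rw [e]
    exact V.neg_mem ha

/-- few short vectors in a small subspace -/
theorem small {N b : ℕ} (V : Submodule ℝ (Fin N → ℝ)) (hV : finrank ℝ V ≤ b) (w : Fin N → ℤ)
    (r : ℕ) (hr : 1 ≤ r) (h : ∀ x ∈ La w r, rc x ∈ V) :
    ((La w r).card : ℝ) ≤ (3 * r) ^ b * 3 ^ N := by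
  classical
  have h1 := doubling (sub V) V hV (fun v hv => hv) r 1 le_rfl hr
  have h2 : ((La w r).card : ℝ) ≤ (((bx N r).filter (· ∈ sub V)).card : ℝ) := by
    have : (La w r) ⊆ (bx N r).filter (· ∈ sub V) := by
      intro x hx
      rw [Finset.mem_filter, mem_bx]
      exact ⟨(mem_La.1 hx).1, h x hx⟩
    exact_mod_cast Finset.card_le_card this
  have h3 : (((bx N 1).filter (· ∈ sub V)).card : ℝ) ≤ 3 ^ N := by
    have h3 := Finset.card_filter_le (bx N 1) (· ∈ sub V)
    have h4 := Pool.Agent.H548.WM.card_bx_le N (X := 1) le_rfl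
    have h5 : (((bx N 1).filter (· ∈ sub V)).card : ℝ) ≤ ((bx N 1).card : ℝ) := by
      exact_mod_cast h3
    calc (((bx N 1).filter (· ∈ sub V)).card : ℝ) ≤ (bx N 1).card := h5
      _ ≤ (3 * ((1 : ℕ) : ℝ)) ^ N := h4
      _ = 3 ^ N := by norm_num
  have e : (3 * (r : ℝ) / ((1 : ℕ) : ℝ)) ^ b = (3 * r) ^ b := by
    rw [Nat.cast_one, div_one]
  refine h2.trans ?_
  have h6 : (((bx N r).filter (· ∈ sub V)).card : ℝ) ≤
      (3 * r) ^ b * (((bx N 1).filter (· ∈ sub V)).card : ℝ) := by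
    rw [← e]
    convert h1 using 3
  exact h6.trans (mul_le_mul_of_nonneg_left h3 (by positivity))

end Dic_

open Dic_

theorem dicP (hH : S_HYP) : S_DIC := by
  classical
  intro n K hn hK
  obtain ⟨CH, hCH, hHyp⟩ := hH n
  obtain ⟨n', rfl⟩ : ∃ n', n = n' + 2 := ⟨n - 2, by omega⟩
  obtain ⟨C0, hC0⟩ : ∃ C0 : ℕ, C0 = 36 * (n' + 3) ^ 3 * 9 ^ (n' + 2) := ⟨_, rfl⟩
  have hC0R : (0 : ℝ) ≤ C0 := Nat.cast_nonneg _
  refine ⟨4 * 3 ^ (n' + 2) + C0 + CH * K + 1, ?_, ?_⟩
  · have h1 : (0 : ℝ) ≤ 4 * 3 ^ (n' + 2) := by positivity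
    have h2 : 0 ≤ CH * (K : ℝ) := by positivity
    linarith
  intro M w P hw hP hdv
  obtain ⟨C, hC⟩ : ∃ C : ℝ, C = 4 * 3 ^ (n' + 2) + C0 + CH * K + 1 := ⟨_, rfl⟩
  rw [← hC]
  have hCa : (4 * 3 ^ (n' + 2) : ℝ) ≤ C := by
    have h2 : 0 ≤ CH * (K : ℝ) := by positivity
    linarith
  have hCb : (C0 : ℝ) ≤ C := by
    have h1 : (0 : ℝ) ≤ 4 * 3 ^ (n' + 2) := by positivity
    have h2 : 0 ≤ CH * (K : ℝ) := by positivity
    linarith
  have hCc : CH * (K : ℝ) ≤ C := by
    have h1 : (0 : ℝ) ≤ 4 * 3 ^ (n' + 2) := by positivity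
    linarith
  have hC1 : 0 ≤ C := by linarith
  have hw1 : 1 ≤ ht w := ht_pos hw
  rcases Finset.eq_empty_or_nonempty (Ua M w P) with hE | hE
  · left
    rw [hE]
    simp only [Finset.card_empty, Nat.cast_zero, zero_mul]
    positivity
  obtain ⟨x0, hx0, hmin⟩ := Finset.exists_min_image (Ua M w P) ht hE
  obtain ⟨hx0P, hx0w, hx0d⟩ := mem_Ua.1 hx0
  obtain ⟨R, hR⟩ : ∃ R : ℕ, R = ht x0 := ⟨_, rfl⟩
  rw [← hR] at hx0P
  simp only [← hR] at hmin
  have hx00 : x0 ≠ 0 := by
    intro h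
    apply hx0d
    rw [h]
    have e : gm M (0 : Fin (n' + 2 + 1) → ℤ) = 0 := by
      ext j k
      simp [gm]
    rw [e]
    simp
  have hR1 : 1 ≤ R := by
    rw [hR]
    exact ht_pos hx00
  by_cases hcase : R ^ 2 ≤ C0 * ht w
  · -- case 1
    right
    obtain ⟨j, hj1, hj2⟩ : ∃ j : ℕ, 2 ^ j ≤ R ∧ R < 2 ^ (j + 1) :=
      ⟨Nat.log 2 R, Nat.pow_log_le_self 2 (by omega), Nat.lt_pow_succ_log_self (by norm_num) R⟩
    refine ⟨j, hj1.trans hx0P, ?_, ?_⟩
    · have h1 : (2 ^ j) ^ 2 ≤ C0 * ht w := (Nat.pow_le_pow_left hj1 2).trans hcase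
      have h2 : ((2 : ℝ) ^ j) ^ 2 ≤ C0 * ht w := by exact_mod_cast h1
      exact h2.trans (mul_le_mul_of_nonneg_right hCb (Nat.cast_nonneg _))
    · have h1 : 1 ≤ 2 ^ j := Nat.one_le_two_pow
      have h2 := La_doubling hw P (2 ^ j) h1 (hj1.trans hx0P)
      have h3 := shift_card hx0w hx0d (2 ^ j) (8 * 2 ^ j) (by
        rw [← hR]
        rw [pow_succ] at hj2
        omega)
      have h4 : ((Ua M w P).card : ℝ) ≤ ((La w P).card : ℝ) := by
        exact_mod_cast Finset.card_filter_le _ _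
      have h5 : ((La w (2 ^ j)).card : ℝ) ≤ 4 * ((Ua M w (8 * 2 ^ j)).card : ℝ) := by
        exact_mod_cast h3
      push_cast at h2
      calc ((Ua M w P).card : ℝ) ≤ (3 * P / 2 ^ j) ^ (n' + 2) * ((La w (2 ^ j)).card : ℝ) :=
            h4.trans h2
        _ ≤ (3 * P / 2 ^ j) ^ (n' + 2) * (4 * ((Ua M w (8 * 2 ^ j)).card : ℝ)) :=
            mul_le_mul_of_nonneg_left h5 (by positivity)
        _ = (4 * 3 ^ (n' + 2)) * ((P / 2 ^ j) ^ (n' + 2) * ((Ua M w (8 * 2 ^ j)).card : ℝ)) := by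
            have : (3 * P / 2 ^ j : ℝ) = 3 * (P / 2 ^ j) := by ring
            rw [this, mul_pow]
            ring
        _ ≤ C * ((P / 2 ^ j) ^ (n' + 2) * ((Ua M w (8 * 2 ^ j)).card : ℝ)) :=
            mul_le_mul_of_nonneg_right hCa (by positivity)
        _ = _ := by ring
  · -- case 2
    left
    rw [not_le] at hcase
    obtain ⟨r, hr⟩ : ∃ r : ℕ, r = (R - 1) / (3 * (n' + 3)) := ⟨_, rfl⟩
    have hRbig : 4 * (n' + 3) < R := by
      have h1 : (4 * (n' + 3)) ^ 2 ≤ C0 * ht w := by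
        calc (4 * (n' + 3)) ^ 2 = 16 * (n' + 3) ^ 2 * 1 := by ring
          _ ≤ 36 * (n' + 3) ^ 3 * 9 ^ (n' + 2) := by
              refine Nat.mul_le_mul ?_ (Nat.one_le_pow _ _ (by norm_num))
              refine Nat.mul_le_mul (by norm_num) ?_
              exact Nat.pow_le_pow_right (by omega) (by norm_num)
          _ ≤ C0 * ht w := by
              rw [hC0]
              exact Nat.le_mul_of_pos_right _ hw1
      exact lt_of_pow_lt_pow_left₀ 2 (Nat.zero_le _) (h1.trans_lt hcase)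
    have hr1 : 1 ≤ r := by
      rw [hr, Nat.one_le_div_iff (by omega)]
      omega
    have hr2 : r * (3 * (n' + 3)) ≤ R - 1 := by
      rw [hr]
      exact Nat.div_mul_le_self _ _
    have hr3 : R ≤ 6 * (n' + 3) * r := by
      have h1 : R - 1 < (r + 1) * (3 * (n' + 3)) := by
        rw [mul_comm, hr]
        exact Nat.lt_mul_div_succ _ (by omega)
      have h2 : 3 * (n' + 3) ≤ r * (3 * (n' + 3)) := Nat.le_mul_of_pos_left _ hr1
      have h3 : (r + 1) * (3 * (n' + 3)) = r * (3 * (n' + 3)) + 3 * (n' + 3) := by ring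
      have h4 : 6 * (n' + 3) * r = 2 * (r * (3 * (n' + 3))) := by ring
      rw [h3] at h1
      rw [h4]
      omega
    -- the span of the short vectors
    set S : Set (Fin (n' + 2 + 1) → ℝ) := rc '' (La w r : Set (Fin (n' + 2 + 1) → ℤ)) with hS
    set V := Submodule.span ℝ S with hV
    obtain ⟨b, hbS, hbV, hbl⟩ := exists_linearIndependent ℝ S
    have hbfin : b.Finite := hbl.setFinite
    have : Fintype b := hbfin.fintype
    have hbc : Fintype.card b ≤ n' + 3 := by
      have := hbl.fintype_card_le_finrank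
      rwa [finrank_fintype_fun_eq_card, Fintype.card_fin] at this
    have hbx : ∀ y : b, ∃ x : Fin (n' + 2 + 1) → ℤ, x ∈ La w r ∧ rc x = y.1 := by
      intro y
      obtain ⟨x, hx, hxy⟩ := hbS y.2
      exact ⟨x, hx, hxy⟩
    choose X hX hXr using hbx
    -- the determinant vanishes on the span
    have hvan : ∀ z ∈ V, (gm M z).det = 0 := by
      intro z hz
      rw [hV, ← hbV] at hz
      have hz' : z ∈ Submodule.span ℝ (Set.range fun y : b => y.1) := by
        rw [Subtype.range_coe]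
        exact hz
      obtain ⟨c, hc⟩ := (Submodule.mem_span_range_iff_exists_fun ℝ).1 hz'
      have h1 := span_zero M (Finset.univ : Finset b) (fun y => y.1) 0 (fun k hk => by
        have e : (0 : Fin (n' + 2 + 1) → ℝ) + ∑ y : b, (k y : ℝ) • y.1 =
            rc (∑ y : b, (k y : ℤ) • X y) := by
          rw [zero_add]
          funext i
          simp only [rc, Finset.sum_apply, Pi.smul_apply, smul_eq_mul]
          push_cast
          refine Finset.sum_congr rfl fun y _ => ?_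
          rw [← hXr y]
          rfl
        rw [e, det_rc]
        have h2 : (gm M (∑ y : b, (k y : ℤ) • X y)).det = 0 := by
          by_contra hne
          have h3 : ht (∑ y : b, (k y : ℤ) • X y) ≤ R - 1 := by
            refine (ht_sum _ _ (3 * r) fun y _ => ?_).trans ?_
            · refine (ht_smul _ _).trans ?_
              exact Nat.mul_le_mul (hk y) (mem_La.1 (hX y)).1
            · rw [Finset.card_univ]
              calc Fintype.card b * (3 * r) ≤ (n' + 3) * (3 * r) := Nat.mul_le_mul_right _ hbc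
                _ = r * (3 * (n' + 3)) := by ring
                _ ≤ R - 1 := hr2
          have h4 : (∑ y : b, (k y : ℤ) • X y) ⬝ᵥ w = 0 := by
            rw [sum_dotProduct]
            refine Finset.sum_eq_zero fun y _ => ?_
            rw [smul_dotProduct, (mem_La.1 (hX y)).2, smul_zero]
          have h5 := hmin _ (mem_Ua.2 ⟨h3.trans (by omega), h4, hne⟩)
          omega
        rw [h2, Int.cast_zero]) c
      rw [zero_add, hc] at h1
      exact h1
    have hx0V : rc x0 ∉ V := by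
      intro h
      have h1 := hvan _ h
      rw [det_rc] at h1
      exact hx0d (by exact_mod_cast h1)
    have hfr : Fintype.card b = finrank ℝ V := by
      rw [hV, ← hbV]
      exact (finrank_span_set_eq_card hbl).symm ▸ (Set.toFinset_card b).symm
    by_cases hsm : finrank ℝ V ≤ n'
    · -- too few short vectors
      exfalso
      have h1 := small V hsm w r hr1 (fun x hx => Submodule.subset_span ⟨x, hx, rfl⟩)
      have h2 := pigeon w r
      have h2' : ((r : ℝ) + 1) ^ (n' + 3) ≤ ((La w r).card : ℝ) *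
          (2 * ((n' + 3) * r * ht w) + 1) := by
        have : (((r + 1) ^ (n' + 2 + 1) : ℕ) : ℝ) ≤
            (((La w r).card * (2 * ((n' + 2 + 1) * r * ht w) + 1) : ℕ) : ℝ) := by
          exact_mod_cast h2
        push_cast at this
        have e : ((n' : ℝ) + 2 + 1) = n' + 3 := by ring
        rw [e] at this
        exact this
      have hrR : (1 : ℝ) ≤ r := by exact_mod_cast hr1
      have hwR : (1 : ℝ) ≤ ht w := by exact_mod_cast hw1
      have h3 : (r : ℝ) ^ (n' + 3) ≤ ((r : ℝ) + 1) ^ (n' + 3) :=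
        pow_le_pow_left₀ (by positivity) (by linarith) _
      have h4 : (2 * ((n' + 3) * r * ht w) + 1 : ℝ) ≤ 3 * ((n' + 3) * r * ht w) := by
        have h5 : (1 : ℝ) ≤ (n' + 3) * r * ht w := by
          have h6 : (1 : ℝ) ≤ (n' + 3) := by
            have : (0 : ℝ) ≤ n' := Nat.cast_nonneg _
            linarith
          calc (1 : ℝ) = 1 * 1 * 1 := by ring
            _ ≤ (n' + 3) * r * ht w := by gcongr
        linarith
      have h5 : (r : ℝ) ^ (n' + 3) ≤
          ((3 * (r : ℝ)) ^ n' * 3 ^ (n' + 2 + 1)) * (3 * ((n' + 3) * r * ht w)) :=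
        h3.trans (h2'.trans (mul_le_mul h1 h4 (by positivity) (by positivity)))
      have h6 : (r : ℝ) ^ 2 ≤ (n' + 3) * 9 ^ (n' + 2) * ht w := by
        have e1 : (r : ℝ) ^ (n' + 3) = (r : ℝ) ^ 2 * (r : ℝ) ^ (n' + 1) := by ring
        have e2 : ((3 * (r : ℝ)) ^ n' * 3 ^ (n' + 2 + 1)) * (3 * ((n' + 3) * r * ht w)) =
            ((n' + 3) * 9 ^ (n' + 2) * ht w) * (r : ℝ) ^ (n' + 1) := by
          rw [mul_pow, show (9 : ℝ) = 3 ^ 2 by norm_num, ← pow_mul]
          ring
        rw [e1, e2] at h5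
        exact le_of_mul_le_mul_right h5 (by positivity)
      have h7 : (R : ℝ) ≤ 6 * (n' + 3) * r := by exact_mod_cast hr3
      have h8 : (R : ℝ) ^ 2 ≤ C0 * ht w := by
        calc (R : ℝ) ^ 2 ≤ (6 * (n' + 3) * r) ^ 2 := pow_le_pow_left₀ (by positivity) h7 2
          _ = 36 * (n' + 3) ^ 2 * (r : ℝ) ^ 2 := by ring
          _ ≤ 36 * (n' + 3) ^ 2 * ((n' + 3) * 9 ^ (n' + 2) * ht w) :=
              mul_le_mul_of_nonneg_left h6 (by positivity)
          _ = C0 * ht w := by
              rw [hC0]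
              push_cast
              ring
      have h9 : (C0 : ℝ) * ht w < (R : ℝ) ^ 2 := by exact_mod_cast hcase
      linarith
    · -- a full set of short vectors
      rw [not_le] at hsm
      have hcb : n' + 1 ≤ Fintype.card b := by omega
      obtain ⟨e⟩ : Nonempty (Fin (n' + 1) ↪ b) :=
        Function.Embedding.nonempty_of_card_le (by rw [Fintype.card_fin]; exact hcb)
      set v : Fin (n' + 2) → Fin (n' + 2 + 1) → ℤ := Fin.cons x0 (fun i => X (e i)) with hv
      have hvl : LinearIndependent ℤ v := by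
        have h1 : LinearIndependent ℝ (fun i => rc (v i)) := by
          have e1 : (fun i => rc (v i)) = Fin.cons (rc x0) (fun i => ((e i : b) : Fin (n' + 2 + 1) → ℝ)) := by
            funext i
            refine Fin.cases ?_ (fun i => ?_) i
            · rw [hv, Fin.cons_zero, Fin.cons_zero]
            · rw [hv, Fin.cons_succ, Fin.cons_succ, hXr]
          rw [e1, linearIndependent_finCons]
          refine ⟨hbl.comp _ e.injective, fun h => hx0V ?_⟩
          refine Submodule.span_mono ?_ h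
          rintro _ ⟨i, rfl⟩
          exact hbS (e i).2
        exact (linearIndependent_algebraMap_comp_iff (R := ℤ) (S := ℝ) (v := v)).1 h1
      have h1 := hHyp w K P hw hK hP hdv v hvl (fun i => by
        refine Fin.cases ?_ (fun i => ?_) i
        · rw [hv, Fin.cons_zero]
          exact hx0w
        · rw [hv, Fin.cons_succ]
          exact (mem_La.1 (hX _)).2) (fun i => by
        refine Fin.cases ?_ (fun i => ?_) i
        · rw [hv, Fin.cons_zero, ← hR]
          exact hx0P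
        · rw [hv, Fin.cons_succ]
          have h2 := (mem_La.1 (hX (e i))).1
          have h3 : r ≤ r * (3 * (n' + 3)) := Nat.le_mul_of_pos_right r (by omega)
          omega)
      have h4 : ((Ua M w P).card : ℝ) ≤ ((La w P).card : ℝ) := by
        exact_mod_cast Finset.card_filter_le _ _
      calc ((Ua M w P).card : ℝ) * ht w ≤ ((La w P).card : ℝ) * ht w :=
            mul_le_mul_of_nonneg_right h4 (Nat.cast_nonneg _)
        _ ≤ CH * K * (P : ℝ) ^ (n' + 2) := h1
        _ ≤ C * (P : ℝ) ^ (n' + 2) := mul_le_mul_of_nonneg_right hCc (by positivity)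

end Pool.Agent.N852.QN
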