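import Pool.Agent.N852.QN.Stm

/-!
# Part EXC (worker: helper284): a nonzero polynomial divisible by all common divisors
-/

set_option autoImplicit false

namespace Pool.Agent.N852.QN.Exc

open Matrix Finset
open Pool.Agent.N852.QN

section ring

variable {R S : Type*} [CommRing R] [CommRing S]

/-- the minors of the columns `1`, `N`, `N²` -/
def DD (p q r : Fin 3 × Fin 3) (N : Matrix (Fin 3) (Fin 3) R) : R :=
  (1 : Matrix (Fin 3) (Fin 3) R) p.1 p.2 *
      (N q.1 q.2 * (N * N) r.1 r.2 - N r.1 r.2 * (N * N) q.1 q.2) -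
    N p.1 p.2 * ((1 : Matrix (Fin 3) (Fin 3) R) q.1 q.2 * (N * N) r.1 r.2 -
      (1 : Matrix (Fin 3) (Fin 3) R) r.1 r.2 * (N * N) q.1 q.2) +
    (N * N) p.1 p.2 * ((1 : Matrix (Fin 3) (Fin 3) R) q.1 q.2 * N r.1 r.2 -
      (1 : Matrix (Fin 3) (Fin 3) R) r.1 r.2 * N q.1 q.2)

lemma map_DD (f : R →+* S) (p q r : Fin 3 × Fin 3) (N : Matrix (Fin 3) (Fin 3) R) :
    f (DD p q r N) = DD p q r (N.map f) := by
  have h1 : ∀ i j, f ((1 : Matrix (Fin 3) (Fin 3) R) i j) =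
      (1 : Matrix (Fin 3) (Fin 3) S) i j := by
    intro i j
    by_cases h : i = j <;> simp [Matrix.one_apply, h]
  have h2 : ∀ i j, f ((N * N) i j) = (N.map f * N.map f) i j := by
    intro i j
    rw [← Matrix.map_mul]
    rfl
  unfold DD
  simp only [map_add, map_sub, map_mul, h1, h2, Matrix.map_apply]

/-- the second coefficient -/
def s2 (K : Matrix (Fin 3) (Fin 3) R) : R :=
  K 0 0 * K 1 1 - K 0 1 * K 1 0 + (K 0 0 * K 2 2 - K 0 2 * K 2 0) +
    (K 1 1 * K 2 2 - K 1 2 * K 2 1)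

lemma adj_eq (K : Matrix (Fin 3) (Fin 3) R) :
    K.adjugate = K * K - K.trace • K + s2 K • 1 := by
  ext i j
  rw [Matrix.adjugate_fin_three]
  fin_cases i <;> fin_cases j <;>
    simp [Matrix.mul_apply, Fin.sum_univ_three, Matrix.trace, s2] <;> ring

end ring

lemma dvd_DD (N : Matrix (Fin 3) (Fin 3) ℤ) (τ G : ℤ)
    (h : ∀ i j, G ∣ (N + τ • (1 : Matrix (Fin 3) (Fin 3) ℤ)).adjugate i j)
    (p q r : Fin 3 × Fin 3) : G ∣ DD p q r N := by
  have h2 : ∃ b c : ℤ, ∀ i j, G ∣ ((N * N) i j + b * N i j +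
      c * (1 : Matrix (Fin 3) (Fin 3) ℤ) i j) := by
    refine ⟨2 * τ - (N + τ • (1 : Matrix (Fin 3) (Fin 3) ℤ)).trace,
      τ ^ 2 - (N + τ • (1 : Matrix (Fin 3) (Fin 3) ℤ)).trace * τ +
        s2 (N + τ • (1 : Matrix (Fin 3) (Fin 3) ℤ)), fun i j => ?_⟩
    have h3 := h i j
    rw [adj_eq] at h3
    have h4 : (N + τ • (1 : Matrix (Fin 3) (Fin 3) ℤ)) * (N + τ • (1 : Matrix (Fin 3) (Fin 3) ℤ)) =
        N * N + (2 * τ) • N + (τ ^ 2) • 1 := by
      rw [add_mul, mul_add, mul_add, Matrix.mul_smul, Matrix.smul_mul, Matrix.smul_mul,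
        Matrix.mul_smul, mul_one, one_mul, mul_one]
      module
    rw [h4] at h3
    convert h3 using 1
    simp only [Matrix.add_apply, Matrix.sub_apply, Matrix.smul_apply, smul_eq_mul]
    ring
  obtain ⟨b, c, h2⟩ := h2
  obtain ⟨gp, hp⟩ := h2 p.1 p.2
  obtain ⟨gq, hq⟩ := h2 q.1 q.2
  obtain ⟨gr, hr⟩ := h2 r.1 r.2
  have ep : (N * N) p.1 p.2 = G * gp - b * N p.1 p.2 -
      c * (1 : Matrix (Fin 3) (Fin 3) ℤ) p.1 p.2 := by linear_combination hp
  have eq : (N * N) q.1 q.2 = G * gq - b * N q.1 q.2 -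
      c * (1 : Matrix (Fin 3) (Fin 3) ℤ) q.1 q.2 := by linear_combination hq
  have er : (N * N) r.1 r.2 = G * gr - b * N r.1 r.2 -
      c * (1 : Matrix (Fin 3) (Fin 3) ℤ) r.1 r.2 := by linear_combination hr
  refine ⟨(1 : Matrix (Fin 3) (Fin 3) ℤ) p.1 p.2 * (N q.1 q.2 * gr - N r.1 r.2 * gq) -
    N p.1 p.2 * ((1 : Matrix (Fin 3) (Fin 3) ℤ) q.1 q.2 * gr -
      (1 : Matrix (Fin 3) (Fin 3) ℤ) r.1 r.2 * gq) +
    gp * ((1 : Matrix (Fin 3) (Fin 3) ℤ) q.1 q.2 * N r.1 r.2 -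
      (1 : Matrix (Fin 3) (Fin 3) ℤ) r.1 r.2 * N q.1 q.2), ?_⟩
  unfold DD
  rw [ep, eq, er]
  ring

/-! ### over the rationals -/

lemma dep (N : Matrix (Fin 3) (Fin 3) ℚ) (hns : ∀ c : ℚ, N ≠ c • 1)
    (hD : ∀ p q r, DD p q r N = 0) : ∃ α β : ℚ, N * N = α • N + β • 1 := by
  have h1 : ∃ p q : Fin 3 × Fin 3, (1 : Matrix (Fin 3) (Fin 3) ℚ) p.1 p.2 * N q.1 q.2 -
      (1 : Matrix (Fin 3) (Fin 3) ℚ) q.1 q.2 * N p.1 p.2 ≠ 0 := by
    by_contra hcon
    push Not at hcon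
    apply hns (N 0 0)
    ext i j
    have := hcon (0, 0) (i, j)
    simp only [Matrix.one_apply_eq, one_mul] at this
    rw [Matrix.smul_apply, smul_eq_mul]
    linear_combination this
  obtain ⟨p, q, h1⟩ := h1
  refine ⟨((1 : Matrix (Fin 3) (Fin 3) ℚ) p.1 p.2 * (N * N) q.1 q.2 -
      (N * N) p.1 p.2 * (1 : Matrix (Fin 3) (Fin 3) ℚ) q.1 q.2) /
      ((1 : Matrix (Fin 3) (Fin 3) ℚ) p.1 p.2 * N q.1 q.2 -
      (1 : Matrix (Fin 3) (Fin 3) ℚ) q.1 q.2 * N p.1 p.2),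
    ((N * N) p.1 p.2 * N q.1 q.2 - N p.1 p.2 * (N * N) q.1 q.2) /
      ((1 : Matrix (Fin 3) (Fin 3) ℚ) p.1 p.2 * N q.1 q.2 -
      (1 : Matrix (Fin 3) (Fin 3) ℚ) q.1 q.2 * N p.1 p.2), ?_⟩
  ext i j
  have h2 := hD p q (i, j)
  unfold DD at h2
  simp only at h2
  rw [Matrix.add_apply, Matrix.smul_apply, Matrix.smul_apply, smul_eq_mul, smul_eq_mul]
  generalize (1 : Matrix (Fin 3) (Fin 3) ℚ) p.1 p.2 = a1 at *
  generalize (1 : Matrix (Fin 3) (Fin 3) ℚ) q.1 q.2 = a2 at *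
  generalize (1 : Matrix (Fin 3) (Fin 3) ℚ) i j = a3 at *
  generalize (N * N) p.1 p.2 = b1 at *
  generalize (N * N) q.1 q.2 = b2 at *
  generalize (N * N) i j = b3 at *
  generalize N p.1 p.2 = c1 at *
  generalize N q.1 q.2 = c2 at *
  generalize N i j = c3 at *
  field_simp
  linear_combination h2

lemma rank1 (N : Matrix (Fin 3) (Fin 3) ℚ) (hns : ∀ c : ℚ, N ≠ c • 1) (α β : ℚ)
    (h : N * N = α • N + β • 1) : ∃ μ : ℚ, (N - μ • 1).adjugate = 0 := by
  refine ⟨N.trace - α, ?_⟩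
  obtain ⟨μ, hμ⟩ : ∃ μ, μ = N.trace - α := ⟨_, rfl⟩
  rw [← hμ]
  obtain ⟨K, hK⟩ : ∃ K, K = N - μ • (1 : Matrix (Fin 3) (Fin 3) ℚ) := ⟨_, rfl⟩
  rw [← hK]
  have htr : K.trace = α - 2 * μ := by
    rw [hK, Matrix.trace_sub, Matrix.trace_smul, Matrix.trace_one, Fintype.card_fin, smul_eq_mul]
    push_cast
    linear_combination -hμ
  have h2 : K * K = K.trace • K + (α * μ - μ ^ 2 + β) • 1 := by
    have h4 : (N - μ • (1 : Matrix (Fin 3) (Fin 3) ℚ)) * (N - μ • (1 : Matrix (Fin 3) (Fin 3) ℚ)) =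
        N * N - (2 * μ) • N + (μ ^ 2) • 1 := by
      rw [sub_mul, mul_sub, mul_sub, Matrix.mul_smul, Matrix.smul_mul, Matrix.smul_mul,
        Matrix.mul_smul, mul_one, one_mul, mul_one]
      module
    rw [htr, hK, h4, h]
    module
  have h3 : K.adjugate = (s2 K + (α * μ - μ ^ 2 + β)) • (1 : Matrix (Fin 3) (Fin 3) ℚ) := by
    rw [adj_eq, h2]
    module
  have h5 : 2 * s2 K = K.trace ^ 2 - (K * K).trace := by
    simp [Matrix.trace, Matrix.mul_apply, Fin.sum_univ_three, s2]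
    ring
  have h6 : (K * K).trace = K.trace ^ 2 + 3 * (α * μ - μ ^ 2 + β) := by
    rw [h2, Matrix.trace_add, Matrix.trace_smul, Matrix.trace_smul, Matrix.trace_one,
      Fintype.card_fin, smul_eq_mul, smul_eq_mul]
    push_cast
    ring
  have h7 := K.mul_adjugate
  rw [h3, Matrix.mul_smul, mul_one] at h7
  have h8 : s2 K + (α * μ - μ ^ 2 + β) = 0 := by
    by_contra hne
    apply hns (K.det / (s2 K + (α * μ - μ ^ 2 + β)) + μ)
    have h9 : K = (K.det / (s2 K + (α * μ - μ ^ 2 + β))) • (1 : Matrix (Fin 3) (Fin 3) ℚ) := by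
      rw [div_eq_inv_mul, mul_smul, ← h7, smul_smul, inv_mul_cancel₀ hne, one_smul]
    rw [add_smul, ← h9, hK]
    abel
  rw [h3, h8, zero_smul]

lemma vv (S : Matrix (Fin 3) (Fin 3) ℚ) (hs : S.IsSymm) (ha : S.adjugate = 0) :
    ∃ (k : ℚ) (v : Fin 3 → ℚ), ∀ i j, S i j = k * (v i * v j) := by
  have hsy : ∀ i j, S i j = S j i := fun i j => by
    have := congrFun (congrFun hs j) i
    exact this
  have hm : ∀ i j k l, S i j * S k l = S i l * S k j := by
    rw [Matrix.adjugate_fin_three] at ha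
    have e00 := congrFun (congrFun ha 0) 0
    have e01 := congrFun (congrFun ha 0) 1
    have e02 := congrFun (congrFun ha 0) 2
    have e10 := congrFun (congrFun ha 1) 0
    have e11 := congrFun (congrFun ha 1) 1
    have e12 := congrFun (congrFun ha 1) 2
    have e20 := congrFun (congrFun ha 2) 0
    have e21 := congrFun (congrFun ha 2) 1
    have e22 := congrFun (congrFun ha 2) 2
    simp at e00 e01 e02 e10 e11 e12 e20 e21 e22
    intro i j k l
    fin_cases i <;> fin_cases j <;> fin_cases k <;> fin_cases l <;> simp <;> linarith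
  by_cases h : ∃ i, S i i ≠ 0
  · obtain ⟨i, hi⟩ := h
    refine ⟨1 / S i i, fun j => S j i, fun j l => ?_⟩
    have h1 := hm j l i i
    rw [hsy i l] at h1
    field_simp
    linear_combination h1
  · push Not at h
    refine ⟨0, 0, fun i j => ?_⟩
    have h1 := hm i i j j
    rw [h i, h j, hsy j i] at h1
    rw [zero_mul]
    have h2 : S i j * S i j = 0 := by linear_combination -h1
    exact mul_self_eq_zero.1 h2

/-- the vector product -/
def zz (v w : Fin 3 → ℚ) : Fin 3 → ℚ :=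
  ![v 1 * w 2 - v 2 * w 1, v 2 * w 0 - v 0 * w 2, v 0 * w 1 - v 1 * w 0]

lemma g1 (E : Matrix (Fin 3) (Fin 3) ℚ) (hE : E.det ≠ 0) (v w u : Fin 3 → ℚ) (k l lam m : ℚ)
    (hk : k ≠ 0) (hl : l ≠ 0) (hz : zz v w ≠ 0)
    (h : ∀ i j, k * (v i * v j) + l * (w i * w j) = lam * E i j + m * (u i * u j)) :
    lam ≠ 0 ∧ ∃ c : ℚ, ∀ i j, k * (v i * v j) + l * (w i * w j) =
      lam * E i j + c * ((E *ᵥ zz v w) i * (E *ᵥ zz v w) j) := by
  have hlam : lam ≠ 0 := by
    intro h0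
    rw [h0] at h
    apply hz
    have hkl : k * l ≠ 0 := mul_ne_zero hk hl
    have key : ∀ i j, k * l * (v i * w j - v j * w i) ^ 2 = 0 := by
      intro i j
      have e1 : k * l * (v i * w j - v j * w i) ^ 2 =
          (k * (v i * v i) + l * (w i * w i)) * (k * (v j * v j) + l * (w j * w j)) -
          (k * (v i * v j) + l * (w i * w j)) ^ 2 := by ring
      rw [e1, h i i, h j j, h i j]
      ring
    have key2 : ∀ i j, v i * w j - v j * w i = 0 := fun i j => by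
      have := key i j
      rcases mul_eq_zero.1 this with h1 | h1
      · exact absurd h1 hkl
      · exact pow_eq_zero_iff (two_ne_zero) |>.1 h1
    funext i
    unfold zz
    fin_cases i
    · exact key2 1 2
    · exact key2 2 0
    · exact key2 0 1
  refine ⟨hlam, ?_⟩
  have he : E *ᵥ zz v w ≠ 0 := by
    intro h0
    exact hE (Matrix.exists_mulVec_eq_zero_iff.1 ⟨_, hz, h0⟩)
  have h1 : ∀ i, lam * (E *ᵥ zz v w) i + m * (u ⬝ᵥ zz v w) * u i = 0 := by
    intro i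
    have e1 : ∑ j, (k * (v i * v j) + l * (w i * w j)) * zz v w j = 0 := by
      simp [Fin.sum_univ_three, zz]
      ring
    have e2 : ∑ j, (lam * E i j + m * (u i * u j)) * zz v w j = 0 := by
      rw [← e1]
      exact Finset.sum_congr rfl fun j _ => by rw [h]
    rw [← e2]
    simp only [Matrix.mulVec, dotProduct, Fin.sum_univ_three]
    ring
  obtain ⟨f, hf⟩ : ∃ f, f = -(m * (u ⬝ᵥ zz v w)) / lam := ⟨_, rfl⟩
  have h2 : ∀ i, (E *ᵥ zz v w) i = f * u i := by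
    intro i
    rw [hf]
    field_simp
    linear_combination h1 i
  have hf0 : f ≠ 0 := by
    intro h0
    apply he
    funext i
    rw [h2, h0, zero_mul]
    rfl
  refine ⟨m / f ^ 2, fun i j => ?_⟩
  rw [h, h2, h2]
  field_simp

lemma g2 (E : Matrix (Fin 3) (Fin 3) ℚ) (hE : E.det ≠ 0) (v e : Fin 3 → ℚ) (s a b : ℚ)
    (h : ∀ i j, s * E i j = a * (v i * v j) + b * (e i * e j)) : s = 0 := by
  have h1 : s • E = Matrix.of fun i j => a * (v i * v j) + b * (e i * e j) := by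
    ext i j
    rw [Matrix.of_apply, ← h]
    rfl
  have h2 : (s • E).det = 0 := by
    rw [h1, Matrix.det_fin_three]
    simp only [Matrix.of_apply]
    ring
  rw [Matrix.det_smul] at h2
  rcases mul_eq_zero.1 h2 with h3 | h3
  · exact pow_eq_zero_iff (by simp) |>.1 h3
  · exact absurd h3 hE

lemma core (E M₁ M₂ : Matrix (Fin 3) (Fin 3) ℚ) (hE : E.det ≠ 0) (sE : E.IsSymm)
    (s1 : M₁.IsSymm) (s2 : M₂.IsSymm)
    (hi : ∀ a b c : ℚ, a • E + b • M₁ + c • M₂ = 0 → b = 0 ∧ c = 0)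
    (h : ∀ a b : ℚ, (a ≠ 0 ∨ b ≠ 0) → ∃ μ : ℚ, (a • M₁ + b • M₂ - μ • E).adjugate = 0) :
    False := by
  have hsy : ∀ a b μ : ℚ, (a • M₁ + b • M₂ - μ • E).IsSymm := fun a b μ =>
    ((s1.smul a).add (s2.smul b)).sub (sE.smul μ)
  have hh : ∀ a b : ℚ, (a ≠ 0 ∨ b ≠ 0) → ∃ (μ k : ℚ) (v : Fin 3 → ℚ),
      ∀ i j, a * M₁ i j + b * M₂ i j = μ * E i j + k * (v i * v j) := by
    intro a b hab
    obtain ⟨μ, hμ⟩ := h a b hab
    obtain ⟨k, v, hkv⟩ := vv _ (hsy a b μ) hμ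
    refine ⟨μ, k, v, fun i j => ?_⟩
    have := hkv i j
    simp only [Matrix.sub_apply, Matrix.add_apply, Matrix.smul_apply, smul_eq_mul] at this
    linear_combination this
  obtain ⟨μ1, k, v, h1⟩ := hh 1 0 (Or.inl one_ne_zero)
  obtain ⟨μ2, l, w, h2⟩ := hh 0 1 (Or.inr one_ne_zero)
  obtain ⟨μ3, m, u, h3⟩ := hh 1 1 (Or.inl one_ne_zero)
  obtain ⟨μ4, m', u', h4⟩ := hh 1 (-1) (Or.inl one_ne_zero)
  have hv : ∃ p, k * v p ≠ 0 := by
    by_contra hcon
    push Not at hcon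
    refine one_ne_zero (hi (-μ1) 1 0 ?_).1
    ext i j
    simp only [Matrix.add_apply, Matrix.smul_apply, smul_eq_mul, Matrix.zero_apply]
    linear_combination h1 i j + v j * hcon i
  have hl : l ≠ 0 := by
    intro h0
    refine one_ne_zero (hi (-μ2) 0 1 ?_).2
    ext i j
    simp only [Matrix.add_apply, Matrix.smul_apply, smul_eq_mul, Matrix.zero_apply]
    linear_combination h2 i j + (w i * w j) * h0
  obtain ⟨p, hp⟩ := hv
  have hk : k ≠ 0 := left_ne_zero_of_mul hp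
  have hvp : v p ≠ 0 := right_ne_zero_of_mul hp
  have hz : zz v w ≠ 0 := by
    intro h0
    have e0 := congrFun h0 0
    have e1 := congrFun h0 1
    have e2 := congrFun h0 2
    simp [zz] at e0 e1 e2
    have key : ∀ i j, v i * w j = v j * w i := by
      intro i j
      fin_cases i <;> fin_cases j <;> simp <;> linarith
    have hc := (hi (-(k * v p ^ 2 * μ2) + l * w p ^ 2 * μ1) (-(l * w p ^ 2)) (k * v p ^ 2) ?_).2
    · exact mul_ne_zero hk (pow_ne_zero 2 hvp) hc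
    · ext i j
      simp only [Matrix.add_apply, Matrix.smul_apply, smul_eq_mul, Matrix.zero_apply]
      have a1 := key p i
      have a2 := key p j
      linear_combination k * v p ^ 2 * h2 i j - l * w p ^ 2 * h1 i j +
        k * l * (v p * w j) * a1 + k * l * (v i * w p) * a2
  have f1 : ∀ i j, k * (v i * v j) + l * (w i * w j) =
      (μ3 - μ1 - μ2) * E i j + m * (u i * u j) := by
    intro i j
    linear_combination h3 i j - h1 i j - h2 i j
  have f2 : ∀ i j, k * (v i * v j) + (-l) * (w i * w j) =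
      (μ4 - μ1 + μ2) * E i j + m' * (u' i * u' j) := by
    intro i j
    linear_combination h4 i j - h1 i j + h2 i j
  obtain ⟨n1, c, g1'⟩ := g1 E hE v w u k l _ m hk hl hz f1
  obtain ⟨n2, c', g2'⟩ := g1 E hE v w u' k (-l) _ m' hk (neg_ne_zero.2 hl) hz f2
  have r1 := g2 E hE v (E *ᵥ zz v w) ((μ3 - μ1 - μ2) + (μ4 - μ1 + μ2)) (2 * k) (-(c + c'))
    (fun i j => by linear_combination -g1' i j - g2' i j)
  have r2 := g2 E hE w (E *ᵥ zz v w) ((μ3 - μ1 - μ2) - (μ4 - μ1 + μ2)) (2 * l) (-(c - c'))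
    (fun i j => by linear_combination -g1' i j + g2' i j)
  apply n1
  linarith

/-! ### the theorem -/

/-- the matrix of the remaining parameters -/
def bm {n : ℕ} {R : Type*} [CommRing R] (M : Fin (n + 1) → Matrix (Fin 3) (Fin 3) ℤ)
    (x : Fin n → R) : Matrix (Fin 3) (Fin 3) R :=
  Matrix.of fun j k => ∑ i, x i * (M i.succ j k : R)

/-- `adj(E) B(x)` -/
def nm {n : ℕ} {R : Type*} [CommRing R] (M : Fin (n + 1) → Matrix (Fin 3) (Fin 3) ℤ)
    (x : Fin n → R) : Matrix (Fin 3) (Fin 3) R :=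
  ((M 0).map (Int.cast : ℤ → R)).adjugate * bm M x

lemma map_nm {n : ℕ} {R S : Type*} [CommRing R] [CommRing S] (f : R →+* S)
    (M : Fin (n + 1) → Matrix (Fin 3) (Fin 3) ℤ) (x : Fin n → R) :
    (nm M x).map f = nm M fun i => f (x i) := by
  unfold nm
  rw [Matrix.map_mul]
  congr 1
  · have h1 : ((M 0).map (Int.cast : ℤ → R)).adjugate.map f =
        (((M 0).map (Int.cast : ℤ → R)).map f).adjugate := by
      have := f.map_adjugate ((M 0).map (Int.cast : ℤ → R))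
      exact this
    rw [h1]
    congr 1
    ext i j
    simp
  · ext i j
    simp [bm, map_sum]

lemma gm_cons {n : ℕ} (M : Fin (n + 1) → Matrix (Fin 3) (Fin 3) ℤ) (x : Fin n → ℤ) (t : ℤ) :
    gm M (Fin.cons t x : Fin (n + 1) → ℤ) = t • M 0 + bm M x := by
  ext i j
  unfold gm bm
  rw [Fin.sum_univ_succ, Matrix.add_apply, Matrix.smul_apply, Matrix.of_apply, smul_eq_mul]
  simp

end Pool.Agent.N852.QN.Exc

namespace Pool.Agent.N852.QN

open Matrix Finset Exc

/-- **EXC** -/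
theorem excP : S_EXC := by
  intro n M hn hs hI hd
  -- divisibility
  have hdiv : ∀ (p q r : Fin 3 × Fin 3) (x : Fin n → ℤ) (t G : ℤ),
      (∀ i j, G ∣ (gm M (Fin.cons t x : Fin (n + 1) → ℤ)).adjugate i j) →
      G ∣ MvPolynomial.eval x (DD p q r (nm M fun i => (MvPolynomial.X i : MvPolynomial (Fin n) ℤ))) := by
    intro p q r x t G h
    rw [map_DD, map_nm]
    have e1 : (fun i => MvPolynomial.eval x (MvPolynomial.X i : MvPolynomial (Fin n) ℤ)) = x := by
      funext i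
      simp
    rw [e1]
    apply dvd_DD _ (t * (M 0).det)
    have e2 : nm M x + (t * (M 0).det) • (1 : Matrix (Fin 3) (Fin 3) ℤ) =
        (M 0).adjugate * gm M (Fin.cons t x : Fin (n + 1) → ℤ) := by
      rw [gm_cons, mul_add, Matrix.mul_smul, Matrix.adjugate_mul, smul_smul, add_comm]
      congr 1
    intro i j
    rw [e2, Matrix.adjugate_mul_distrib, Matrix.mul_apply]
    exact Finset.dvd_sum fun k _ => Dvd.dvd.mul_right (h i k) _
  by_contra hcon
  push Not at hcon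
  have hz : ∀ (p q r : Fin 3 × Fin 3),
      DD p q r (nm M fun i => (MvPolynomial.X i : MvPolynomial (Fin n) ℤ)) = 0 := by
    intro p q r
    by_contra hne
    obtain ⟨x, t, G, h1, h2⟩ := hcon _ hne
    exact h2 (hdiv p q r x t G h1)
  have hz2 : ∀ (p q r : Fin 3 × Fin 3) (x : Fin n → ℚ), DD p q r (nm M x) = 0 := by
    intro p q r x
    have h1 := congrArg (MvPolynomial.eval₂Hom (Int.castRingHom ℚ) x) (hz p q r)
    rw [map_DD, map_nm, map_zero] at h1
    have e1 : (fun i => MvPolynomial.eval₂Hom (Int.castRingHom ℚ) x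
        (MvPolynomial.X i : MvPolynomial (Fin n) ℤ)) = x := by
      funext i
      simp
    rwa [e1] at h1
  obtain ⟨i₁, hi₁⟩ : ∃ i : Fin n, i.1 = 0 := ⟨⟨0, by omega⟩, rfl⟩
  obtain ⟨i₂, hi₂⟩ : ∃ i : Fin n, i.1 = 1 := ⟨⟨1, by omega⟩, rfl⟩
  have hne : i₁ ≠ i₂ := fun h => by
    rw [h, hi₂] at hi₁
    exact one_ne_zero hi₁
  obtain ⟨Q, hQ⟩ : ∃ Q : Fin (n + 1) → Matrix (Fin 3) (Fin 3) ℚ,
      Q = fun i => (M i).map (Int.cast : ℤ → ℚ) := ⟨_, rfl⟩
  have hQs : ∀ i, (Q i).IsSymm := by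
    intro i
    rw [hQ]
    exact (hs i).map _
  have hQd : (Q 0).det ≠ 0 := by
    have h1 : (Q 0).det = ((M 0).det : ℚ) := by
      rw [hQ]
      have := (Int.castRingHom ℚ).map_det (M 0)
      exact this.symm
    rw [h1]
    exact_mod_cast hd
  have hQi : ∀ a b c : ℚ, a • Q 0 + b • Q i₁.succ + c • Q i₂.succ = 0 → a = 0 ∧ b = 0 ∧ c = 0 := by
    intro a b c h
    unfold Ind at hI
    rw [← hQ, Fintype.linearIndependent_iff] at hI
    have h1 := hI (Fin.cons a (Pi.single i₁ b + Pi.single i₂ c)) (by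
      rw [Fin.sum_univ_succ]
      simp only [Fin.cons_zero, Fin.cons_succ, Pi.add_apply, add_smul, Finset.sum_add_distrib,
        Pi.single_apply, ite_smul, zero_smul, Finset.sum_ite_eq', Finset.mem_univ, if_true]
      rw [← add_assoc]
      exact h)
    have e0 := h1 0
    have e1 := h1 i₁.succ
    have e2 := h1 i₂.succ
    rw [Fin.cons_zero] at e0
    rw [Fin.cons_succ, Pi.add_apply, Pi.single_eq_same, Pi.single_eq_of_ne hne, add_zero] at e1
    rw [Fin.cons_succ, Pi.add_apply, Pi.single_eq_same, Pi.single_eq_of_ne hne.symm, zero_add] at e2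
    exact ⟨e0, e1, e2⟩
  refine core (Q 0) (Q i₁.succ) (Q i₂.succ) hQd (hQs _) (hQs _) (hQs _)
    (fun a b c h => (hQi a b c h).2) ?_
  intro a b hab
  obtain ⟨x, hx⟩ : ∃ x : Fin n → ℚ, x = Pi.single i₁ a + Pi.single i₂ b := ⟨_, rfl⟩
  have hB : bm M x = a • Q i₁.succ + b • Q i₂.succ := by
    ext i j
    rw [hx, hQ]
    simp only [bm, Matrix.of_apply, Matrix.add_apply, Matrix.smul_apply, smul_eq_mul, Pi.add_apply,
      add_mul, Finset.sum_add_distrib, Pi.single_apply, ite_mul, zero_mul, Finset.sum_ite_eq',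
      Finset.mem_univ, if_true, Matrix.map_apply]
  have hN : nm M x = (Q 0).adjugate * (a • Q i₁.succ + b • Q i₂.succ) := by
    unfold nm
    rw [hB, hQ]
  have hns : ∀ c : ℚ, nm M x ≠ c • 1 := by
    intro c hc
    rw [hN] at hc
    have h1 : Q 0 * ((Q 0).adjugate * (a • Q i₁.succ + b • Q i₂.succ)) = Q 0 * (c • 1) := by
      rw [hc]
    rw [← mul_assoc, Matrix.mul_adjugate, Matrix.mul_smul, mul_one, Matrix.smul_mul, one_mul] at h1
    have h2 := hQi (-c) ((Q 0).det * a) ((Q 0).det * b) (by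
      rw [mul_smul, mul_smul, add_assoc, ← smul_add, h1, neg_smul, neg_add_cancel])
    rcases hab with h3 | h3
    · exact mul_ne_zero hQd h3 h2.2.1
    · exact mul_ne_zero hQd h3 h2.2.2
  obtain ⟨α, β, h1⟩ := dep _ hns fun p q r => hz2 p q r x
  obtain ⟨μ, h2⟩ := rank1 _ hns α β h1
  refine ⟨μ / (Q 0).det, ?_⟩
  have h3 : Q 0 * (nm M x - μ • 1) =
      (Q 0).det • (a • Q i₁.succ + b • Q i₂.succ - (μ / (Q 0).det) • Q 0) := by
    rw [hN, mul_sub, ← mul_assoc, Matrix.mul_adjugate, Matrix.mul_smul, mul_one, Matrix.smul_mul,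
      one_mul, smul_sub, smul_smul, mul_div_cancel₀ _ hQd]
  have h4 := congrArg Matrix.adjugate h3
  rw [Matrix.adjugate_mul_distrib, h2, zero_mul, Matrix.adjugate_smul] at h4
  exact (smul_eq_zero.1 h4.symm).resolve_left (pow_ne_zero _ hQd)

end Pool.Agent.N852.QN
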