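import Pool.Agent.N852.QN.Stm

/-!
# Project QN, part GEO (helper693): consequences of smoothness
-/

set_option autoImplicit false

namespace Pool.Agent.N852.QN

open Matrix Finset

namespace GEO

theorem qf_expand {R : Type*} [CommRing R] (B : Matrix (Fin 3) (Fin 3) R) (hB : B.IsSymm)
    (x : Fin 3 → R) : qf B x = B 0 0 * x 0 ^ 2 + B 1 1 * x 1 ^ 2 + B 2 2 * x 2 ^ 2 +
      2 * B 0 1 * x 0 * x 1 + 2 * B 0 2 * x 0 * x 2 + 2 * B 1 2 * x 1 * x 2 := by
  have h1 : B 1 0 = B 0 1 := hB.apply 0 1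
  have h2 : B 2 0 = B 0 2 := hB.apply 0 2
  have h3 : B 2 1 = B 1 2 := hB.apply 1 2
  simp only [qf, dotProduct, mulVec, Fin.sum_univ_three, h1, h2, h3]
  ring

theorem cq_cast {m : ℕ} (M : Fin m → Matrix (Fin 3) (Fin 3) ℤ) (v : Fin 3 → ℤ) (i : Fin m) :
    cq M (fun k => ((v k : ℤ) : ℂ)) i = ((qf (M i) v : ℤ) : ℂ) := by
  simp only [cq, qf, dotProduct, mulVec, Fin.sum_univ_three, Matrix.map_apply,
    Int.coe_castRingHom]
  push_cast
  ring

theorem gm_symm {m : ℕ} {R : Type*} [CommRing R] (M : Fin m → Matrix (Fin 3) (Fin 3) ℤ)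
    (hM : ∀ i, (M i).IsSymm) (t : Fin m → R) : (gm M t).IsSymm := by
  ext j k
  rw [Matrix.transpose_apply]
  unfold gm
  exact Finset.sum_congr rfl fun i _ => by rw [(hM i).apply]

theorem gm_add {m : ℕ} (M : Fin m → Matrix (Fin 3) (Fin 3) ℤ) (t : Fin m → ℤ) (i : Fin m) (e : ℤ)
    (j k : Fin 3) : gm M (t + Pi.single i e) j k = gm M t j k + e * M i j k := by
  unfold gm
  simp only [Pi.add_apply, add_mul, Finset.sum_add_distrib, Int.cast_id]
  congr 1
  rw [Finset.sum_eq_single i]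
  · rw [Pi.single_eq_same]
  · intro b _ hb
    rw [Pi.single_eq_of_ne hb, zero_mul]
  · intro h
    exact absurd (Finset.mem_univ i) h

/-- (1) there are no common zeros -/
theorem bpf {m : ℕ} (M : Fin m → Matrix (Fin 3) (Fin 3) ℤ) (hm : 3 ≤ m) (hS : Smooth M) :
    Bpf M := by
  intro x hx
  by_contra hcon
  push Not at hcon
  let L : (Fin m → ℂ) →ₗ[ℂ] (Fin 3 → ℂ) :=
    { toFun := fun t => (gm M t).mulVec x
      map_add' := by
        intro s t
        funext j
        simp only [gm, mulVec, dotProduct, Pi.add_apply, add_mul, Finset.sum_add_distrib]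
      map_smul' := by
        intro a t
        funext j
        simp only [gm, mulVec, dotProduct, Pi.smul_apply, smul_eq_mul, RingHom.id_apply,
          Finset.mul_sum, Finset.sum_mul]
        refine Finset.sum_congr rfl fun k _ => Finset.sum_congr rfl fun i _ => ?_
        ring }
  have hL : ∀ t, x ⬝ᵥ L t = ∑ i, t i * cq M x i := by
    intro t
    change x ⬝ᵥ (gm M t).mulVec x = _
    simp only [cq, qf, gm, mulVec, dotProduct, Fin.sum_univ_three, Matrix.map_apply,
      Int.coe_castRingHom, Finset.sum_mul, Finset.mul_sum, ← Finset.sum_add_distrib]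
    refine Finset.sum_congr rfl fun i _ => ?_
    ring
  have hL0 : ∀ t, x ⬝ᵥ L t = 0 := by
    intro t
    rw [hL t]
    exact Finset.sum_eq_zero fun i _ => by rw [hcon i, mul_zero]
  obtain ⟨j, hj⟩ : ∃ j, x j ≠ 0 := by
    by_contra h
    push Not at h
    exact hx (funext h)
  by_cases hinj : Function.Injective L
  · have h1 : Module.finrank ℂ (Fin m → ℂ) ≤ Module.finrank ℂ (Fin 3 → ℂ) :=
      LinearMap.finrank_le_finrank_of_injective hinj
    rw [Module.finrank_fin_fun, Module.finrank_fin_fun] at h1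
    have h2 : Module.finrank ℂ (Fin m → ℂ) = Module.finrank ℂ (Fin 3 → ℂ) := by
      rw [Module.finrank_fin_fun, Module.finrank_fin_fun]
      omega
    have h3 := (LinearMap.injective_iff_surjective_of_finrank_eq_finrank h2).1 hinj
    obtain ⟨t, ht⟩ := h3 (Pi.single j 1)
    have h4 := hL0 t
    rw [ht, dotProduct_single, mul_one] at h4
    exact hj h4
  · have h1 : LinearMap.ker L ≠ ⊥ := fun h => hinj (LinearMap.ker_eq_bot.1 h)
    obtain ⟨t, ht, ht0⟩ := (Submodule.ne_bot_iff _).1 h1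
    have ht' : (gm M t).mulVec x = 0 := ht
    have hq : qf (gm M t) x = 0 := by
      unfold qf
      rw [ht', dotProduct_zero]
    rcases hS t x ht0 hx hq with ⟨i, hi⟩ | ⟨k, hk⟩
    · exact hi (hcon i)
    · exact hk (by rw [ht']; rfl)

/-- a nonzero integer common zero is impossible -/
theorem no_zero {m : ℕ} {M : Fin m → Matrix (Fin 3) (Fin 3) ℤ} (hB : Bpf M) (v : Fin 3 → ℤ)
    (hv : v ≠ 0) (h : ∀ i, qf (M i) v = 0) : False := by
  have h1 : (fun k => ((v k : ℤ) : ℂ)) ≠ 0 := by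
    intro h0
    apply hv
    funext k
    have := congrFun h0 k
    simpa using this
  obtain ⟨i, hi⟩ := hB _ h1
  rw [cq_cast, h i] at hi
  exact hi (by simp)

/-- the coefficient of `e` in the determinant of `A + e B` -/
theorem coef {m : ℕ} {M : Fin m → Matrix (Fin 3) (Fin 3) ℤ} (hM : ∀ i, (M i).IsSymm)
    (h : ∀ t : Fin m → ℤ, (gm M t).det = 0) (t : Fin m → ℤ) (i : Fin m) :
    (gm M t 1 1 * gm M t 2 2 - gm M t 1 2 ^ 2) * M i 0 0 +
    (gm M t 0 0 * gm M t 2 2 - gm M t 0 2 ^ 2) * M i 1 1 +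
    (gm M t 0 0 * gm M t 1 1 - gm M t 0 1 ^ 2) * M i 2 2 +
    2 * (gm M t 0 2 * gm M t 1 2 - gm M t 0 1 * gm M t 2 2) * M i 0 1 +
    2 * (gm M t 0 1 * gm M t 1 2 - gm M t 0 2 * gm M t 1 1) * M i 0 2 +
    2 * (gm M t 0 1 * gm M t 0 2 - gm M t 0 0 * gm M t 1 2) * M i 1 2 = 0 := by
  have hA := gm_symm M hM t
  have a1 : gm M t 1 0 = gm M t 0 1 := hA.apply 0 1
  have a2 : gm M t 2 0 = gm M t 0 2 := hA.apply 0 2
  have a3 : gm M t 2 1 = gm M t 1 2 := hA.apply 1 2
  have b1 : M i 1 0 = M i 0 1 := (hM i).apply 0 1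
  have b2 : M i 2 0 = M i 0 2 := (hM i).apply 0 2
  have b3 : M i 2 1 = M i 1 2 := (hM i).apply 1 2
  have h0 := h t
  have h1 := h (t + Pi.single i 1)
  have h2 := h (t + Pi.single i (-1))
  have h3 := h (t + Pi.single i 2)
  rw [Matrix.det_fin_three] at h0 h1 h2 h3
  simp only [gm_add, a1, a2, a3, b1, b2, b3] at h0 h1 h2 h3
  refine (mul_eq_zero.1 (?_ : (6 : ℤ) * _ = 0)).resolve_left (by norm_num)
  linear_combination 6 * h1 - 2 * h2 - h3 - 3 * h0

/-- case a: a column of the adjugate is a common zero -/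
theorem caseA {R : Type*} [CommRing R] (a b c d e f a' b' c' d' e' f' : R)
    (hdet : a * d * f + 2 * b * c * e - a * e ^ 2 - d * c ^ 2 - f * b ^ 2 = 0)
    (hc : (d * f - e ^ 2) * a' + (a * f - c ^ 2) * d' + (a * d - b ^ 2) * f' +
      2 * (c * e - b * f) * b' + 2 * (b * e - c * d) * c' + 2 * (b * c - a * e) * e' = 0) :
    (a' * (d * f - e ^ 2) ^ 2 + d' * (c * e - b * f) ^ 2 + f' * (b * e - c * d) ^ 2 +
      2 * b' * (d * f - e ^ 2) * (c * e - b * f) + 2 * c' * (d * f - e ^ 2) * (b * e - c * d) +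
      2 * e' * (c * e - b * f) * (b * e - c * d) = 0) ∧
    (a' * (c * e - b * f) ^ 2 + d' * (a * f - c ^ 2) ^ 2 + f' * (b * c - a * e) ^ 2 +
      2 * b' * (c * e - b * f) * (a * f - c ^ 2) + 2 * c' * (c * e - b * f) * (b * c - a * e) +
      2 * e' * (a * f - c ^ 2) * (b * c - a * e) = 0) ∧
    (a' * (b * e - c * d) ^ 2 + d' * (b * c - a * e) ^ 2 + f' * (a * d - b ^ 2) ^ 2 +
      2 * b' * (b * e - c * d) * (b * c - a * e) + 2 * c' * (b * e - c * d) * (a * d - b ^ 2) +
      2 * e' * (b * c - a * e) * (a * d - b ^ 2) = 0) := by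
  refine ⟨?_, ?_, ?_⟩
  · linear_combination (d * f - e ^ 2) * hc - (f * d' + d * f' - 2 * e * e') * hdet
  · linear_combination (a * f - c ^ 2) * hc - (f * a' + a * f' - 2 * c * c') * hdet
  · linear_combination (a * d - b ^ 2) * hc - (d * a' + a * d' - 2 * b * b') * hdet

/-- (2) some conic is smooth -/
theorem nd {m : ℕ} {M : Fin m → Matrix (Fin 3) (Fin 3) ℤ} (hM : ∀ i, (M i).IsSymm)
    (hB : Bpf M) : ∃ t : Fin m → ℤ, (gm M t).det ≠ 0 := by
  by_contra hcon
  push Not at hcon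
  have hdet : ∀ t : Fin m → ℤ, gm M t 0 0 * gm M t 1 1 * gm M t 2 2 +
      2 * gm M t 0 1 * gm M t 0 2 * gm M t 1 2 - gm M t 0 0 * gm M t 1 2 ^ 2 -
      gm M t 1 1 * gm M t 0 2 ^ 2 - gm M t 2 2 * gm M t 0 1 ^ 2 = 0 := by
    intro t
    have h0 := hcon t
    have hA := gm_symm M hM t
    have a1 : gm M t 1 0 = gm M t 0 1 := hA.apply 0 1
    have a2 : gm M t 2 0 = gm M t 0 2 := hA.apply 0 2
    have a3 : gm M t 2 1 = gm M t 1 2 := hA.apply 1 2
    rw [Matrix.det_fin_three, a1, a2, a3] at h0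
    linear_combination h0
  -- the principal minors vanish
  have hmin : ∀ t : Fin m → ℤ, gm M t 1 1 * gm M t 2 2 - gm M t 1 2 ^ 2 = 0 ∧
      gm M t 0 0 * gm M t 2 2 - gm M t 0 2 ^ 2 = 0 ∧
      gm M t 0 0 * gm M t 1 1 - gm M t 0 1 ^ 2 = 0 := by
    intro t
    have hc := fun i => caseA _ _ _ _ _ _ _ _ _ _ _ _ (hdet t) (coef hM hcon t i)
    refine ⟨?_, ?_, ?_⟩
    · by_contra hne
      refine no_zero hB ![gm M t 1 1 * gm M t 2 2 - gm M t 1 2 ^ 2,
        gm M t 0 2 * gm M t 1 2 - gm M t 0 1 * gm M t 2 2,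
        gm M t 0 1 * gm M t 1 2 - gm M t 0 2 * gm M t 1 1] ?_ ?_
      · intro h
        exact hne (by simpa using congrFun h 0)
      · intro i
        rw [qf_expand _ (hM i)]
        have h1 := (hc i).1
        simp only [Matrix.cons_val_zero, Matrix.cons_val_one, Matrix.cons_val]
        exact h1
    · by_contra hne
      refine no_zero hB ![gm M t 0 2 * gm M t 1 2 - gm M t 0 1 * gm M t 2 2,
        gm M t 0 0 * gm M t 2 2 - gm M t 0 2 ^ 2,
        gm M t 0 1 * gm M t 0 2 - gm M t 0 0 * gm M t 1 2] ?_ ?_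
      · intro h
        exact hne (by simpa using congrFun h 1)
      · intro i
        rw [qf_expand _ (hM i)]
        have h1 := (hc i).2.1
        simp only [Matrix.cons_val_zero, Matrix.cons_val_one, Matrix.cons_val]
        exact h1
    · by_contra hne
      refine no_zero hB ![gm M t 0 1 * gm M t 1 2 - gm M t 0 2 * gm M t 1 1,
        gm M t 0 1 * gm M t 0 2 - gm M t 0 0 * gm M t 1 2,
        gm M t 0 0 * gm M t 1 1 - gm M t 0 1 ^ 2] ?_ ?_
      · intro h
        exact hne (by simpa using congrFun h 2)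
      · intro i
        rw [qf_expand _ (hM i)]
        have h1 := (hc i).2.2
        simp only [Matrix.cons_val_zero, Matrix.cons_val_one, Matrix.cons_val]
        exact h1
  -- the bilinear parts
  have hbil : ∀ (t : Fin m → ℤ) (i : Fin m),
      (gm M t 0 0 * M i 1 1 + M i 0 0 * gm M t 1 1 - 2 * gm M t 0 1 * M i 0 1 = 0) ∧
      (gm M t 0 0 * M i 2 2 + M i 0 0 * gm M t 2 2 - 2 * gm M t 0 2 * M i 0 2 = 0) := by
    intro t i
    have h1 := hmin (t + Pi.single i 1)
    have h2 := hmin (t + Pi.single i (-1))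
    simp only [gm_add] at h1 h2
    constructor
    · refine (mul_eq_zero.1 (?_ : (2 : ℤ) * _ = 0)).resolve_left (by norm_num)
      linear_combination h1.2.2 - h2.2.2
    · refine (mul_eq_zero.1 (?_ : (2 : ℤ) * _ = 0)).resolve_left (by norm_num)
      linear_combination h1.2.1 - h2.2.1
  -- the diagonal entries vanish
  have hdiag : ∀ t : Fin m → ℤ, gm M t 0 0 = 0 ∧ gm M t 1 1 = 0 ∧ gm M t 2 2 = 0 := by
    intro t
    obtain ⟨m1, m2, m3⟩ := hmin t
    refine ⟨?_, ?_, ?_⟩
    · by_contra hne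
      refine no_zero hB ![-gm M t 0 1, gm M t 0 0, 0] ?_ ?_
      · intro h
        exact hne (by simpa using congrFun h 1)
      · intro i
        rw [qf_expand _ (hM i)]
        simp only [Matrix.cons_val_zero, Matrix.cons_val_one, Matrix.cons_val]
        linear_combination gm M t 0 0 * (hbil t i).1 - M i 0 0 * m3
    · by_contra hne
      refine no_zero hB ![gm M t 1 1, -gm M t 0 1, 0] ?_ ?_
      · intro h
        exact hne (by simpa using congrFun h 0)
      · intro i
        rw [qf_expand _ (hM i)]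
        simp only [Matrix.cons_val_zero, Matrix.cons_val_one, Matrix.cons_val]
        linear_combination gm M t 1 1 * (hbil t i).1 - M i 1 1 * m3
    · by_contra hne
      refine no_zero hB ![gm M t 2 2, 0, -gm M t 0 2] ?_ ?_
      · intro h
        exact hne (by simpa using congrFun h 0)
      · intro i
        rw [qf_expand _ (hM i)]
        simp only [Matrix.cons_val_zero, Matrix.cons_val_one, Matrix.cons_val]
        linear_combination gm M t 2 2 * (hbil t i).2 - M i 2 2 * m2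
  -- all entries of `M i` vanish
  have hM0 : ∀ i, M i 0 0 = 0 := by
    intro i
    have h1 := (hdiag (0 + Pi.single i 1)).1
    have h2 := (hdiag 0).1
    rw [gm_add, h2] at h1
    simpa using h1
  refine no_zero hB ![1, 0, 0] ?_ ?_
  · intro h
    simpa using congrFun h 0
  · intro i
    rw [qf_expand _ (hM i), hM0 i]
    simp

/-- any conic has a complex point -/
theorem exists_pt (A : Matrix (Fin 3) (Fin 3) ℂ) : ∃ x : Fin 3 → ℂ, x ≠ 0 ∧ qf A x = 0 := by
  by_cases h0 : A 0 0 = 0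
  · refine ⟨![1, 0, 0], ?_, ?_⟩
    · intro h
      simpa using congrFun h 0
    · simp [qf, dotProduct, mulVec, Fin.sum_univ_three, h0]
  · obtain ⟨s, hs⟩ := IsAlgClosed.exists_eq_mul_self
      ((A 0 1 + A 1 0) ^ 2 - 4 * A 0 0 * A 1 1)
    refine ⟨![(-(A 0 1 + A 1 0) + s) / (2 * A 0 0), 1, 0], ?_, ?_⟩
    · intro h
      simpa using congrFun h 1
    · simp only [qf, dotProduct, mulVec, Fin.sum_univ_three, Matrix.cons_val_zero,
        Matrix.cons_val_one, Matrix.cons_val]
      field_simp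
      linear_combination -hs

theorem gm_cast {m : ℕ} (M : Fin m → Matrix (Fin 3) (Fin 3) ℤ) (t : Fin m → ℤ) :
    gm M (fun i => ((t i : ℤ) : ℂ)) = (gm M t).map (Int.castRingHom ℂ) := by
  ext j k
  simp only [gm, Matrix.map_apply, Int.coe_castRingHom]
  push_cast
  rfl

end GEO

open GEO in
/-- Part GEO. -/
theorem geoP : S_GEO := by
  intro m M hm hM hS
  have h1 := bpf M hm hS
  obtain ⟨t, ht⟩ := nd hM h1
  refine ⟨h1, ⟨t, ht⟩, ?_⟩
  obtain ⟨x, hx0, hx⟩ := exists_pt (gm M (fun i => ((t i : ℤ) : ℂ)))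
  have hd : (gm M (fun i => ((t i : ℤ) : ℂ))).det ≠ 0 := by
    rw [gm_cast]
    have h2 := RingHom.map_det (Int.castRingHom ℂ) (gm M t)
    rw [RingHom.mapMatrix_apply] at h2
    rw [← h2]
    simpa using ht
  refine ⟨fun i => ((t i : ℤ) : ℂ), x, ?_, hx0, hx, hd⟩
  intro h0
  apply hd
  rw [h0]
  have h3 : gm M (0 : Fin m → ℂ) = 0 := by
    ext j k
    simp [gm]
  rw [h3]
  exact Matrix.det_zero

end Pool.Agent.N852.QN
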