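import Pool.Agent.N852.QN.Stm

/-!
# QN/HYP: points of a hyperplane lattice with a full set of short vectors (helper755)
-/

set_option autoImplicit false

namespace Pool.Agent.N852.QN

open Matrix Finset
open Pool.Agent.H548.WM (ht bx Rep mem_bx le_ht' ht_le exists_ht card_bx)

/-- rational vectors from integer vectors -/
def hypCast (m : ℕ) : (Fin m → ℤ) →ₗ[ℤ] (Fin m → ℚ) where
  toFun x i := (x i : ℚ)
  map_add' x y := by
    ext i
    simp
  map_smul' c x := by
    ext i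
    simp

theorem hypCast_apply {m : ℕ} (x : Fin m → ℤ) (i : Fin m) : hypCast m x i = (x i : ℚ) := rfl

theorem hypCast_inj (m : ℕ) : Function.Injective (hypCast m) := by
  intro x y h
  ext i
  have := congrFun h i
  rw [hypCast_apply, hypCast_apply] at this
  exact_mod_cast this

theorem hypCast_dot {m : ℕ} (x y : Fin m → ℤ) :
    hypCast m x ⬝ᵥ hypCast m y = ((x ⬝ᵥ y : ℤ) : ℚ) := by
  unfold dotProduct
  push_cast
  rfl

theorem hyp_decomp {n : ℕ} (w : Fin (n + 1) → ℤ) (hw : w ≠ 0) (v : Fin n → Fin (n + 1) → ℤ)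
    (hv : LinearIndependent ℤ v) (hvw : ∀ i, v i ⬝ᵥ w = 0) (z : Fin (n + 1) → ℚ)
    (hz : z ⬝ᵥ hypCast (n + 1) w = 0) :
    ∃ c : Fin n → ℚ, z = ∑ j, c j • hypCast (n + 1) (v j) := by
  have h1 : LinearIndependent ℤ (fun j => hypCast (n + 1) (v j)) :=
    hv.map' (hypCast (n + 1)) (LinearMap.ker_eq_bot.2 (hypCast_inj _))
  have h2 : LinearIndependent ℚ (fun j => hypCast (n + 1) (v j)) :=
    (LinearIndependent.iff_fractionRing ℤ ℚ).1 h1
  let f : (Fin (n + 1) → ℚ) →ₗ[ℚ] ℚ :=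
    { toFun := fun x => x ⬝ᵥ hypCast (n + 1) w
      map_add' := fun x y => add_dotProduct x y _
      map_smul' := fun c x => smul_dotProduct c x _ }
  have hf : ∀ x, f x = x ⬝ᵥ hypCast (n + 1) w := fun _ => rfl
  have hww : hypCast (n + 1) w ⬝ᵥ hypCast (n + 1) w ≠ 0 := by
    intro h
    rw [dotProduct_self_eq_zero] at h
    apply hw
    apply hypCast_inj
    rw [h, map_zero]
  have hfv : ∀ j, f (hypCast (n + 1) (v j)) = 0 := by
    intro j
    rw [hf, hypCast_dot, hvw j, Int.cast_zero]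
  have hw0 : hypCast (n + 1) w ∉ Submodule.span ℚ (Set.range fun j => hypCast (n + 1) (v j)) := by
    intro h
    have h3 : Submodule.span ℚ (Set.range fun j => hypCast (n + 1) (v j)) ≤ LinearMap.ker f := by
      rw [Submodule.span_le]
      rintro _ ⟨j, rfl⟩
      exact hfv j
    exact hww (h3 h)
  have h3 : LinearIndependent ℚ
      (Fin.cons (hypCast (n + 1) w) (fun j => hypCast (n + 1) (v j)) :
        Fin (n + 1) → (Fin (n + 1) → ℚ)) := linearIndependent_finCons.2 ⟨h2, hw0⟩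
  have h4 := h3.span_eq_top_of_card_eq_finrank' (by simp)
  have h5 : z ∈ Submodule.span ℚ (Set.range (Fin.cons (hypCast (n + 1) w)
      (fun j => hypCast (n + 1) (v j)) : Fin (n + 1) → (Fin (n + 1) → ℚ))) := by
    rw [h4]
    exact Submodule.mem_top
  obtain ⟨c, hc⟩ := (Submodule.mem_span_range_iff_exists_fun ℚ).1 h5
  rw [Fin.sum_univ_succ] at hc
  simp only [Fin.cons_zero, Fin.cons_succ] at hc
  have h6 : f z = 0 := hz
  rw [← hc, map_add, map_smul, map_sum] at h6
  have h7 : ∑ i : Fin n, f (c i.succ • hypCast (n + 1) (v i)) = 0 := by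
    refine Finset.sum_eq_zero fun i _ => ?_
    rw [map_smul, hfv, smul_zero]
  rw [h7, add_zero, smul_eq_mul] at h6
  have h8 : c 0 = 0 := by
    rcases mul_eq_zero.1 h6 with h | h
    · exact h
    · exact absurd h hww
  refine ⟨fun j => c j.succ, ?_⟩
  rw [← hc, h8, zero_smul, zero_add]

/-- integer vectors of bounded height with given product with `w` -/
theorem hyp_vec {n : ℕ} (w z : Fin (n + 1) → ℤ) (hw : w ≠ 0) (v : Fin n → Fin (n + 1) → ℤ)
    (hv : LinearIndependent ℤ v) (hvw : ∀ i, v i ⬝ᵥ w = 0) (P : ℕ) (hP : ∀ i, ht (v i) ≤ P)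
    (hz : |z ⬝ᵥ w| ≤ P * ht w) :
    ∃ y : Fin (n + 1) → ℤ, y ⬝ᵥ w = z ⬝ᵥ w ∧ ht y ≤ (n + 1) * P := by
  classical
  obtain ⟨i₀, hi₀⟩ := exists_ht (Nat.succ_pos n) w
  have hwi : w i₀ ≠ 0 := by
    intro h
    apply hw
    rw [h, abs_zero] at hi₀
    ext i
    have := le_ht' w i
    rw [← hi₀] at this
    exact abs_nonpos_iff.1 this
  have hwi' : (w i₀ : ℚ) ≠ 0 := by exact_mod_cast hwi
  obtain ⟨q, hq⟩ : ∃ q : ℚ, q = ((z ⬝ᵥ w : ℤ) : ℚ) / w i₀ := ⟨_, rfl⟩
  have hqP : |q| ≤ P := by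
    rw [hq, abs_div, div_le_iff₀ (abs_pos.2 hwi')]
    have h1 : |(w i₀ : ℚ)| = ht w := by exact_mod_cast hi₀
    rw [h1]
    exact_mod_cast hz
  obtain ⟨c, hc⟩ := hyp_decomp w hw v hv hvw (hypCast (n + 1) z - Pi.single i₀ q) (by
    rw [sub_dotProduct, hypCast_dot, single_dotProduct, hypCast_apply, hq]
    field_simp
    ring)
  refine ⟨z - ∑ j, ⌊c j⌋ • v j, ?_, ?_⟩
  · rw [sub_dotProduct, sum_dotProduct]
    have : ∑ j, (⌊c j⌋ • v j) ⬝ᵥ w = 0 := by
      refine Finset.sum_eq_zero fun j _ => ?_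
      rw [smul_dotProduct, hvw j, smul_zero]
    rw [this, sub_zero]
  · refine ht_le fun i => ?_
    have h1 : ((z i - (∑ j, ⌊c j⌋ • v j) i : ℤ) : ℚ) =
        (Pi.single i₀ q : Fin (n + 1) → ℚ) i + ∑ j, Int.fract (c j) * (v j i : ℚ) := by
      have h2 := congrFun hc i
      rw [Pi.sub_apply, hypCast_apply, Finset.sum_apply] at h2
      simp only [Pi.smul_apply, hypCast_apply, smul_eq_mul] at h2
      rw [Finset.sum_apply]
      push_cast
      simp only [Pi.smul_apply, smul_eq_mul]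
      push_cast
      have h3 : ∑ j, Int.fract (c j) * (v j i : ℚ) =
          ∑ j, c j * (v j i : ℚ) - ∑ j, (⌊c j⌋ : ℚ) * (v j i : ℚ) := by
        rw [← Finset.sum_sub_distrib]
        refine Finset.sum_congr rfl fun j _ => ?_
        rw [← Int.self_sub_floor]
        ring
      rw [h3, ← h2]
      ring
    have h4 : |(Pi.single i₀ q : Fin (n + 1) → ℚ) i| ≤ P := by
      by_cases h : i = i₀
      · subst h
        rw [Pi.single_eq_same]
        exact hqP
      · rw [Pi.single_eq_of_ne h, abs_zero]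
        positivity
    have h5 : |∑ j, Int.fract (c j) * (v j i : ℚ)| ≤ n * P := by
      refine (Finset.abs_sum_le_sum_abs _ _).trans ?_
      have : ∀ j ∈ (univ : Finset (Fin n)), |Int.fract (c j) * (v j i : ℚ)| ≤ (P : ℚ) := by
        intro j _
        rw [abs_mul, abs_of_nonneg (Int.fract_nonneg _)]
        have h6 : |(v j i : ℚ)| ≤ P := by
          have h7 : |v j i| ≤ (P : ℤ) := (le_ht' (v j) i).trans (by exact_mod_cast hP j)
          exact_mod_cast h7
        calc Int.fract (c j) * |(v j i : ℚ)| ≤ 1 * |(v j i : ℚ)| :=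
              mul_le_mul_of_nonneg_right (Int.fract_lt_one _).le (abs_nonneg _)
          _ ≤ P := by rw [one_mul]; exact h6
      refine (Finset.sum_le_card_nsmul _ _ _ this).trans (le_of_eq ?_)
      rw [Finset.card_univ, Fintype.card_fin, nsmul_eq_mul]
    have h8 : |((z i - (∑ j, ⌊c j⌋ • v j) i : ℤ) : ℚ)| ≤ (n + 1) * P := by
      rw [h1]
      refine (abs_add_le _ _).trans ?_
      linarith
    rw [Pi.sub_apply]
    have h9 : ((|z i - (∑ j, ⌊c j⌋ • v j) i| : ℤ) : ℚ) ≤ (((n + 1) * P : ℕ) : ℤ) := by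
      push_cast
      push_cast at h8
      exact h8
    exact_mod_cast h9

theorem hypP : S_HYP := by
  classical
  intro n
  refine ⟨(2 * n + 5) ^ (n + 1), by positivity, ?_⟩
  intro w K P hw hK hP hd v hv hvw hvP
  -- the greatest common divisor
  obtain ⟨g, hg⟩ : ∃ g : ℤ, g = (univ : Finset (Fin (n + 1))).gcd w := ⟨_, rfl⟩
  have hgd : ∀ i, g ∣ w i := fun i => by rw [hg]; exact Finset.gcd_dvd (mem_univ i)
  have hg0 : g ≠ 0 := by
    intro h
    apply hw
    ext i
    have := hgd i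
    rw [h, zero_dvd_iff] at this
    exact this
  have hgn : 0 ≤ g := by
    have h1 : normalize g = g := by rw [hg]; exact Finset.normalize_gcd
    rw [← h1, ← Int.abs_eq_normalize]
    exact abs_nonneg g
  obtain ⟨z₀, hz₀⟩ : ∃ z₀ : Fin (n + 1) → ℤ, z₀ ⬝ᵥ w = g := by
    obtain ⟨y, hy⟩ := Finset.gcd_eq_sum_mul (univ : Finset (Fin (n + 1))) w
    refine ⟨y, ?_⟩
    rw [hg, hy]
    unfold dotProduct
    exact Finset.sum_congr rfl fun i _ => by ring
  have hg1 : 1 ≤ g := by omega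
  have hgK : g ≤ K := Int.le_of_dvd (by exact_mod_cast hK) (hd g hgd)
  obtain ⟨H, hH⟩ : ∃ H : ℕ, H = ht w := ⟨_, rfl⟩
  obtain ⟨G, hG⟩ : ∃ G : ℕ, (G : ℤ) = g := ⟨g.toNat, Int.toNat_of_nonneg hgn⟩
  have hG1 : 1 ≤ G := by omega
  have hGK : G ≤ K := by
    rw [← hG] at hgK
    exact_mod_cast hgK
  obtain ⟨N, hN⟩ : ∃ N : ℕ, N = P * H / G := ⟨_, rfl⟩
  -- the vectors
  have hvec : ∀ k : ℤ, ∃ y : Fin (n + 1) → ℤ, k ∈ Icc (-(N : ℤ)) N →
      y ⬝ᵥ w = k * g ∧ ht y ≤ (n + 1) * P := by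
    intro k
    by_cases hk : k ∈ Icc (-(N : ℤ)) N
    · have hk' : |k| ≤ N := abs_le.2 (mem_Icc.1 hk)
      obtain ⟨y, hy1, hy2⟩ := hyp_vec w (k • z₀) hw v hv hvw P hvP (by
        rw [smul_dotProduct, hz₀, smul_eq_mul, abs_mul, abs_of_nonneg hgn, ← hH, ← hG]
        have h1 : N * G ≤ P * H := by rw [hN]; exact Nat.div_mul_le_self _ _
        calc |k| * (G : ℤ) ≤ N * G := mul_le_mul_of_nonneg_right hk' (by positivity)
          _ ≤ P * H := by exact_mod_cast h1)
      refine ⟨y, fun _ => ⟨?_, hy2⟩⟩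
      rw [hy1, smul_dotProduct, hz₀, smul_eq_mul]
    · exact ⟨0, fun h => absurd h hk⟩
  choose y hy using hvec
  have hcard : (La w P).card * (2 * N + 1) ≤ (2 * ((n + 2) * P) + 1) ^ (n + 1) := by
    have h1 : (La w P).card * (2 * N + 1) = (La w P ×ˢ Icc (-(N : ℤ)) N).card := by
      rw [card_product, Int.card_Icc]
      congr 1
      omega
    rw [h1, ← card_bx]
    refine Finset.card_le_card_of_injOn (fun x : (Fin (n + 1) → ℤ) × ℤ => x.1 + y x.2) ?_ ?_
    · rintro ⟨t, k⟩ hx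
      simp only [coe_product, Set.mem_prod, mem_coe] at hx
      obtain ⟨ht1, hk⟩ := hx
      unfold La at ht1
      rw [mem_filter, mem_bx] at ht1
      rw [mem_coe, mem_bx]
      refine ht_le fun i => ?_
      have h2 := (le_ht' t i).trans (show ((ht t : ℕ) : ℤ) ≤ P by exact_mod_cast ht1.1)
      have h3 := (le_ht' (y k) i).trans (show ((ht (y k) : ℕ) : ℤ) ≤ ((n + 1) * P : ℕ) by
        exact_mod_cast (hy k hk).2)
      have h4 := abs_add_le (t i) (y k i)
      show |t i + y k i| ≤ (((n + 2) * P : ℕ) : ℤ)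
      push_cast at h3 ⊢
      linarith
    · rintro ⟨t, k⟩ hx ⟨t', k'⟩ hx' heq
      simp only [coe_product, Set.mem_prod, mem_coe] at hx hx' heq
      obtain ⟨ht1, hk⟩ := hx
      obtain ⟨ht1', hk'⟩ := hx'
      unfold La at ht1 ht1'
      rw [mem_filter] at ht1 ht1'
      have h2 : (t + y k) ⬝ᵥ w = (t' + y k') ⬝ᵥ w := by rw [heq]
      rw [add_dotProduct, add_dotProduct, ht1.2, ht1'.2, zero_add, zero_add, (hy k hk).1,
        (hy k' hk').1] at h2
      have h3 : k = k' := mul_right_cancel₀ hg0 h2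
      subst h3
      have h4 : t = t' := add_right_cancel heq
      rw [h4]
  have hPH : P * H ≤ G * (2 * N + 1) := by
    have h1 : P * H < G * (N + 1) := by
      rw [hN]
      have := Nat.lt_mul_div_succ (P * H) (show 0 < G by omega)
      exact this
    nlinarith
  have hP1 : 2 * ((n + 2) * P) + 1 ≤ (2 * n + 5) * P := by nlinarith
  have h1 : (La w P).card * H * P ≤ K * ((2 * n + 5) * P) ^ (n + 1) := by
    calc (La w P).card * H * P = (La w P).card * (P * H) := by ring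
      _ ≤ (La w P).card * (G * (2 * N + 1)) := Nat.mul_le_mul_left _ hPH
      _ = G * ((La w P).card * (2 * N + 1)) := by ring
      _ ≤ K * ((2 * n + 5) * P) ^ (n + 1) :=
          Nat.mul_le_mul hGK (hcard.trans (Nat.pow_le_pow_left hP1 _))
  have h2 : (La w P).card * H * P ≤ ((2 * n + 5) ^ (n + 1) * K * P ^ n) * P := by
    refine h1.trans (le_of_eq ?_)
    rw [mul_pow, pow_succ P n]
    ring
  have h3 : (La w P).card * H ≤ (2 * n + 5) ^ (n + 1) * K * P ^ n :=
    Nat.le_of_mul_le_mul_right h2 (by omega)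
  rw [← hH]
  exact_mod_cast h3

end Pool.Agent.N852.QN
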