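import Pool.Agent.N852.QN.Stm
import Pool.Agent.R38.NC.Sum

/-!
# Project QN: the sum of the weights over a line (helper300)
-/

set_option autoImplicit false

namespace Pool.Agent.N852.QN

open Matrix Finset

namespace LinAux

/-- the determinant on the line -/
noncomputable def lf (B E : Matrix (Fin 3) (Fin 3) ℤ) : Polynomial ℤ :=
  ((Polynomial.X : Polynomial ℤ) • E.map Polynomial.C + B.map Polynomial.C).det

theorem lf_eval (B E : Matrix (Fin 3) (Fin 3) ℤ) (t : ℤ) : (lf B E).eval t = (B + t • E).det := by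
  unfold lf
  rw [← Polynomial.coe_evalRingHom, RingHom.map_det]
  congr 1
  ext i j
  simp [-zsmul_eq_mul]
  ring

theorem lf_deg {B E : Matrix (Fin 3) (Fin 3) ℤ} (hE : E.det ≠ 0) : (lf B E).natDegree = 3 := by
  apply le_antisymm
  · exact Polynomial.natDegree_det_X_add_C_le E B
  · apply Polynomial.le_natDegree_of_ne_zero
    have h := Polynomial.coeff_det_X_add_C_card E B
    rw [Fintype.card_fin] at h
    unfold lf
    rwa [h]

/-- the roots -/
theorem exists_roots (f : Polynomial ℤ) (hd : f.natDegree = 3) : ∃ a b c : ℂ, ∀ n : ℤ,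
    ‖(n : ℂ) - a‖ * ‖(n : ℂ) - b‖ * ‖(n : ℂ) - c‖ ≤ ((f.eval n).natAbs : ℝ) := by
  set g := f.map (Int.castRingHom ℂ) with hg
  have hgd : g.natDegree = 3 := by
    rw [hg, Polynomial.natDegree_map_eq_of_injective (RingHom.injective_int _)]
    exact hd
  have hs : g.Splits := IsAlgClosed.splits g
  have hcard : g.roots.card = 3 := by rw [← hs.natDegree_eq_card_roots, hgd]
  obtain ⟨a, b, c, habc⟩ := Multiset.card_eq_three.1 hcard
  have hprod := hs.eq_prod_roots
  rw [habc] at hprod
  have hlead : 1 ≤ ‖g.leadingCoeff‖ := by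
    have h1 : g.leadingCoeff = ((f.leadingCoeff : ℤ) : ℂ) := by
      rw [hg, Polynomial.leadingCoeff_map_of_injective (RingHom.injective_int _)]
      rfl
    rw [h1, Complex.norm_intCast]
    have h2 : f.leadingCoeff ≠ 0 := by
      rw [Polynomial.leadingCoeff_ne_zero]
      rintro rfl
      simp at hd
    have h3 : 1 ≤ |f.leadingCoeff| := Int.one_le_abs h2
    exact_mod_cast h3
  refine ⟨a, b, c, fun n => ?_⟩
  have h1 : ((f.eval n : ℤ) : ℂ) =
      g.leadingCoeff * (((n : ℂ) - a) * ((n : ℂ) - b) * ((n : ℂ) - c)) := by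
    have h2 : ((f.eval n : ℤ) : ℂ) = g.eval (n : ℂ) := by
      rw [hg, Polynomial.eval_intCast_map]
      rfl
    have h3 : g.eval (n : ℂ) = (Polynomial.C g.leadingCoeff * (Multiset.map
        (fun x => Polynomial.X - Polynomial.C x) {a, b, c}).prod).eval (n : ℂ) := by
      rw [← hprod]
    rw [h2, h3, Polynomial.eval_mul, Polynomial.eval_C]
    congr 1
    simp [Polynomial.eval_mul]
    ring
  have h3 : ((f.eval n).natAbs : ℝ) = ‖((f.eval n : ℤ) : ℂ)‖ := by
    rw [Complex.norm_intCast, Nat.cast_natAbs, Int.cast_abs]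
  rw [h3, h1, norm_mul, norm_mul, norm_mul]
  have h4 : 0 ≤ ‖(n : ℂ) - a‖ * ‖(n : ℂ) - b‖ * ‖(n : ℂ) - c‖ := by positivity
  nlinarith

/-- `min 1 (g / F ^ (1 / 3))` for a product -/
theorem cube_le {F a b c g : ℝ} (hF : 1 ≤ F) (hg : 1 ≤ g) (h : a * b * c ≤ F) :
    min 1 (g / F ^ ((1 : ℝ) / 3)) ≤ 1 / max 1 (a / g) + 1 / max 1 (b / g) + 1 / max 1 (c / g) := by
  set G := F ^ ((1 : ℝ) / 3) with hG
  have hG3 : G ^ 3 = F := by
    rw [hG, ← Real.rpow_natCast, ← Real.rpow_mul (by linarith)]
    norm_num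
  have hG1 : 1 ≤ G := Real.one_le_rpow hF (by norm_num)
  have hG0 : 0 < G := by linarith
  have hg0 : 0 < g := by linarith
  have hex : a ≤ G ∨ b ≤ G ∨ c ≤ G := by
    by_contra hcon
    push Not at hcon
    obtain ⟨h1, h2, h3⟩ := hcon
    have h4 : G * G < a * b := mul_lt_mul'' h1 h2 (by linarith) (by linarith)
    have h5 : G * G * G < a * b * c := mul_lt_mul'' h4 h3 (by positivity) (by linarith)
    have h6 : G ^ 3 = G * G * G := by ring
    linarith
  have key : ∀ x, x ≤ G → min 1 (g / G) ≤ 1 / max 1 (x / g) := by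
    intro x hx
    rw [le_div_iff₀ (by positivity)]
    have h1 : x / g ≤ G / g := by gcongr
    rcases le_total 1 (x / g) with h2 | h2
    · rw [max_eq_right h2]
      have h3 : g / G * (x / g) ≤ 1 := by
        calc g / G * (x / g) ≤ g / G * (G / g) := by gcongr
          _ = 1 := by field_simp
      calc min 1 (g / G) * (x / g) ≤ g / G * (x / g) :=
            mul_le_mul_of_nonneg_right (min_le_right _ _) (by linarith)
        _ ≤ 1 := h3
    · rw [max_eq_left h2, mul_one]
      exact min_le_left _ _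
  have pos : ∀ x : ℝ, 0 ≤ 1 / max 1 x := fun x => by positivity
  have pa := pos (a / g)
  have pb := pos (b / g)
  have pc := pos (c / g)
  rcases hex with h | h | h
  · have := key a h
    linarith
  · have := key b h
    linarith
  · have := key c h
    linarith

/-- the sum over a set of integers with the differences divisible by `q` -/
theorem sum_class (P q h g : ℕ) (hq : 1 ≤ q) (hh : 1 ≤ h) (hg : 1 ≤ g) (hgq : g ≤ q * h) (T : Finset ℤ)
    (hT : T ⊆ Icc (-(P : ℤ)) P) (hTq : ∀ s ∈ T, ∀ t ∈ T, (q : ℤ) ∣ t - s) (ρ : ℂ) :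
    ∑ t ∈ T, 1 / max 1 (‖(t : ℂ) - ρ‖ / g) ≤ h * (6 * (1 + Real.log ((2 * (2 * P) + 1 : ℕ) : ℝ))) := by
  rcases T.eq_empty_or_nonempty with rfl | ⟨t0, ht0⟩
  · rw [Finset.sum_empty]
    have : 0 ≤ Real.log ((2 * (2 * P) + 1 : ℕ) : ℝ) := Real.log_natCast_nonneg _
    positivity
  have hq0 : (0 : ℝ) < q := by exact_mod_cast hq
  have hh1 : (1 : ℝ) ≤ h := by exact_mod_cast hh
  have hg0 : (0 : ℝ) < g := by exact_mod_cast hg
  set κ : ℂ := (ρ - t0) / q with hκ
  have hk : ∀ t ∈ T, t0 + q * ((t - t0) / q) = t := by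
    intro t ht
    rw [Int.mul_ediv_cancel' (hTq t0 ht0 t ht)]
    ring
  have hinj : Set.InjOn (fun t : ℤ => (t - t0) / q) T := by
    intro s hs t ht hst
    have h1 : (s - t0) / q = (t - t0) / q := hst
    rw [← hk s hs, ← hk t ht, h1]
  calc ∑ t ∈ T, 1 / max 1 (‖(t : ℂ) - ρ‖ / g)
      ≤ ∑ t ∈ T, h * (1 / max 1 ‖(((t - t0) / q : ℤ) : ℂ) - κ‖) := by
        apply Finset.sum_le_sum
        intro t ht
        have h1 : (t : ℂ) - ρ = q * ((((t - t0) / q : ℤ) : ℂ) - κ) := by
          have h2 : (t : ℂ) = t0 + q * (((t - t0) / q : ℤ) : ℂ) := by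
            exact_mod_cast (hk t ht).symm
          have hqc : (q : ℂ) ≠ 0 := by exact_mod_cast (by omega : q ≠ 0)
          rw [h2, hκ]
          field_simp
          ring
        have h3 : ‖(t : ℂ) - ρ‖ = q * ‖(((t - t0) / q : ℤ) : ℂ) - κ‖ := by
          rw [h1, norm_mul, Complex.norm_natCast]
        rw [h3]
        set y := ‖(((t - t0) / q : ℤ) : ℂ) - κ‖ with hy
        have hy0 : 0 ≤ y := norm_nonneg _
        have h4 : y / h ≤ q * y / g := by
          rw [div_le_div_iff₀ (by linarith) hg0]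
          have h5 : (g : ℝ) ≤ q * h := by exact_mod_cast hgq
          nlinarith
        have h6 : max 1 y / h ≤ max 1 (q * y / g) := by
          rw [div_le_iff₀ (by linarith)]
          apply max_le
          · have : (1 : ℝ) ≤ max 1 (q * y / g) := le_max_left _ _
            nlinarith
          · have h7 : y / h ≤ max 1 (q * y / g) := h4.trans (le_max_right _ _)
            rw [div_le_iff₀ (by linarith)] at h7
            exact h7
        calc 1 / max 1 (q * y / g) ≤ 1 / (max 1 y / h) :=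
              one_div_le_one_div_of_le (by positivity) h6
          _ = h * (1 / max 1 y) := by
              rw [one_div_div]
              ring
    _ = h * ∑ k ∈ T.image (fun t : ℤ => (t - t0) / q), 1 / max 1 ‖(k : ℂ) - κ‖ := by
        rw [Finset.sum_image hinj, Finset.mul_sum]
    _ ≤ h * ∑ k ∈ Icc (-((2 * P : ℕ) : ℤ)) ((2 * P : ℕ) : ℤ), 1 / max 1 ‖(k : ℂ) - κ‖ := by
        apply mul_le_mul_of_nonneg_left _ (by linarith)
        apply Finset.sum_le_sum_of_subset_of_nonneg
        · intro k hk'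
          obtain ⟨t, ht, rfl⟩ := Finset.mem_image.1 hk'
          have h1 := Finset.mem_Icc.1 (hT ht)
          have h2 := Finset.mem_Icc.1 (hT ht0)
          obtain ⟨m, hm⟩ := hTq t0 ht0 t ht
          have hq1 : (1 : ℤ) ≤ q := by exact_mod_cast hq
          have h3 : (t - t0) / q = m := by
            rw [hm, Int.mul_ediv_cancel_left _ (by omega)]
          rw [h3, Finset.mem_Icc]
          push_cast
          constructor
          · by_contra hcon
            push Not at hcon
            nlinarith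
          · by_contra hcon
            push Not at hcon
            nlinarith
        · intro k _ _
          positivity
    _ ≤ h * (6 * (1 + Real.log ((2 * (2 * P) + 1 : ℕ) : ℝ))) :=
        mul_le_mul_of_nonneg_left (Pool.Agent.R38.NC.SumAux.line1 (2 * P) κ) (by linarith)

theorem gg_dvd (A : Matrix (Fin 3) (Fin 3) ℤ) (i j : Fin 3) : (gg A : ℤ) ∣ A.adjugate i j := by
  rw [Int.natCast_dvd]
  unfold gg
  generalize A.adjugate = M
  exact Finset.gcd_dvd (f := fun p : Fin 3 × Fin 3 => (M p.1 p.2).natAbs) (Finset.mem_univ (i, j))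

theorem log_le {P : ℕ} (hP : 1 ≤ P) :
    1 + Real.log ((2 * (2 * P) + 1 : ℕ) : ℝ) ≤ 3 * (1 + Real.log P) := by
  have hP1 : (1 : ℝ) ≤ P := by exact_mod_cast hP
  have h1 : ((2 * (2 * P) + 1 : ℕ) : ℝ) ≤ 5 * P := by
    push_cast
    linarith
  have h2 : Real.log ((2 * (2 * P) + 1 : ℕ) : ℝ) ≤ Real.log 5 + Real.log P := by
    rw [← Real.log_mul (by norm_num) (by positivity)]
    exact Real.log_le_log (by positivity) h1
  have h3 : Real.log 5 ≤ 2 := by
    rw [Real.log_le_iff_le_exp (by norm_num)]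
    have h4 := Real.exp_one_gt_d9
    have h5 : Real.exp 2 = Real.exp 1 * Real.exp 1 := by
      rw [← Real.exp_add]
      norm_num
    rw [h5]
    nlinarith
  have h6 : 0 ≤ Real.log P := Real.log_nonneg hP1
  linarith

end LinAux

open LinAux in
theorem linP : S_LIN := by
  classical
  refine ⟨54, by norm_num, ?_⟩
  intro B E h R P hE hh hR hP hsp hR'
  obtain ⟨a, b, c, habc⟩ := exists_roots (lf B E) (lf_deg hE)
  set T : Finset ℤ := (Icc (-(P : ℤ)) P).filter (fun t => (B + t • E).det ≠ 0) with hT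
  have hmaps : ∀ t ∈ T, gg (B + t • E) ∈ R.natAbs.divisors := by
    intro t _
    rw [Nat.mem_divisors]
    refine ⟨?_, Int.natAbs_ne_zero.2 hR⟩
    have h1 := hR' t (gg (B + t • E)) (gg_dvd _)
    exact Int.natCast_dvd.1 h1
  rw [← Finset.sum_fiberwise_of_maps_to hmaps]
  set L : ℝ := 1 + Real.log ((2 * (2 * P) + 1 : ℕ) : ℝ) with hL
  have hL0 : 0 ≤ L := by
    have : 0 ≤ Real.log ((2 * (2 * P) + 1 : ℕ) : ℝ) := Real.log_natCast_nonneg _
    linarith
  have hLP := log_le hP
  have hh1 : (1 : ℝ) ≤ h := by exact_mod_cast hh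
  have key : ∀ G ∈ R.natAbs.divisors, ∑ t ∈ T.filter (fun t => gg (B + t • E) = G), wt (B + t • E) ≤
      54 * h * (1 + Real.log P) := by
    intro G hG
    have hG1 : 1 ≤ G := Nat.pos_of_mem_divisors hG
    have hG1' : (1 : ℝ) ≤ G := by exact_mod_cast hG1
    have hd : 0 < G.gcd h := Nat.gcd_pos_of_pos_left _ hG1
    set q := G / G.gcd h with hq
    have hGq : G = q * G.gcd h := (Nat.div_mul_cancel (Nat.gcd_dvd_left G h)).symm
    have hq1 : 1 ≤ q := Nat.div_pos (Nat.le_of_dvd hG1 (Nat.gcd_dvd_left G h)) hd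
    have hgq : G ≤ q * h := by
      conv_lhs => rw [hGq]
      exact Nat.mul_le_mul_left q (Nat.le_of_dvd hh (Nat.gcd_dvd_right G h))
    have hcop : q.Coprime (h / G.gcd h) := Nat.coprime_div_gcd_div_gcd hd
    have hTG : T.filter (fun t => gg (B + t • E) = G) ⊆ Icc (-(P : ℤ)) P :=
      (Finset.filter_subset _ _).trans (Finset.filter_subset _ _)
    have hTq : ∀ s ∈ T.filter (fun t => gg (B + t • E) = G),
        ∀ t ∈ T.filter (fun t => gg (B + t • E) = G), (q : ℤ) ∣ t - s := by
      intro s hs t ht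
      have hs' := (Finset.mem_filter.1 hs).2
      have ht' := (Finset.mem_filter.1 ht).2
      have h1 : (G : ℤ) ∣ h * (t - s) := hsp s t G (by rw [← hs']; exact gg_dvd _)
        (by rw [← ht']; exact gg_dvd _)
      rw [Int.natCast_dvd, Int.natAbs_mul, Int.natAbs_natCast] at h1
      rw [Int.natCast_dvd]
      have h2 : h = h / G.gcd h * G.gcd h := (Nat.div_mul_cancel (Nat.gcd_dvd_right G h)).symm
      have h3 : q * G.gcd h ∣ (h / G.gcd h * (t - s).natAbs) * G.gcd h := by
        rw [← hGq, mul_right_comm, ← h2]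
        exact h1
      exact hcop.dvd_of_dvd_mul_left (Nat.dvd_of_mul_dvd_mul_right hd h3)
    have hc := fun ρ : ℂ => sum_class P q h G hq1 hh hG1 hgq _ hTG hTq ρ
    have hterm : ∀ t ∈ T.filter (fun t => gg (B + t • E) = G), wt (B + t • E) ≤
        1 / max 1 (‖(t : ℂ) - a‖ / G) + 1 / max 1 (‖(t : ℂ) - b‖ / G) + 1 / max 1 (‖(t : ℂ) - c‖ / G) := by
      intro t ht
      have h1 := Finset.mem_filter.1 ht
      have h2 := (Finset.mem_filter.1 h1.1).2
      unfold wt
      rw [h1.2]
      apply cube_le _ hG1'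
      · have h3 := habc t
        rwa [lf_eval] at h3
      · exact_mod_cast Int.natAbs_pos.2 h2
    refine (Finset.sum_le_sum hterm).trans ?_
    rw [Finset.sum_add_distrib, Finset.sum_add_distrib]
    have ha := hc a
    have hb := hc b
    have hcc := hc c
    have h1 : (h : ℝ) * (6 * L) ≤ h * (6 * (3 * (1 + Real.log P))) := by
      apply mul_le_mul_of_nonneg_left _ (by linarith)
      linarith
    linarith
  refine (Finset.sum_le_sum key).trans (le_of_eq ?_)
  rw [Finset.sum_const, nsmul_eq_mul]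
  ring

end Pool.Agent.N852.QN
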