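import Mathlib
import Pool.Agent.N852.QN.Boxi
import Pool.Agent.N852.Pt

/-! Project QN: rational points of the open set. -/

set_option autoImplicit false

namespace Pool.Agent.N852.QN

open Matrix Finset MvPolynomial
open Pool.Agent.H548.WM (ht bx Rep mem_bx)

variable {m : ℕ}

/-- the parameters of the conics through a given point -/
def par {R : Type*} [CommRing R] (w u : Fin m → R) (i : Fin m) : Fin m → R :=
  fun k => if k = i then -∑ l ∈ Finset.univ.erase i, w l * u l else w i * u k

theorem par_dot {R : Type*} [CommRing R] (w u : Fin m → R) (i : Fin m) : par w u i ⬝ᵥ w = 0 := by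
  unfold par dotProduct
  rw [← Finset.add_sum_erase _ _ (Finset.mem_univ i)]
  simp only [if_true]
  have : ∑ k ∈ univ.erase i, (if k = i then -∑ l ∈ univ.erase i, w l * u l else w i * u k) * w k =
      ∑ k ∈ univ.erase i, (w i * (w k * u k)) := by
    refine Finset.sum_congr rfl fun k hk => ?_
    rw [if_neg (Finset.ne_of_mem_erase hk)]
    ring
  rw [this, ← Finset.mul_sum]
  ring

theorem par_eq {w t : Fin m → ℂ} {i : Fin m} (hi : w i ≠ 0) (h : t ⬝ᵥ w = 0) :
    par w (fun k => t k / w i) i = t := by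
  funext k
  unfold par
  split_ifs with hk
  · subst hk
    unfold dotProduct at h
    rw [← Finset.add_sum_erase _ _ (Finset.mem_univ k)] at h
    have h1 : ∑ l ∈ univ.erase k, w l * (t l / w k) = (∑ l ∈ univ.erase k, t l * w l) / w k := by
      rw [Finset.sum_div]
      exact Finset.sum_congr rfl fun l _ => by ring
    rw [h1, ← neg_div, div_eq_iff hi]
    linear_combination -h
  · field_simp

theorem map_gm {R S : Type*} [CommRing R] [CommRing S] (f : R →+* S)
    (M : Fin m → Matrix (Fin 3) (Fin 3) ℤ) (t : Fin m → R) :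
    f ((gm M t).det) = (gm M fun i => f (t i)).det := by
  rw [RingHom.map_det]
  congr 1
  ext j k
  simp [gm, RingHom.mapMatrix_apply, Matrix.map_apply]

theorem map_cq {R S : Type*} [CommRing R] [CommRing S] (f : R →+* S)
    (M : Fin m → Matrix (Fin 3) (Fin 3) ℤ) (x : Fin 3 → R) (i : Fin m) :
    f (cq M x i) = cq M (fun j => f (x j)) i := by
  simp [cq, qf, dotProduct, Matrix.mulVec, Matrix.map_apply]

theorem map_par {R S : Type*} [CommRing R] [CommRing S] (f : R →+* S) (w u : Fin m → R)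
    (i k : Fin m) : f (par w u i k) = par (fun l => f (w l)) (fun l => f (u l)) i k := by
  unfold par
  split_ifs <;> simp

theorem gm_smul {R : Type*} [CommRing R] (M : Fin m → Matrix (Fin 3) (Fin 3) ℤ) (c : R)
    (t : Fin m → R) : gm M (c • t) = c • gm M t := by
  ext j k
  simp [gm, Finset.mul_sum, mul_assoc]

theorem qf_smul {R : Type*} [CommRing R] (A : Matrix (Fin 3) (Fin 3) R) (c : R) (x : Fin 3 → R) :
    qf A (c • x) = c ^ 2 * qf A x := by
  unfold qf
  rw [Matrix.mulVec_smul, smul_dotProduct, dotProduct_smul]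
  simp only [smul_eq_mul]
  ring

/-- The open set contains a rational point. -/
theorem rat_pt (M : Fin m → Matrix (Fin 3) (Fin 3) ℤ) (hb : Bpf M)
    (h : ∃ (t : Fin m → ℂ) (x : Fin 3 → ℂ), t ≠ 0 ∧ x ≠ 0 ∧ qf (gm M t) x = 0 ∧
      (gm M t).det ≠ 0) :
    ∃ (t : Fin m → ℤ) (x : Fin 3 → ℤ), t ≠ 0 ∧ x ≠ 0 ∧ qf (gm M t) x = 0 ∧
      (gm M t).det ≠ 0 := by
  obtain ⟨t0, x0, -, hx0, hq, hd⟩ := h
  obtain ⟨i, hi⟩ := hb x0 hx0
  rw [dot_cq] at hq
  set P : MvPolynomial (Fin m ⊕ Fin 3) ℤ :=
    (gm M (par (cq M fun j => X (Sum.inr j)) (fun l => X (Sum.inl l)) i)).det with hP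
  have hev : ∀ (S : Type) [CommRing S] (f : MvPolynomial (Fin m ⊕ Fin 3) ℤ →+* S),
      f P = (gm M (par (cq M fun j => f (X (Sum.inr j))) (fun l => f (X (Sum.inl l))) i)).det := by
    intro S _ f
    rw [hP, map_gm]
    congr 2
    funext k
    rw [map_par]
    congr 1
    funext l
    rw [map_cq]
  have hP0 : P ≠ 0 := by
    intro h0
    have h1 := hev ℂ (MvPolynomial.aeval (R := ℤ) (Sum.elim (fun k => t0 k / cq M x0 i) x0)).toRingHom
    rw [h0, map_zero] at h1
    simp only [AlgHom.toRingHom_eq_coe, RingHom.coe_coe, aeval_X, Sum.elim_inr, Sum.elim_inl] at h1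
    rw [show (fun j => x0 j) = x0 from rfl, par_eq hi hq] at h1
    exact hd h1.symm
  obtain ⟨v, hv⟩ : ∃ v : Fin m ⊕ Fin 3 → ℤ, MvPolynomial.eval v P ≠ 0 := by
    by_contra hcon
    push Not at hcon
    exact hP0 (MvPolynomial.funext fun v => by rw [hcon v, map_zero])
  have h1 := hev ℤ (MvPolynomial.eval v)
  simp only [eval_X] at h1
  rw [h1] at hv
  refine ⟨_, fun j => v (Sum.inr j), ?_, ?_, ?_, hv⟩
  · intro h0
    rw [h0] at hv
    apply hv
    have : gm M (0 : Fin m → ℤ) = 0 := by
      ext j k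
      simp [gm]
    rw [this, Matrix.det_zero]
  · intro h0
    apply hv
    rw [h0]
    have h2 : cq M (0 : Fin 3 → ℤ) = 0 := by
      funext l
      simp [cq, qf]
    have h3 : ∀ u : Fin m → ℤ, par (0 : Fin m → ℤ) u i = 0 := by
      intro u
      funext k
      simp [par]
    rw [h2, h3]
    have : gm M (0 : Fin m → ℤ) = 0 := by
      ext j k
      simp [gm]
    rw [this, Matrix.det_zero]
  · rw [dot_cq]
    exact par_dot _ _ _

end Pool.Agent.N852.QN
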