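import Mathlib
import Pool.Agent.N852.QN.Fin
import Pool.Agent.N852.QN.Rat
import Pool.Agent.N852.Pt

/-! Project QN: the main theorem in terms of the rational points of projective spaces. -/

set_option autoImplicit false

namespace Pool.Agent.N852.QN

open Matrix Finset
open Pool.Agent.N852 (nr nr_rep nr_spec nr_inj nr_surj mulHeight_nr qc)
open Pool.Agent.H548.WM (ht bx Rep mem_bx)

variable {n : ℕ}

theorem gm_cast {m : ℕ} (M : Fin m → Matrix (Fin 3) (Fin 3) ℤ) (t : Fin m → ℤ) :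
    (gm M (qc t)).det = (((gm M t).det : ℤ) : ℚ) := by
  have := map_gm (Int.castRingHom ℚ) M t
  simp only [eq_intCast] at this
  exact this.symm

theorem qf_cast {m : ℕ} (M : Fin m → Matrix (Fin 3) (Fin 3) ℤ) (t : Fin m → ℤ) (x : Fin 3 → ℤ) :
    qf (gm M (qc t)) (qc x) = ((qf (gm M t) x : ℤ) : ℚ) := by
  rw [dot_cq, dot_cq]
  unfold dotProduct
  push_cast
  refine Finset.sum_congr rfl fun i _ => ?_
  have h1 := map_cq (Int.castRingHom ℚ) M x i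
  simp only [eq_intCast] at h1
  rw [h1]
  rfl

theorem qf_nr {m : ℕ} (M : Fin m → Matrix (Fin 3) (Fin 3) ℤ)
    (P : Projectivization ℚ (Fin m → ℚ)) (Q : Projectivization ℚ (Fin 3 → ℚ)) :
    qf (gm M P.rep) Q.rep = 0 ↔ qf (gm M (nr P)) (nr Q) = 0 := by
  obtain ⟨a, ha, h1⟩ := nr_spec P
  obtain ⟨b, hb, h2⟩ := nr_spec Q
  rw [h1, h2, gm_smul, qf_smul]
  have h3 : qf (a • gm M (qc (nr P))) (qc (nr Q)) = a * qf (gm M (qc (nr P))) (qc (nr Q)) := by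
    unfold qf
    rw [Matrix.smul_mulVec, dotProduct_smul, smul_eq_mul]
  rw [h3, qf_cast]
  have hb2 : b ^ 2 ≠ 0 := pow_ne_zero _ hb
  constructor
  · intro h
    have h4 := (mul_eq_zero.1 ((mul_eq_zero.1 h).resolve_left hb2)).resolve_left ha
    exact_mod_cast h4
  · intro h
    rw [h]
    simp

theorem det_nr {m : ℕ} (M : Fin m → Matrix (Fin 3) (Fin 3) ℤ)
    (P : Projectivization ℚ (Fin m → ℚ)) :
    (gm M P.rep).det = 0 ↔ (gm M (nr P)).det = 0 := by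
  obtain ⟨a, ha, h1⟩ := nr_spec P
  rw [h1, gm_smul, Matrix.det_smul, gm_cast]
  have ha3 : a ^ Fintype.card (Fin 3) ≠ 0 := pow_ne_zero _ ha
  constructor
  · intro h
    have h4 := (mul_eq_zero.1 h).resolve_left ha3
    exact_mod_cast h4
  · intro h
    rw [h]
    simp

theorem main (hB : S_BOX) (hn : 2 ≤ n) (M : Fin (n + 1) → Matrix (Fin 3) (Fin 3) ℤ)
    (hs : ∀ i, (M i).IsSymm) (hb : Bpf M) (hd : ∃ t : Fin (n + 1) → ℤ, (gm M t).det ≠ 0)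
    (hc : ∃ (t : Fin (n + 1) → ℂ) (x : Fin 3 → ℂ), t ≠ 0 ∧ x ≠ 0 ∧ qf (gm M t) x = 0 ∧
      (gm M t).det ≠ 0) :
    (∃ (P : Projectivization ℚ (Fin (n + 1) → ℚ)) (Q : Projectivization ℚ (Fin 3 → ℚ)),
      qf (gm M P.rep) Q.rep = 0 ∧ (gm M P.rep).det ≠ 0) ∧
    ∀ l : Fin 2 → ℝ, (∀ i, 0 < l i) → ∀ ε : ℝ, 0 < ε → ∃ C : ℝ, ∀ T : ℝ, 1 ≤ T →
      {z : Projectivization ℚ (Fin (n + 1) → ℚ) × Projectivization ℚ (Fin 3 → ℚ) |
        qf (gm M z.1.rep) z.2.rep = 0 ∧ (gm M z.1.rep).det ≠ 0 ∧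
        z.1.mulHeight ^ l 0 * z.2.mulHeight ^ l 1 ≤ T}.Finite ∧
      ({z : Projectivization ℚ (Fin (n + 1) → ℚ) × Projectivization ℚ (Fin 3 → ℚ) |
        qf (gm M z.1.rep) z.2.rep = 0 ∧ (gm M z.1.rep).det ≠ 0 ∧
        z.1.mulHeight ^ l 0 * z.2.mulHeight ^ l 1 ≤ T}.ncard : ℝ) ≤
        C * T ^ (max (n / l 0) (1 / l 1) + ε) := by
  classical
  refine ⟨?_, fun l hl ε hε => ?_⟩
  · obtain ⟨t, x, ht0, hx0, h1, h2⟩ := rat_pt M hb hc
    refine ⟨Projectivization.mk ℚ (qc t) (Pool.Agent.N852.qc_ne ht0),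
      Projectivization.mk ℚ (qc x) (Pool.Agent.N852.qc_ne hx0), ?_, ?_⟩
    · obtain ⟨a, ha⟩ := Projectivization.exists_smul_eq_mk_rep ℚ (qc t)
        (Pool.Agent.N852.qc_ne ht0)
      obtain ⟨b, hb⟩ := Projectivization.exists_smul_eq_mk_rep ℚ (qc x)
        (Pool.Agent.N852.qc_ne hx0)
      rw [← ha, ← hb]
      show qf (gm M ((a : ℚ) • qc t)) ((b : ℚ) • qc x) = 0
      rw [gm_smul, qf_smul]
      have h3 : qf ((a : ℚ) • gm M (qc t)) (qc x) = a * qf (gm M (qc t)) (qc x) := by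
        unfold qf
        rw [Matrix.smul_mulVec, dotProduct_smul, smul_eq_mul]
      rw [h3, qf_cast, h1]
      simp
    · obtain ⟨a, ha⟩ := Projectivization.exists_smul_eq_mk_rep ℚ (qc t)
        (Pool.Agent.N852.qc_ne ht0)
      rw [← ha]
      show (gm M ((a : ℚ) • qc t)).det ≠ 0
      rw [gm_smul, Matrix.det_smul, gm_cast]
      exact mul_ne_zero (pow_ne_zero _ a.ne_zero) (by exact_mod_cast h2)
  · obtain ⟨C, hC⟩ := upper (by omega) M (hB n M hn hs hb hd) l hl ε hε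
    refine ⟨C, fun T hT => ?_⟩
    obtain ⟨h1, h2⟩ := hC T hT
    rw [fuj_eq n l hl] at h2
    set S := {z : Projectivization ℚ (Fin (n + 1) → ℚ) × Projectivization ℚ (Fin 3 → ℚ) |
        qf (gm M z.1.rep) z.2.rep = 0 ∧ (gm M z.1.rep).det ≠ 0 ∧
        z.1.mulHeight ^ l 0 * z.2.mulHeight ^ l 1 ≤ T} with hS
    set S' := {t : (Fin (n + 1) → ℤ) × (Fin 3 → ℤ) | Rep t.1 ∧ Rep t.2 ∧ qf (gm M t.1) t.2 = 0 ∧
        (gm M t.1).det ≠ 0 ∧ (ht t.1 : ℝ) ^ l 0 * (ht t.2 : ℝ) ^ l 1 ≤ T} with hS'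
    have hmaps : Set.MapsTo (fun z : Projectivization ℚ (Fin (n + 1) → ℚ) ×
        Projectivization ℚ (Fin 3 → ℚ) => (nr z.1, nr z.2)) S S' := by
      rintro ⟨P, Q⟩ ⟨hq, hdd, hh⟩
      refine ⟨nr_rep P, nr_rep Q, (qf_nr M P Q).1 hq, fun h => hdd ((det_nr M P).2 h), ?_⟩
      rw [← mulHeight_nr, ← mulHeight_nr]
      exact hh
    have hinj : Set.InjOn (fun z : Projectivization ℚ (Fin (n + 1) → ℚ) ×
        Projectivization ℚ (Fin 3 → ℚ) => (nr z.1, nr z.2)) S := by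
      rintro ⟨P, Q⟩ _ ⟨P', Q'⟩ _ h
      simp only [Prod.mk.injEq] at h
      rw [nr_inj h.1, nr_inj h.2]
    refine ⟨Set.Finite.of_injOn hmaps hinj h1, le_trans ?_ h2⟩
    exact_mod_cast Set.ncard_le_ncard_of_injOn _ hmaps hinj h1

end Pool.Agent.N852.QN
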