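import Pool.Agent.N852.QN.Stm

/-!
# QN/NST: content and size of the values of ternary quadratic forms without common zeros
(after `Pool/Agent/H548/WM/Gcd.lean`)
-/

set_option autoImplicit false
set_option linter.all false

namespace Pool.Agent.N852.QN

open MvPolynomial Finset
open Pool.Agent.H548.WM (ht bx Rep)

namespace Nst

variable {m : ℕ}

theorem map_cq {R S : Type*} [CommRing R] [CommRing S] (φ : R →+* S)
    (M : Fin m → Matrix (Fin 3) (Fin 3) ℤ) (x : Fin 3 → R) (i : Fin m) :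
    φ (cq M x i) = cq M (fun j => φ (x j)) i := by
  simp [cq, qf, Matrix.mulVec, dotProduct, map_sum, map_mul]

/-- the quadratic forms as polynomials -/
noncomputable def cpol (M : Fin m → Matrix (Fin 3) (Fin 3) ℤ) (i : Fin m) :
    MvPolynomial (Fin 3) ℚ := cq M (fun j => X j) i

theorem aeval_cpol {A : Type*} [CommRing A] [Algebra ℚ A] (M : Fin m → Matrix (Fin 3) (Fin 3) ℤ)
    (i : Fin m) (x : Fin 3 → A) : aeval x (cpol M i) = cq M x i := by
  have h := map_cq ((aeval x : MvPolynomial (Fin 3) ℚ →ₐ[ℚ] A) : MvPolynomial (Fin 3) ℚ →+* A) M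
    (fun j => X j) i
  have h2 : (fun j => ((aeval x : MvPolynomial (Fin 3) ℚ →ₐ[ℚ] A) :
      MvPolynomial (Fin 3) ℚ →+* A) (X j)) = x := by
    funext j
    exact aeval_X x j
  rw [h2] at h
  exact h

theorem denom (f : MvPolynomial (Fin 3) ℚ) : ∃ D : ℕ, 1 ≤ D ∧
    ∀ p : Fin 3 → ℤ, ∃ n : ℤ, (D : ℚ) * aeval (fun i => (p i : ℚ)) f = n := by
  induction f using MvPolynomial.induction_on' with
  | monomial u a =>
    refine ⟨a.den, a.pos, fun p => ⟨a.num * u.prod fun i k => p i ^ k, ?_⟩⟩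
    rw [aeval_monomial, ← mul_assoc]
    push_cast
    congr 1
    rw [mul_comm]
    exact Rat.mul_den_eq_num a
  | add f₁ f₂ h1 h2 =>
    obtain ⟨D1, hD1, h1⟩ := h1
    obtain ⟨D2, hD2, h2⟩ := h2
    refine ⟨D1 * D2, Nat.mul_pos hD1 hD2, fun p => ?_⟩
    obtain ⟨n1, e1⟩ := h1 p
    obtain ⟨n2, e2⟩ := h2 p
    refine ⟨D2 * n1 + D1 * n2, ?_⟩
    rw [map_add]
    push_cast
    rw [← e1, ← e2]
    ring

theorem power {M : Fin m → Matrix (Fin 3) (Fin 3) ℤ} (hM : Bpf M) (j : Fin 3) :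
    ∃ (D N : ℕ), 1 ≤ D ∧ ∀ x : Fin 3 → ℤ, ∀ g : ℤ,
      (∀ k, g ∣ cq M x k) → g ∣ (D : ℤ) * x j ^ N := by
  set I : Ideal (MvPolynomial (Fin 3) ℚ) := Ideal.span (Set.range (cpol M)) with hI
  have h1 : (X j : MvPolynomial (Fin 3) ℚ) ∈ I.radical := by
    rw [← vanishingIdeal_zeroLocus_eq_radical (K := ℂ) I, mem_vanishingIdeal_iff]
    intro x hx
    rw [hI, zeroLocus_span] at hx
    rw [aeval_X]
    by_cases hx0 : x = 0
    · rw [hx0]
      rfl
    · exfalso
      obtain ⟨k, h⟩ := hM x hx0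
      refine h ?_
      have h2 := hx (cpol M k) ⟨_, rfl⟩
      rw [aeval_cpol] at h2
      exact h2
  obtain ⟨N, hN⟩ := Ideal.mem_radical_iff.1 h1
  rw [hI, Ideal.mem_span_range_iff_exists_fun] at hN
  obtain ⟨c, hc⟩ := hN
  choose D hD hDn using fun t => denom (c t)
  refine ⟨∏ t, D t, N, Nat.one_le_iff_ne_zero.2 (Finset.prod_pos fun t _ => hD t).ne',
    fun x g hg => ?_⟩
  choose n hn using fun t => hDn t x
  have h3 : ∀ t, ∃ e : ℕ, ∏ t, D t = D t * e := fun t =>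
    Finset.dvd_prod_of_mem D (Finset.mem_univ t)
  choose e he using h3
  have h4 : ((∏ t, D t : ℕ) : ℤ) * x j ^ N = ∑ t, (e t * n t) * cq M x t := by
    have h5 := congrArg (aeval (fun i => (x i : ℚ))) hc
    rw [map_sum, map_pow, aeval_X] at h5
    have h6 : (((∏ t, D t : ℕ) : ℤ) : ℚ) * (x j : ℚ) ^ N =
        ∑ t, ((e t : ℚ) * n t) * ((cq M x t : ℤ) : ℚ) := by
      rw [← h5, Finset.mul_sum]
      refine Finset.sum_congr rfl fun t _ => ?_
      rw [map_mul, aeval_cpol, ← hn t, he t]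
      have h7 : ((cq M x t : ℤ) : ℚ) = cq M (fun i => (x i : ℚ)) t :=
        map_cq (Int.castRingHom ℚ) M x t
      rw [h7]
      push_cast
      ring
    have h8 : ((((∏ t, D t : ℕ) : ℤ) * x j ^ N : ℤ) : ℚ) =
      ((∑ t, (e t * n t) * cq M x t : ℤ) : ℚ) := by
      rw [Int.cast_mul, Int.cast_pow, h6, Int.cast_sum]
      refine Finset.sum_congr rfl fun t _ => ?_
      rw [Int.cast_mul, Int.cast_mul, Int.cast_natCast]
    exact_mod_cast h8
  rw [h4]
  exact Finset.dvd_sum fun t _ => Dvd.dvd.mul_left (hg _) _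

/-- Common divisors of the values at primitive vectors are bounded. -/
theorem content {M : Fin m → Matrix (Fin 3) (Fin 3) ℤ} (hM : Bpf M) :
    ∃ K : ℕ, 1 ≤ K ∧ ∀ x : Fin 3 → ℤ, Prim x → ∀ d : ℤ, (∀ i, d ∣ cq M x i) → d ∣ (K : ℤ) := by
  choose D N hD h using power hM
  refine ⟨∏ j, D j, Nat.one_le_iff_ne_zero.2 (Finset.prod_pos fun j _ => hD j).ne', ?_⟩
  intro x hx g hg
  set J : Ideal ℤ := Submodule.comap (LinearMap.mulLeft ℤ (((∏ j, D j : ℕ) : ℤ)))
    (Ideal.span {g}) with hJ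
  have hmem : ∀ y : ℤ, y ∈ J ↔ g ∣ ((∏ j, D j : ℕ) : ℤ) * y := by
    intro y
    rw [hJ, Submodule.mem_comap, LinearMap.mulLeft_apply, Ideal.mem_span_singleton]
  have h1 : ∀ j, x j ∈ J.radical := by
    intro j
    refine Ideal.mem_radical_iff.2 ⟨N j, ?_⟩
    rw [hmem]
    obtain ⟨e, he⟩ : D j ∣ ∏ j, D j := Finset.dvd_prod_of_mem D (Finset.mem_univ j)
    rw [he]
    have h2 := h j x g hg
    have h3 : (((D j * e : ℕ) : ℤ) * x j ^ N j) = e * ((D j : ℤ) * x j ^ N j) := by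
      push_cast
      ring
    rw [h3]
    exact Dvd.dvd.mul_left h2 _
  have h2 : (1 : ℤ) ∈ J.radical := by
    have h3 : Ideal.span (Set.range x) ≤ J.radical := by
      rw [Ideal.span_le]
      rintro _ ⟨j, rfl⟩
      exact h1 j
    apply h3
    obtain ⟨g', hg'⟩ := (IsPrincipalIdealRing.principal (Ideal.span (Set.range x))).principal
    have h4 : ∀ j, g' ∣ x j := by
      intro j
      have h5 : x j ∈ Ideal.span (Set.range x) := Ideal.subset_span ⟨j, rfl⟩
      rw [hg'] at h5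
      exact Ideal.mem_span_singleton.1 h5
    have h6 := hx g' h4
    rw [hg']
    exact Ideal.mem_span_singleton.2 h6.dvd
  obtain ⟨n, hn⟩ := Ideal.mem_radical_iff.1 h2
  rw [one_pow, hmem, mul_one] at hn
  exact hn

theorem cq_smul (M : Fin m → Matrix (Fin 3) (Fin 3) ℤ) (x : Fin 3 → ℝ) (s : ℝ) (k : Fin m) :
    cq M (s • x) k = s ^ 2 * cq M x k := by
  unfold cq qf
  rw [Matrix.mulVec_smul, dotProduct_smul, smul_dotProduct, smul_eq_mul, smul_eq_mul]
  ring

/-- The size of the values. -/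
theorem size_real {M : Fin m → Matrix (Fin 3) (Fin 3) ℤ} (hM : Bpf M) :
    ∃ κ : ℝ, 0 < κ ∧ ∀ x : Fin 3 → ℝ, κ * ‖x‖ ^ 2 ≤ ‖(cq M x : Fin m → ℝ)‖ := by
  set S : Set (Fin 3 → ℝ) := Metric.sphere (0 : Fin 3 → ℝ) 1 with hS
  have hScomp : IsCompact S := isCompact_sphere _ _
  have hne : S.Nonempty := by
    have h : ‖(fun _ => 1 : Fin 3 → ℝ)‖ = 1 := by simp
    exact ⟨fun _ => 1, by simp [hS, h]⟩
  have hcont : Continuous fun x : Fin 3 → ℝ => ‖(cq M x : Fin m → ℝ)‖ := by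
    refine continuous_norm.comp (continuous_pi fun k => ?_)
    simp only [cq, qf, Matrix.mulVec, dotProduct]
    fun_prop
  obtain ⟨x₀, hx₀, hmin⟩ := hScomp.exists_isMinOn hne hcont.continuousOn
  have hnz : ∀ x : Fin 3 → ℝ, x ≠ 0 → (cq M x : Fin m → ℝ) ≠ 0 := by
    intro x hx h
    have hx' : (fun i => (x i : ℂ)) ≠ 0 := by
      intro h'
      apply hx
      funext i
      have := congrFun h' i
      simpa using this
    obtain ⟨k, hk⟩ := hM _ hx'
    apply hk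
    have h1 := congrFun h k
    have h2 : cq M (fun i => (x i : ℂ)) k = ((cq M x k : ℝ) : ℂ) :=
      (map_cq Complex.ofRealHom M x k).symm
    rw [h2, h1]
    simp
  refine ⟨‖(cq M x₀ : Fin m → ℝ)‖, ?_, ?_⟩
  · rw [norm_pos_iff]
    simp only [hS, mem_sphere_iff_norm, sub_zero] at hx₀
    apply hnz
    intro h
    rw [h, norm_zero] at hx₀
    exact zero_ne_one hx₀
  · intro x
    by_cases hx : x = 0
    · rw [hx, norm_zero]
      simp
    have hx1 : 0 < ‖x‖ := norm_pos_iff.2 hx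
    have hmem : ‖x‖⁻¹ • x ∈ S := by
      simp [hS, norm_smul, hx1.ne']
    have h1 := hmin hmem
    simp only [Set.mem_ofPred_eq] at h1
    have h2 : (cq M (‖x‖⁻¹ • x) : Fin m → ℝ) = (‖x‖⁻¹ ^ 2) • (cq M x : Fin m → ℝ) := by
      funext k
      rw [cq_smul, Pi.smul_apply, smul_eq_mul]
    rw [h2, norm_smul, norm_pow, norm_inv, norm_norm] at h1
    have h3 := mul_le_mul_of_nonneg_right h1 (sq_nonneg ‖x‖)
    refine h3.trans (le_of_eq ?_)
    field_simp

theorem size {M : Fin m → Matrix (Fin 3) (Fin 3) ℤ} (hM : Bpf M) :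
    ∃ c : ℝ, 0 < c ∧ ∀ x : Fin 3 → ℤ, x ≠ 0 →
      ∃ i, c * (ht x : ℝ) ^ 2 ≤ |((cq M x i : ℤ) : ℝ)| := by
  obtain ⟨κ, hκ, h⟩ := size_real hM
  refine ⟨κ, hκ, fun x hx => ?_⟩
  set v : Fin 3 → ℝ := fun j => (x j : ℝ) with hv
  have h1 : (ht x : ℝ) ≤ ‖v‖ := by
    obtain ⟨j, -, hj⟩ := Finset.exists_mem_eq_sup (univ : Finset (Fin 3)) univ_nonempty
      fun i => (x i).natAbs
    have h2 : ht x = (x j).natAbs := hj
    rw [h2]
    have h3 : (((x j).natAbs : ℕ) : ℝ) = |(x j : ℝ)| := by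
      rw [← Int.cast_natCast, Int.natCast_natAbs, Int.cast_abs]
    rw [h3]
    exact norm_le_pi_norm v j
  have h1' : 0 < (ht x : ℝ) := by
    have : 0 < ht x := by
      rw [Nat.pos_iff_ne_zero]
      intro h0
      apply hx
      funext j
      have h2 : (x j).natAbs ≤ ht x := Finset.le_sup (f := fun i => (x i).natAbs) (mem_univ j)
      rw [h0] at h2
      exact Int.natAbs_eq_zero.1 (by omega)
    exact_mod_cast this
  by_contra hcon
  push Not at hcon
  have h4 : ‖(cq M v : Fin m → ℝ)‖ < κ * (ht x : ℝ) ^ 2 := by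
    rw [pi_norm_lt_iff (by positivity)]
    intro i
    have h5 : (cq M v i : ℝ) = ((cq M x i : ℤ) : ℝ) := (map_cq (Int.castRingHom ℝ) M x i).symm
    rw [h5, Real.norm_eq_abs]
    exact hcon i
  have h6 := h v
  have h7 : κ * (ht x : ℝ) ^ 2 ≤ κ * ‖v‖ ^ 2 := by gcongr
  linarith

end Nst

theorem nstP : S_NST := fun _ _ hM => ⟨Nst.content hM, Nst.size hM⟩

end Pool.Agent.N852.QN
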