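import Mathlib
import Pool.Agent.N852.QN.Stm

/-! Project QN, part SPC. -/

set_option autoImplicit false

namespace Pool.Agent.N852.QN

open Matrix Finset

section adj
variable {R : Type*} [CommRing R] (A : Matrix (Fin 3) (Fin 3) R)

theorem adj00 : A.adjugate 0 0 = A 1 1 * A 2 2 - A 1 2 * A 2 1 := by
  rw [Matrix.adjugate_fin_three]; rfl
theorem adj01 : A.adjugate 0 1 = -(A 0 1 * A 2 2) + A 0 2 * A 2 1 := by
  rw [Matrix.adjugate_fin_three]; rfl
theorem adj02 : A.adjugate 0 2 = A 0 1 * A 1 2 - A 0 2 * A 1 1 := by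
  rw [Matrix.adjugate_fin_three]; rfl
theorem adj10 : A.adjugate 1 0 = -(A 1 0 * A 2 2) + A 1 2 * A 2 0 := by
  rw [Matrix.adjugate_fin_three]; rfl
theorem adj11 : A.adjugate 1 1 = A 0 0 * A 2 2 - A 0 2 * A 2 0 := by
  rw [Matrix.adjugate_fin_three]; rfl
theorem adj12 : A.adjugate 1 2 = -(A 0 0 * A 1 2) + A 0 2 * A 1 0 := by
  rw [Matrix.adjugate_fin_three]; rfl
theorem adj20 : A.adjugate 2 0 = A 1 0 * A 2 1 - A 1 1 * A 2 0 := by
  rw [Matrix.adjugate_fin_three]; rfl
theorem adj21 : A.adjugate 2 1 = -(A 0 0 * A 2 1) + A 0 1 * A 2 0 := by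
  rw [Matrix.adjugate_fin_three]; rfl
theorem adj22 : A.adjugate 2 2 = A 0 0 * A 1 1 - A 0 1 * A 1 0 := by
  rw [Matrix.adjugate_fin_three]; rfl

end adj

set_option maxRecDepth 4000 in
/-- The identity behind the spacing. -/
theorem spc_identity (A E : Matrix (Fin 3) (Fin 3) ℤ) (r : ℤ) (i j : Fin 3) :
    r * E.det * ((2 : ℤ) • A + r • E) i j =
      (E * ((A + r • E).adjugate - A.adjugate)).trace * E i j -
        2 * (E * ((A + r • E).adjugate - A.adjugate) * E) i j := by
  rw [Matrix.det_fin_three]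
  simp only [Matrix.trace, Matrix.diag_apply, Matrix.mul_apply, Fin.sum_univ_three,
    Matrix.add_apply, Matrix.sub_apply, Matrix.smul_apply, smul_eq_mul, adj00, adj01, adj02,
    adj10, adj11, adj12, adj20, adj21, adj22]
  fin_cases i <;> fin_cases j <;> simp only [Fin.zero_eta, Fin.mk_one, Fin.reduceFinMk] <;> ring

theorem spcP : S_SPC := by
  intro B E s t G hs ht i j
  have h := spc_identity (B + s • E) E (t - s) i j
  have e1 : (2 : ℤ) • (B + s • E) + (t - s) • E = (2 : ℤ) • B + (s + t) • E := by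
    module
  have e2 : B + s • E + (t - s) • E = B + t • E := by
    module
  rw [e1, e2] at h
  rw [h]
  have hd : ∀ a b, G ∣ ((B + t • E).adjugate - (B + s • E).adjugate) a b := by
    intro a b
    rw [Matrix.sub_apply]
    exact dvd_sub (ht a b) (hs a b)
  have hE : ∀ a b, G ∣ (E * ((B + t • E).adjugate - (B + s • E).adjugate)) a b := by
    intro a b
    rw [Matrix.mul_apply]
    exact Finset.dvd_sum fun k _ => Dvd.dvd.mul_left (hd k b) _
  have hEE : ∀ a b, G ∣ (E * ((B + t • E).adjugate - (B + s • E).adjugate) * E) a b := by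
    intro a b
    rw [Matrix.mul_apply]
    exact Finset.dvd_sum fun k _ => Dvd.dvd.mul_right (hE a k) _
  refine dvd_sub (Dvd.dvd.mul_right ?_ _) (Dvd.dvd.mul_left (hEE i j) _)
  exact Finset.dvd_sum fun k _ => hE k k

end Pool.Agent.N852.QN
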