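import Pool.Agent.N852.QN.Stm
import Pool.Agent.N852.Div

/-!
# Part SUMC: the sum of the weights over a box
-/

set_option autoImplicit false

namespace Pool.Agent.N852.QN.Sumc

open Matrix Finset Pool.Agent.N852.QN
open Pool.Agent.H548.WM (ht bx Rep mem_bx card_bx le_ht' ht_le)

/-! ### Change of the coordinates -/

/-- a line of matrices with a nonsingular element has a nonsingular integral element -/
theorem line_int (A B : Matrix (Fin 3) (Fin 3) ℚ) (s0 : ℚ) (h : (A + s0 • B).det ≠ 0) (z : ℤ) :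
    ∃ s : ℤ, s ≠ z ∧ (A + (s : ℚ) • B).det ≠ 0 := by
  by_contra hcon
  push Not at hcon
  let p : Polynomial ℚ := (A.map Polynomial.C + (Polynomial.X : Polynomial ℚ) •
    B.map Polynomial.C).det
  have hp : ∀ r, p.eval r = (A + r • B).det := by
    intro r
    have h1 := (Polynomial.evalRingHom r).map_det
      (A.map Polynomial.C + (Polynomial.X : Polynomial ℚ) • B.map Polynomial.C)
    rw [Polynomial.coe_evalRingHom] at h1
    rw [h1]
    congr 1
    ext i j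
    simp
    ring
  have hinf : Set.Infinite {x | Polynomial.IsRoot p x} := by
    refine Set.infinite_of_injective_forall_mem (f := fun k : ℕ => ((z + 1 + k : ℤ) : ℚ)) ?_ ?_
    · intro a b hab
      have h2 : (z + 1 + a : ℤ) = z + 1 + b := by
        simp only at hab
        exact_mod_cast hab
      omega
    · intro k
      change p.eval _ = 0
      rw [hp]
      exact hcon _ (by omega)
  have h0 := Polynomial.eq_zero_of_infinite_isRoot p hinf
  apply h
  rw [← hp, h0, Polynomial.eval_zero]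

variable {m n : ℕ}

theorem gm_cast (M : Fin m → Matrix (Fin 3) (Fin 3) ℤ) (t : Fin m → ℤ) :
    (gm M t).map (Int.cast : ℤ → ℚ) = gm M (fun i => (t i : ℚ)) := by
  ext j k
  simp [gm]

theorem det_cast (M : Fin m → Matrix (Fin 3) (Fin 3) ℤ) (t : Fin m → ℤ) :
    (((gm M t).det : ℤ) : ℚ) = (gm M (fun i => (t i : ℚ))).det := by
  rw [← gm_cast, ← Int.cast_det]

theorem gm_add_smul {R : Type*} [CommRing R] (M : Fin m → Matrix (Fin 3) (Fin 3) ℤ)
    (t u : Fin m → R) (s : R) : gm M (t + s • u) = gm M t + s • gm M u := by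
  ext j k
  simp only [gm, Pi.add_apply, Pi.smul_apply, smul_eq_mul, Matrix.add_apply, Matrix.smul_apply,
    add_mul, sum_add_distrib, mul_sum, mul_assoc]

theorem exists_e (M : Fin (n + 1) → Matrix (Fin 3) (Fin 3) ℤ)
    (h : ∃ t : Fin (n + 1) → ℤ, (gm M t).det ≠ 0) :
    ∃ e : Fin (n + 1) → ℤ, e 0 = 1 ∧ (gm M e).det ≠ 0 := by
  obtain ⟨t, ht⟩ := h
  obtain ⟨s, hs, hs'⟩ := line_int (gm M (fun i => (t i : ℚ)))
    (gm M (Pi.single 0 1 : Fin (n + 1) → ℚ)) 0 (by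
      rw [zero_smul, add_zero, ← det_cast]
      exact_mod_cast ht) (-t 0)
  rw [← gm_add_smul] at hs'
  let u : Fin (n + 1) → ℤ := t + s • Pi.single 0 1
  have hu : ((fun i => (t i : ℚ)) + (s : ℚ) • (Pi.single 0 1 : Fin (n + 1) → ℚ)) =
      fun i => (u i : ℚ) := by
    funext i
    simp only [u, Pi.add_apply, Pi.smul_apply, smul_eq_mul, Int.cast_add, Int.cast_mul]
    congr 2
    by_cases hi : i = 0
    · subst hi
      simp
    · simp [Pi.single_eq_of_ne hi]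
  rw [hu] at hs'
  have hu0 : u 0 ≠ 0 := by
    simp only [u, Pi.add_apply, Pi.smul_apply, Pi.single_eq_same, smul_eq_mul, mul_one]
    omega
  have hu0' : (u 0 : ℚ) ≠ 0 := by exact_mod_cast hu0
  let v : Fin (n + 1) → ℤ := Function.update u 0 0
  obtain ⟨r, -, hr⟩ := line_int (gm M (Pi.single 0 1 : Fin (n + 1) → ℚ))
    (gm M (fun i => (v i : ℚ))) (1 / (u 0 : ℚ)) (by
      rw [← gm_add_smul]
      have h1 : ((Pi.single 0 1 : Fin (n + 1) → ℚ) + (1 / (u 0 : ℚ)) • fun i => (v i : ℚ)) =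
          (0 : Fin (n + 1) → ℚ) + (1 / (u 0 : ℚ)) • fun i => (u i : ℚ) := by
        funext i
        by_cases hi : i = 0
        · subst hi
          simp [v, hu0']
        · simp [v, Pi.single_eq_of_ne hi, Function.update_of_ne hi]
      rw [h1, gm_add_smul]
      have h2 : gm M (0 : Fin (n + 1) → ℚ) = 0 := by
        ext j k
        simp [gm]
      rw [h2, zero_add, Matrix.det_smul]
      exact mul_ne_zero (pow_ne_zero _ (one_div_ne_zero hu0')) hs') 0
  rw [← gm_add_smul] at hr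
  refine ⟨Pi.single 0 1 + r • v, ?_, ?_⟩
  · simp [v]
  · have h3 : ((Pi.single 0 1 : Fin (n + 1) → ℚ) + (r : ℚ) • fun i => (v i : ℚ)) =
        fun i => (((Pi.single 0 1 + r • v : Fin (n + 1) → ℤ) i : ℤ) : ℚ) := by
      funext i
      simp only [Pi.add_apply, Pi.smul_apply, smul_eq_mul, Int.cast_add, Int.cast_mul]
      congr 1
      by_cases hi : i = 0
      · subst hi
        simp
      · simp [Pi.single_eq_of_ne hi]
    rw [h3, ← det_cast] at hr
    exact_mod_cast hr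

/-- the new linear system -/
def Mn (M : Fin (n + 1) → Matrix (Fin 3) (Fin 3) ℤ) (e : Fin (n + 1) → ℤ) :
    Fin (n + 1) → Matrix (Fin 3) (Fin 3) ℤ := Fin.cons (gm M e) fun i => M i.succ

/-- the new coordinates -/
def xn (e t : Fin (n + 1) → ℤ) : Fin n → ℤ := fun i => t i.succ - t 0 * e i.succ

theorem gm_new (M : Fin (n + 1) → Matrix (Fin 3) (Fin 3) ℤ) (e : Fin (n + 1) → ℤ) (he : e 0 = 1)
    (t : Fin (n + 1) → ℤ) :
    gm (Mn M e) (Fin.cons (t 0) (xn e t) : Fin (n + 1) → ℤ) = gm M t := by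
  ext j k
  simp only [gm, Mn, Fin.sum_univ_succ, Fin.cons_zero, Fin.cons_succ, xn, he, Int.cast_id,
    mul_add, mul_sum, sub_mul, sum_sub_distrib, one_mul]
  have : ∀ i : Fin n, t 0 * e i.succ * M i.succ j k = t 0 * (e i.succ * M i.succ j k) :=
    fun i => by ring
  rw [sum_congr rfl fun i _ => this i]
  ring

theorem symm_new (M : Fin (n + 1) → Matrix (Fin 3) (Fin 3) ℤ) (e : Fin (n + 1) → ℤ)
    (hM : ∀ i, (M i).IsSymm) : ∀ i, (Mn M e i).IsSymm := by
  intro i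
  refine Fin.cases ?_ (fun i => ?_) i
  · apply Matrix.IsSymm.ext
    intro j k
    simp only [Mn, Fin.cons_zero, gm]
    exact sum_congr rfl fun i _ => by rw [(hM i).apply]
  · exact hM i.succ

theorem ind_new (M : Fin (n + 1) → Matrix (Fin 3) (Fin 3) ℤ) (e : Fin (n + 1) → ℤ) (he : e 0 = 1)
    (hM : Ind M) : Ind (Mn M e) := by
  unfold Ind at hM ⊢
  rw [Fintype.linearIndependent_iff] at hM ⊢
  intro g hg
  have h1 := hM (Fin.cons (g 0) fun i => g 0 * e i.succ + g i.succ) (by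
    rw [← hg]
    ext j k
    simp only [Matrix.sum_apply, Matrix.smul_apply, Matrix.map_apply, smul_eq_mul, Mn, gm,
      Fin.sum_univ_succ, Fin.cons_zero, Fin.cons_succ, he, Int.cast_id, Int.cast_add,
      Int.cast_mul, Int.cast_sum, one_mul, mul_add, mul_sum, add_mul,
      sum_add_distrib, add_assoc, mul_assoc])
  have h0 : g 0 = 0 := h1 0
  intro i
  refine Fin.cases h0 (fun i => ?_) i
  have h2 := h1 i.succ
  rw [Fin.cons_succ, h0, zero_mul, zero_add] at h2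
  exact h2

/-- common divisors of the entries -/
theorem divi (M : Fin m → Matrix (Fin 3) (Fin 3) ℤ) (hM : Ind M) :
    ∃ C0 : ℕ, 1 ≤ C0 ∧ ∀ (x : Fin m → ℤ) (G : ℤ), (∀ j k, G ∣ gm M x j k) → ∀ i, G ∣ C0 * x i := by
  let v : Fin m → Matrix (Fin 3) (Fin 3) ℚ := fun i => (M i).map (Int.cast : ℤ → ℚ)
  have hv : LinearIndependent ℚ v := hM
  obtain ⟨g, hg⟩ := LinearMap.exists_leftInverse_of_injective (Fintype.linearCombination ℚ v)
    (LinearMap.ker_eq_bot'.2 fun y hy => by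
      rw [Fintype.linearCombination_apply] at hy
      exact funext (Fintype.linearIndependent_iff.1 hv y hy))
  let c : Fin 3 × Fin 3 × Fin m → ℚ := fun p => g (Matrix.single p.1 p.2.1 1) p.2.2
  obtain ⟨b, hb⟩ := IsLocalization.exist_integer_multiples_of_finite (nonZeroDivisors ℤ) c
  have hb0 : (b : ℤ) ≠ 0 := nonZeroDivisors.coe_ne_zero b
  choose z hz using hb
  have hz' : ∀ p, ((z p : ℤ) : ℚ) = (b : ℤ) * c p := by
    intro p
    have := hz p
    simpa [Algebra.smul_def] using this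
  refine ⟨(b : ℤ).natAbs, Int.natAbs_pos.2 hb0, ?_⟩
  intro x G hG i
  have h1 : (x i : ℚ) = g (gm M (fun i => (x i : ℚ))) i := by
    have h2 : gm M (fun i => (x i : ℚ)) = Fintype.linearCombination ℚ v (fun i => (x i : ℚ)) := by
      ext j k
      simp [gm, Fintype.linearCombination_apply, v, Matrix.sum_apply]
    rw [h2]
    have h3 := LinearMap.congr_fun hg (fun i => (x i : ℚ))
    rw [LinearMap.comp_apply, LinearMap.id_apply] at h3
    rw [h3]
  have h4 : ((b : ℤ) * x i : ℚ) = ((∑ j, ∑ k, gm M x j k * z (j, k, i) : ℤ) : ℚ) := by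
    rw [h1, ← gm_cast, Matrix.matrix_eq_sum_single ((gm M x).map (Int.cast : ℤ → ℚ))]
    simp only [map_sum, Finset.sum_apply, mul_sum]
    push_cast
    refine sum_congr rfl fun j _ => sum_congr rfl fun k _ => ?_
    rw [hz']
    have h5 : Matrix.single j k (((gm M x j k : ℤ)) : ℚ) =
        ((gm M x j k : ℤ) : ℚ) • Matrix.single j k (1 : ℚ) := by
      rw [Matrix.smul_single, smul_eq_mul, mul_one]
    rw [Matrix.map_apply, h5, map_smul, Pi.smul_apply, smul_eq_mul]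
    simp only [c]
    ring
  have h6 : (b : ℤ) * x i = ∑ j, ∑ k, gm M x j k * z (j, k, i) := by exact_mod_cast h4
  have h7 : G ∣ (b : ℤ) * x i := by
    rw [h6]
    exact dvd_sum fun j _ => dvd_sum fun k _ => (hG j k).mul_right _
  rcases Int.natAbs_eq (b : ℤ) with h | h
  · rw [← h]
    exact h7
  · rw [h] at h7
    rw [neg_mul] at h7
    exact (dvd_neg.1 h7)

/-! ### Sums of greatest common divisors -/

/-- the greatest common divisor -/
def gi (x : Fin n → ℤ) : ℕ := (Finset.univ.gcd x).natAbs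

theorem gi_dvd (x : Fin n → ℤ) (i : Fin n) : (gi x : ℤ) ∣ x i := by
  unfold gi
  rw [Int.natAbs_dvd]
  exact Finset.gcd_dvd (mem_univ i)

theorem gi_pos {x : Fin n → ℤ} (hx : x ≠ 0) : 1 ≤ gi x := by
  unfold gi
  rw [Nat.one_le_iff_ne_zero, Int.natAbs_ne_zero]
  intro h
  rw [Finset.gcd_eq_zero_iff] at h
  exact hx (funext fun i => h i (mem_univ i))

theorem dvd_gi (x : Fin n → ℤ) (K G : ℤ) (h : ∀ i, G ∣ K * x i) : G ∣ K * gi x := by
  have h1 : G ∣ Finset.univ.gcd fun i => K * x i := Finset.dvd_gcd fun i _ => h i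
  rw [Finset.gcd_mul_left] at h1
  have h2 : G ∣ K * Finset.univ.gcd x :=
    h1.trans (mul_dvd_mul_right (normalize_associated K).dvd _)
  unfold gi
  rcases Int.natAbs_eq (Finset.univ.gcd x) with h3 | h3
  · rw [← h3]
    exact h2
  · rw [h3, mul_neg] at h2
    exact dvd_neg.1 h2

theorem card_mult (Q c : ℕ) (hc : 1 ≤ c) :
    ((Icc (-(Q : ℤ)) Q).filter fun y => (c : ℤ) ∣ y).card ≤ 2 * (Q / c) + 1 := by
  have h1 : ((Icc (-(Q : ℤ)) Q).filter fun y => (c : ℤ) ∣ y) ⊆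
      (Icc (-((Q / c : ℕ) : ℤ)) ((Q / c : ℕ) : ℤ)).image fun y => (c : ℤ) * y := by
    intro y hy
    rw [mem_filter, mem_Icc] at hy
    obtain ⟨⟨h2, h3⟩, w, rfl⟩ := hy
    rw [mem_image]
    refine ⟨w, ?_, rfl⟩
    rw [mem_Icc]
    have hc' : (0 : ℤ) < c := by exact_mod_cast hc
    push_cast
    constructor
    · have : -w ≤ (Q : ℤ) / c := by
        rw [Int.le_ediv_iff_mul_le hc']
        nlinarith
      omega
    · rw [Int.le_ediv_iff_mul_le hc']
      nlinarith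
  refine (card_le_card h1).trans (card_image_le.trans ?_)
  rw [Int.card_Icc]
  omega

theorem card_mult_bx (n Q c : ℕ) (hc : 1 ≤ c) :
    ((bx n Q).filter fun x => ∀ i, (c : ℤ) ∣ x i).card ≤ (2 * (Q / c) + 1) ^ n := by
  have h1 : ((bx n Q).filter fun x => ∀ i, (c : ℤ) ∣ x i) =
      Fintype.piFinset fun _ : Fin n => (Icc (-(Q : ℤ)) Q).filter fun y => (c : ℤ) ∣ y := by
    ext x
    unfold bx
    simp only [mem_filter, Fintype.mem_piFinset]
    exact ⟨fun h i => ⟨h.1 i, h.2 i⟩, fun h => ⟨fun i => (h i).1, fun i => (h i).2⟩⟩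
  rw [h1, Fintype.card_piFinset, prod_const, card_univ, Fintype.card_fin]
  exact Nat.pow_le_pow_left (card_mult Q c hc) n

theorem gi_le {x : Fin n → ℤ} (hx : x ≠ 0) {Q : ℕ} (h : x ∈ bx n Q) : gi x ≤ Q := by
  obtain ⟨i, hi⟩ := Function.ne_iff.1 hx
  have h1 := Int.le_of_dvd (abs_pos.2 hi) ((dvd_abs _ _).2 (gi_dvd x i))
  have h2 := le_ht' x i
  have h3 := mem_bx.1 h
  have h4 : (gi x : ℤ) ≤ Q := h1.trans (h2.trans (by exact_mod_cast h3))
  exact_mod_cast h4

theorem sum_gi (n Q : ℕ) (hn : 2 ≤ n) (hQ : 1 ≤ Q) :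
    ∑ x ∈ (bx n Q).filter (fun x => x ≠ 0), (gi x : ℝ) ≤
      (3 * (Q : ℝ)) ^ n * (1 + Real.log Q) := by
  have h1 : ∀ x ∈ (bx n Q).filter (fun x => x ≠ 0), (gi x : ℝ) ≤
      ∑ c ∈ Icc 1 Q, if ∀ i, (c : ℤ) ∣ x i then (c : ℝ) else 0 := by
    intro x hx
    rw [mem_filter] at hx
    have h2 : gi x ∈ Icc 1 Q := mem_Icc.2 ⟨gi_pos hx.2, gi_le hx.2 hx.1⟩
    have h3 := single_le_sum (f := fun c : ℕ => if ∀ i, (c : ℤ) ∣ x i then (c : ℝ) else 0)
      (fun c _ => by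
        split_ifs
        · positivity
        · exact le_rfl) h2
    simp only [if_pos (gi_dvd x)] at h3
    exact h3
  refine (sum_le_sum h1).trans ?_
  rw [sum_comm]
  have h4 : ∀ c ∈ Icc 1 Q, ∑ x ∈ (bx n Q).filter (fun x => x ≠ 0),
      (if ∀ i, (c : ℤ) ∣ x i then (c : ℝ) else 0) ≤ (3 * (Q : ℝ)) ^ n * (1 / c) := by
    intro c hc
    rw [mem_Icc] at hc
    have hc0 : (0 : ℝ) < c := by exact_mod_cast hc.1
    have hc1 : (1 : ℝ) ≤ c := by exact_mod_cast hc.1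
    have h5 : ∑ x ∈ (bx n Q).filter (fun x => x ≠ 0),
        (if ∀ i, (c : ℤ) ∣ x i then (c : ℝ) else 0) ≤
        ((2 * (Q / c) + 1 : ℕ) : ℝ) ^ n * c := by
      rw [← sum_filter, sum_const, nsmul_eq_mul]
      refine mul_le_mul_of_nonneg_right ?_ hc0.le
      have h6 : ((((bx n Q).filter fun x => x ≠ 0).filter fun x => ∀ i, (c : ℤ) ∣ x i).card) ≤
          (2 * (Q / c) + 1) ^ n :=
        (card_le_card (filter_subset_filter _ (filter_subset _ _))).trans (card_mult_bx n Q c hc.1)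
      exact_mod_cast h6
    refine h5.trans ?_
    have h7 : ((2 * (Q / c) + 1 : ℕ) : ℝ) ≤ 3 * Q / c := by
      have h8 : ((Q / c : ℕ) : ℝ) ≤ Q / c := Nat.cast_div_le
      have h9 : (1 : ℝ) ≤ Q / c := by
        rw [le_div_iff₀ hc0, one_mul]
        exact_mod_cast hc.2
      push_cast
      rw [mul_div_assoc]
      linarith
    calc ((2 * (Q / c) + 1 : ℕ) : ℝ) ^ n * c ≤ (3 * Q / c) ^ n * c :=
          mul_le_mul_of_nonneg_right (pow_le_pow_left₀ (by positivity) h7 n) hc0.le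
      _ ≤ (3 * (Q : ℝ)) ^ n * (1 / c) := by
          rw [div_pow]
          have h10 : (c : ℝ) ^ 2 ≤ c ^ n := pow_le_pow_right₀ hc1 hn
          rw [div_mul_eq_mul_div, mul_one_div, div_le_div_iff₀ (by positivity) hc0]
          have h11 : (0 : ℝ) ≤ (3 * (Q : ℝ)) ^ n := by positivity
          nlinarith [mul_le_mul_of_nonneg_left h10 h11]
  refine (sum_le_sum h4).trans ?_
  rw [← mul_sum]
  refine mul_le_mul_of_nonneg_left ?_ (by positivity)
  have h12 := harmonic_le_one_add_log Q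
  have h13 : ((harmonic Q : ℚ) : ℝ) = ∑ c ∈ Icc 1 Q, 1 / (c : ℝ) := by
    rw [harmonic_eq_sum_Icc]
    push_cast
    exact sum_congr rfl fun c _ => by rw [one_div]
  rw [← h13]
  exact h12

/-! ### Zeros and values of polynomials in a box -/

theorem zeros (R : MvPolynomial (Fin n) ℤ) (hR : R ≠ 0) (hn : 1 ≤ n) (Q : ℕ) :
    ((bx n Q).filter fun x => MvPolynomial.eval x R = 0).card ≤
      R.totalDegree * (2 * Q + 1) ^ (n - 1) := by
  have h1 := MvPolynomial.schwartz_zippel_totalDegree hR (Icc (-(Q : ℤ)) Q)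
  have h2 : (Icc (-(Q : ℤ)) Q).card = 2 * Q + 1 := by
    rw [Int.card_Icc]
    omega
  rw [h2] at h1
  have h3 : (0 : ℚ≥0) < ((2 * Q + 1 : ℕ) : ℚ≥0) := by exact_mod_cast Nat.succ_pos _
  rw [div_le_div_iff₀ (by positivity) h3] at h1
  have h4 : ((2 * Q + 1 : ℕ) : ℚ≥0) ^ n = ((2 * Q + 1 : ℕ) : ℚ≥0) ^ (n - 1) * ((2 * Q + 1 : ℕ) : ℚ≥0) := by
    rw [← pow_succ]
    congr 1
    omega
  rw [h4, ← mul_assoc] at h1
  have h5 := le_of_mul_le_mul_right h1 h3
  unfold bx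
  exact_mod_cast h5

theorem size (R : MvPolynomial (Fin n) ℤ) : ∃ C D : ℕ, ∀ Q : ℕ, 1 ≤ Q → ∀ x ∈ bx n Q,
    |MvPolynomial.eval x R| ≤ (C : ℤ) * (Q : ℤ) ^ D := by
  induction R using MvPolynomial.induction_on with
  | C a =>
    refine ⟨a.natAbs, 0, fun Q hQ x hx => ?_⟩
    rw [MvPolynomial.eval_C, pow_zero, mul_one, Int.abs_eq_natAbs]
  | add p q hp hq =>
    obtain ⟨C1, D1, h1⟩ := hp
    obtain ⟨C2, D2, h2⟩ := hq
    refine ⟨C1 + C2, max D1 D2, fun Q hQ x hx => ?_⟩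
    rw [map_add]
    refine (abs_add_le _ _).trans ?_
    have hQ' : (1 : ℤ) ≤ Q := by exact_mod_cast hQ
    have h3 : (Q : ℤ) ^ D1 ≤ (Q : ℤ) ^ max D1 D2 := pow_le_pow_right₀ hQ' (le_max_left _ _)
    have h4 : (Q : ℤ) ^ D2 ≤ (Q : ℤ) ^ max D1 D2 := pow_le_pow_right₀ hQ' (le_max_right _ _)
    have h5 := h1 Q hQ x hx
    have h6 := h2 Q hQ x hx
    push_cast
    have h7 := mul_le_mul_of_nonneg_left h3 (Int.natCast_nonneg C1)
    have h8 := mul_le_mul_of_nonneg_left h4 (Int.natCast_nonneg C2)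
    rw [add_mul]
    linarith
  | mul_X p i hp =>
    obtain ⟨C1, D1, h1⟩ := hp
    refine ⟨C1, D1 + 1, fun Q hQ x hx => ?_⟩
    rw [map_mul, MvPolynomial.eval_X, abs_mul, pow_succ, ← mul_assoc]
    refine mul_le_mul (h1 Q hQ x hx) ?_ (abs_nonneg _) (by positivity)
    have h3 := mem_bx.1 hx
    exact (le_ht' x i).trans (by exact_mod_cast h3)

/-! ### The sum over a line -/

theorem wt_le_one (A : Matrix (Fin 3) (Fin 3) ℤ) : wt A ≤ 1 := min_le_left _ _

theorem wt_nonneg (A : Matrix (Fin 3) (Fin 3) ℤ) : 0 ≤ wt A :=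
  le_min zero_le_one (by positivity)

theorem gm_cons (M : Fin (n + 1) → Matrix (Fin 3) (Fin 3) ℤ) (t : ℤ) (x : Fin n → ℤ) :
    gm M (Fin.cons t x : Fin (n + 1) → ℤ) = gm M (Fin.cons 0 x : Fin (n + 1) → ℤ) + t • M 0 := by
  ext j k
  simp only [gm, Fin.sum_univ_succ, Fin.cons_zero, Fin.cons_succ, Matrix.add_apply,
    Matrix.smul_apply, smul_eq_mul, Int.cast_id]
  ring

/-- the sum over the line through `x` -/
noncomputable def S (M : Fin (n + 1) → Matrix (Fin 3) (Fin 3) ℤ) (P : ℕ) (x : Fin n → ℤ) : ℝ :=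
  ∑ t ∈ (Icc (-(P : ℤ)) P).filter (fun t => (gm M (Fin.cons t x : Fin (n + 1) → ℤ)).det ≠ 0),
    wt (gm M (Fin.cons t x : Fin (n + 1) → ℤ))

theorem S_nonneg (M : Fin (n + 1) → Matrix (Fin 3) (Fin 3) ℤ) (P : ℕ) (x : Fin n → ℤ) :
    0 ≤ S M P x := sum_nonneg fun _ _ => wt_nonneg _

theorem S_le (M : Fin (n + 1) → Matrix (Fin 3) (Fin 3) ℤ) (P : ℕ) (x : Fin n → ℤ) :
    S M P x ≤ 2 * P + 1 := by
  unfold S
  refine (sum_le_sum fun t _ => wt_le_one _).trans ?_
  rw [sum_const, nsmul_eq_mul, mul_one]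
  have h : (((Icc (-(P : ℤ)) P).filter fun t =>
      (gm M (Fin.cons t x : Fin (n + 1) → ℤ)).det ≠ 0).card) ≤ 2 * P + 1 := by
    refine (card_filter_le _ _).trans ?_
    rw [Int.card_Icc]
    omega
  exact_mod_cast h

theorem S_good (hS : S_SPC) {CL : ℝ} (hL : ∀ (B E : Matrix (Fin 3) (Fin 3) ℤ) (h : ℕ) (R : ℤ)
      (P : ℕ), E.det ≠ 0 → 1 ≤ h → R ≠ 0 → 1 ≤ P →
      (∀ s t G : ℤ, (∀ i j, G ∣ (B + s • E).adjugate i j) →
        (∀ i j, G ∣ (B + t • E).adjugate i j) → G ∣ h * (t - s)) →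
      (∀ t G : ℤ, (∀ i j, G ∣ (B + t • E).adjugate i j) → G ∣ R) →
      ∑ t ∈ (Icc (-(P : ℤ)) P).filter (fun t => (B + t • E).det ≠ 0), wt (B + t • E) ≤
        CL * (R.natAbs.divisors.card : ℝ) * h * (1 + Real.log P))
    (M : Fin (n + 1) → Matrix (Fin 3) (Fin 3) ℤ) (hM : (M 0).det ≠ 0) (C0 : ℕ) (hC0 : 1 ≤ C0)
    (hdiv : ∀ (x : Fin (n + 1) → ℤ) (G : ℤ), (∀ j k, G ∣ gm M x j k) → ∀ i, G ∣ C0 * x i)
    (R : MvPolynomial (Fin n) ℤ) (hR : ∀ (x : Fin n → ℤ) (t G : ℤ),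
      (∀ i j, G ∣ (gm M (Fin.cons t x : Fin (n + 1) → ℤ)).adjugate i j) →
      G ∣ MvPolynomial.eval x R) (P : ℕ) (hP : 1 ≤ P) (x : Fin n → ℤ) (hx : x ≠ 0)
    (hRx : MvPolynomial.eval x R ≠ 0) :
    S M P x ≤ CL * ((MvPolynomial.eval x R).natAbs.divisors.card : ℝ) *
      ((2 * (M 0).det.natAbs * C0 * gi x : ℕ) : ℝ) * (1 + Real.log P) := by
  have h1 := hL (gm M (Fin.cons 0 x : Fin (n + 1) → ℤ)) (M 0) (2 * (M 0).det.natAbs * C0 * gi x)
    (MvPolynomial.eval x R) P hM ?_ hRx hP ?_ ?_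
  · unfold S
    have h2 : ∀ t : ℤ, gm M (Fin.cons 0 x : Fin (n + 1) → ℤ) + t • M 0 =
        gm M (Fin.cons t x : Fin (n + 1) → ℤ) := fun t => (gm_cons M t x).symm
    simp only [h2] at h1
    exact h1
  · have h3 := Int.natAbs_pos.2 hM
    have h4 := gi_pos hx
    exact Nat.one_le_iff_ne_zero.2 (by positivity)
  · intro s t G hs ht
    have h2 := hS _ _ s t G hs ht
    have h3 := hdiv (fun j => (t - s) * (M 0).det * (Fin.cons (s + t) (fun i => 2 * x i) :
      Fin (n + 1) → ℤ) j) G (fun j k => by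
        have h4 := h2 j k
        convert! h4 using 1
        simp only [gm, Fin.sum_univ_succ, Fin.cons_zero, Fin.cons_succ, Matrix.add_apply,
          Matrix.smul_apply, smul_eq_mul, Int.cast_id, mul_add, mul_sum, zero_mul,
          zero_add]
        rw [add_comm]
        congr 1
        · exact sum_congr rfl fun i _ => by ring
        · ring)
    have h5 : ∀ i, G ∣ (C0 * ((t - s) * (M 0).det * 2)) * x i := by
      intro i
      have h6 := h3 i.succ
      rw [Fin.cons_succ] at h6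
      convert! h6 using 1
      ring
    have h7 := dvd_gi x _ G h5
    have h8 := Int.natAbs_eq (M 0).det
    obtain ⟨N, hN⟩ : ∃ N : ℕ, N = (M 0).det.natAbs := ⟨_, rfl⟩
    rw [← hN] at h8
    rw [← hN]
    push_cast
    rcases h8 with h8 | h8
    · rw [h8] at h7
      convert! h7 using 1
      ring
    · rw [h8] at h7
      rw [← dvd_neg] at h7
      convert! h7 using 1
      ring
  · intro t G ht
    refine hR x t G fun i j => ?_
    rw [gm_cons M t x]
    exact ht i j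

/-! ### The change of the coordinates in the sum -/

theorem xn_mem (e : Fin (n + 1) → ℤ) {P : ℕ} {t : Fin (n + 1) → ℤ} (h : t ∈ bx (n + 1) P) :
    xn e t ∈ bx n ((1 + ht e) * P) := by
  rw [mem_bx] at h ⊢
  apply ht_le
  intro i
  unfold xn
  have h1 : |t i.succ| ≤ (P : ℤ) := (le_ht' t _).trans (by exact_mod_cast h)
  have h2 : |t 0| ≤ (P : ℤ) := (le_ht' t _).trans (by exact_mod_cast h)
  have h3 := le_ht' e i.succ
  refine (abs_sub _ _).trans ?_
  rw [abs_mul]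
  have h4 : |t 0| * |e i.succ| ≤ (P : ℤ) * (ht e : ℤ) :=
    mul_le_mul h2 h3 (abs_nonneg _) (by positivity)
  push_cast
  nlinarith

theorem sum_change (M : Fin (n + 1) → Matrix (Fin 3) (Fin 3) ℤ) (e : Fin (n + 1) → ℤ)
    (he : e 0 = 1) (P : ℕ) :
    ∑ t ∈ (bx (n + 1) P).filter (fun t => (gm M t).det ≠ 0), wt (gm M t) ≤
      ∑ x ∈ bx n ((1 + ht e) * P), S (Mn M e) P x := by
  have h1 : ∑ x ∈ bx n ((1 + ht e) * P), S (Mn M e) P x =
      ∑ z ∈ ((bx n ((1 + ht e) * P)) ×ˢ (Icc (-(P : ℤ)) P)).filter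
        (fun z => (gm (Mn M e) (Fin.cons z.2 z.1 : Fin (n + 1) → ℤ)).det ≠ 0),
        wt (gm (Mn M e) (Fin.cons z.2 z.1 : Fin (n + 1) → ℤ)) := by
    rw [sum_filter, sum_product]
    refine sum_congr rfl fun x _ => ?_
    unfold S
    rw [sum_filter]
  rw [h1]
  have h2 : ∑ t ∈ (bx (n + 1) P).filter (fun t => (gm M t).det ≠ 0), wt (gm M t) =
      ∑ z ∈ ((bx (n + 1) P).filter (fun t => (gm M t).det ≠ 0)).image (fun t => (xn e t, t 0)),
        wt (gm (Mn M e) (Fin.cons z.2 z.1 : Fin (n + 1) → ℤ)) := by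
    rw [sum_image]
    · refine sum_congr rfl fun t _ => ?_
      rw [gm_new M e he]
    · intro t _ t' _ h
      simp only [Prod.mk.injEq] at h
      funext i
      refine Fin.cases h.2 (fun i => ?_) i
      have h3 := congrFun h.1 i
      unfold xn at h3
      rw [h.2] at h3
      linarith
  rw [h2]
  refine sum_le_sum_of_subset_of_nonneg ?_ fun _ _ _ => wt_nonneg _
  intro z hz
  rw [mem_image] at hz
  obtain ⟨t, ht, rfl⟩ := hz
  rw [mem_filter] at ht
  rw [mem_filter, mem_product]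
  refine ⟨⟨xn_mem e ht.1, ?_⟩, ?_⟩
  · have h3 : |t 0| ≤ (P : ℤ) := (le_ht' t _).trans (by exact_mod_cast mem_bx.1 ht.1)
    rw [mem_Icc]
    exact abs_le.1 h3
  · simp only
    rw [gm_new M e he]
    exact ht.2

/-! ### The estimates -/

theorem sum_bad (M : Fin (n + 1) → Matrix (Fin 3) (Fin 3) ℤ) (R : MvPolynomial (Fin n) ℤ)
    (hR : R ≠ 0) (hn : 1 ≤ n) (P Q : ℕ) :
    ∑ x ∈ (bx n Q).filter (fun x => ¬ (x ≠ 0 ∧ MvPolynomial.eval x R ≠ 0)), S M P x ≤
      (1 + R.totalDegree : ℝ) * (2 * Q + 1) ^ (n - 1) * (2 * P + 1) := by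
  refine (sum_le_sum fun x _ => S_le M P x).trans ?_
  rw [sum_const, nsmul_eq_mul]
  refine mul_le_mul_of_nonneg_right ?_ (by positivity)
  have h1 : ((bx n Q).filter fun x => ¬ (x ≠ 0 ∧ MvPolynomial.eval x R ≠ 0)) ⊆
      {0} ∪ ((bx n Q).filter fun x => MvPolynomial.eval x R = 0) := by
    intro x hx
    rw [mem_filter] at hx
    rw [mem_union, mem_singleton, mem_filter]
    by_cases h : x = 0
    · exact Or.inl h
    · refine Or.inr ⟨hx.1, ?_⟩
      by_contra h2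
      exact hx.2 ⟨h, h2⟩
  have h2 : ((bx n Q).filter fun x => ¬ (x ≠ 0 ∧ MvPolynomial.eval x R ≠ 0)).card ≤
      (1 + R.totalDegree) * (2 * Q + 1) ^ (n - 1) := by
    refine (card_le_card h1).trans ((card_union_le _ _).trans ?_)
    rw [card_singleton, add_mul, one_mul]
    exact add_le_add (Nat.one_le_pow _ _ (Nat.succ_pos _)) (zeros R hR hn Q)
  exact_mod_cast h2

end Pool.Agent.N852.QN.Sumc

namespace Pool.Agent.N852.QN

open Matrix Finset
open Pool.Agent.H548.WM (ht bx Rep)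
open Sumc

theorem sumcP (hS : S_SPC) (hL : S_LIN) (hE : S_EXC) : S_SUMC := by
  intro n M hn hsym hind hdet ε hε
  obtain ⟨e, he, hde⟩ := exists_e M hdet
  obtain ⟨C0, hC0, hdiv⟩ := divi (Mn M e) (ind_new M e he hind)
  have hM0 : (Mn M e 0).det ≠ 0 := hde
  obtain ⟨R, hR, hRd⟩ := hE n (Mn M e) hn (symm_new M e hsym) (ind_new M e he hind) hM0
  obtain ⟨CL, hCL, hlin⟩ := hL
  obtain ⟨CR, D, hsize⟩ := size R
  set δ : ℝ := ε / (4 * (D + 1)) with hδd
  have hδ : 0 < δ := by positivity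
  obtain ⟨Cd, hCd, hdb⟩ := Pool.Agent.N852.divisor_bound δ hδ
  set H : ℕ := ht e with hH
  set N : ℕ := (Mn M e 0).det.natAbs with hN
  set A : ℝ := (CR + 1) * (1 + H) ^ D with hA
  have hA0 : 0 < A := by positivity
  set L : ℝ := 1 + Real.log (1 + H) with hLd
  have hL1 : 0 ≤ Real.log (1 + (H : ℝ)) := Real.log_nonneg (by
    have : (0 : ℝ) ≤ H := Nat.cast_nonneg _
    linarith)
  have hL0 : 1 ≤ L := by rw [hLd]; linarith
  refine ⟨(1 + R.totalDegree : ℝ) * (3 * (1 + H)) ^ n +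
    CL * (Cd * A ^ δ) * (2 * N * C0) * (1 + 4 / ε) * ((3 * (1 + H)) ^ n * (L * (1 + 4 / ε))),
    by positivity, ?_⟩
  intro P hP
  refine (sum_change M e he P).trans ?_
  rw [← hH]
  set Q : ℕ := (1 + H) * P with hQ
  have hQ1 : 1 ≤ Q := Nat.one_le_iff_ne_zero.2 (by positivity)
  have hX1 : (1 : ℝ) ≤ P := by exact_mod_cast hP
  have hX0 : (0 : ℝ) < P := by linarith
  have hQX : (Q : ℝ) = (1 + H) * P := by rw [hQ]; push_cast; ring
  set Y : ℝ := (P : ℝ) ^ (ε / 4) with hY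
  have hY1 : 1 ≤ Y := Real.one_le_rpow hX1 (by positivity)
  have hY0 : 0 < Y := by linarith
  have hY4 : Y ^ 4 = (P : ℝ) ^ ε := by
    rw [hY, ← Real.rpow_natCast, ← Real.rpow_mul hX0.le]
    congr 1
    push_cast
    ring
  have hlogP0 : 0 ≤ Real.log P := Real.log_nonneg hX1
  have hlogP : 1 + Real.log P ≤ (1 + 4 / ε) * Y := by
    have h1 := Real.log_le_rpow_div hX0.le (ε := ε / 4) (by positivity)
    rw [← hY] at h1
    have h2 : Y / (ε / 4) = 4 / ε * Y := by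
      field_simp
    rw [h2] at h1
    nlinarith
  have hlogQ : 1 + Real.log Q ≤ L * (1 + Real.log P) := by
    rw [hQX, Real.log_mul (by positivity) hX0.ne', hLd]
    nlinarith
  rw [← sum_filter_add_sum_filter_not (bx n Q)
    (fun x => x ≠ 0 ∧ MvPolynomial.eval x R ≠ 0)]
  -- the bad part
  have hbad : ∑ x ∈ (bx n Q).filter (fun x => ¬ (x ≠ 0 ∧ MvPolynomial.eval x R ≠ 0)),
      S (Mn M e) P x ≤ (1 + R.totalDegree : ℝ) * (3 * (1 + H)) ^ n * (P : ℝ) ^ n * (P : ℝ) ^ ε := by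
    refine (sum_bad (Mn M e) R hR (by omega) P Q).trans ?_
    have h1 : (2 * (Q : ℝ) + 1) ≤ 3 * (1 + H) * P := by
      have : (1 : ℝ) ≤ Q := by exact_mod_cast hQ1
      rw [mul_assoc, ← hQX]
      linarith
    have h2 : (2 * (P : ℝ) + 1) ≤ 3 * (1 + H) * P := by
      have : (0 : ℝ) ≤ (H : ℝ) * P := by positivity
      nlinarith
    have h3 : (2 * (Q : ℝ) + 1) ^ (n - 1) * (2 * P + 1) ≤ (3 * (1 + H) * P) ^ n := by
      calc (2 * (Q : ℝ) + 1) ^ (n - 1) * (2 * P + 1)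
          ≤ (3 * (1 + H) * P) ^ (n - 1) * (3 * (1 + H) * P) :=
            mul_le_mul (pow_le_pow_left₀ (by positivity) h1 _) h2 (by positivity) (by positivity)
        _ = (3 * (1 + H) * P) ^ n := by
            rw [← pow_succ]
            congr 1
            omega
    have h4 : (1 : ℝ) ≤ (P : ℝ) ^ ε := Real.one_le_rpow hX1 hε.le
    calc (1 + R.totalDegree : ℝ) * (2 * Q + 1) ^ (n - 1) * (2 * P + 1)
        = (1 + R.totalDegree : ℝ) * ((2 * Q + 1) ^ (n - 1) * (2 * P + 1)) := by ring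
      _ ≤ (1 + R.totalDegree : ℝ) * (3 * (1 + H) * P) ^ n :=
          mul_le_mul_of_nonneg_left h3 (by positivity)
      _ = (1 + R.totalDegree : ℝ) * (3 * (1 + H)) ^ n * (P : ℝ) ^ n * 1 := by
          rw [mul_pow _ (P : ℝ)]
          ring
      _ ≤ _ := mul_le_mul_of_nonneg_left h4 (by positivity)
  -- the good part
  have hterm : ∀ x ∈ (bx n Q).filter (fun x => x ≠ 0 ∧ MvPolynomial.eval x R ≠ 0),
      S (Mn M e) P x ≤ CL * (Cd * (A ^ δ * Y)) * (2 * N * C0) * ((1 + 4 / ε) * Y) * (gi x : ℝ) := by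
    intro x hx
    rw [mem_filter] at hx
    refine (S_good hS hlin (Mn M e) hM0 C0 hC0 hdiv R hRd P hP x hx.2.1 hx.2.2).trans ?_
    rw [← hN]
    have h1 : ((MvPolynomial.eval x R).natAbs.divisors.card : ℝ) ≤ Cd * (A ^ δ * Y) := by
      refine (hdb _ (Int.natAbs_ne_zero.2 hx.2.2)).trans ?_
      refine mul_le_mul_of_nonneg_left ?_ hCd.le
      have h2 : (((MvPolynomial.eval x R).natAbs : ℕ) : ℝ) ≤ A * (P : ℝ) ^ D := by
        have h3 := hsize Q hQ1 x hx.1
        rw [Int.abs_eq_natAbs] at h3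
        have h4 : (((MvPolynomial.eval x R).natAbs : ℕ) : ℝ) ≤ (CR : ℝ) * (Q : ℝ) ^ D := by
          exact_mod_cast h3
        refine h4.trans ?_
        rw [hQX, mul_pow, hA, ← mul_assoc]
        refine mul_le_mul_of_nonneg_right ?_ (by positivity)
        refine mul_le_mul_of_nonneg_right ?_ (by positivity)
        linarith
      calc (((MvPolynomial.eval x R).natAbs : ℕ) : ℝ) ^ δ ≤ (A * (P : ℝ) ^ D) ^ δ :=
            Real.rpow_le_rpow (by positivity) h2 hδ.le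
        _ = A ^ δ * (P : ℝ) ^ (D * δ) := by
            rw [Real.mul_rpow hA0.le (by positivity), ← Real.rpow_natCast (P : ℝ) D,
              ← Real.rpow_mul hX0.le]
        _ ≤ A ^ δ * Y := by
            refine mul_le_mul_of_nonneg_left ?_ (by positivity)
            rw [hY]
            refine Real.rpow_le_rpow_of_exponent_le hX1 ?_
            rw [hδd, mul_div_assoc', div_le_div_iff₀ (by positivity) (by norm_num)]
            nlinarith
    have h5 : ((2 * N * C0 * gi x : ℕ) : ℝ) = (2 * N * C0) * (gi x : ℝ) := by push_cast; ring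
    rw [h5]
    have h6 : (0 : ℝ) ≤ ((MvPolynomial.eval x R).natAbs.divisors.card : ℝ) := by positivity
    have h7 : CL * ((MvPolynomial.eval x R).natAbs.divisors.card : ℝ) * (1 + Real.log P) ≤
        CL * (Cd * (A ^ δ * Y)) * ((1 + 4 / ε) * Y) :=
      mul_le_mul (mul_le_mul_of_nonneg_left h1 hCL) hlogP (by positivity) (by positivity)
    have h8 := mul_le_mul_of_nonneg_right h7 (show (0 : ℝ) ≤ (2 * N * C0) * (gi x : ℝ) by positivity)
    calc _ = CL * ((MvPolynomial.eval x R).natAbs.divisors.card : ℝ) * (1 + Real.log P) *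
          ((2 * N * C0) * (gi x : ℝ)) := by ring
      _ ≤ _ := h8
      _ = _ := by ring
  have hgood : ∑ x ∈ (bx n Q).filter (fun x => x ≠ 0 ∧ MvPolynomial.eval x R ≠ 0),
      S (Mn M e) P x ≤ CL * (Cd * A ^ δ) * (2 * N * C0) * (1 + 4 / ε) *
        ((3 * (1 + H)) ^ n * (L * (1 + 4 / ε))) * (P : ℝ) ^ n * (P : ℝ) ^ ε := by
    refine (sum_le_sum hterm).trans ?_
    rw [← mul_sum]
    have h1 : ∑ x ∈ (bx n Q).filter (fun x => x ≠ 0 ∧ MvPolynomial.eval x R ≠ 0), (gi x : ℝ) ≤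
        (3 * (1 + H)) ^ n * (P : ℝ) ^ n * (L * ((1 + 4 / ε) * Y)) := by
      have h2 : ∑ x ∈ (bx n Q).filter (fun x => x ≠ 0 ∧ MvPolynomial.eval x R ≠ 0), (gi x : ℝ) ≤
          ∑ x ∈ (bx n Q).filter (fun x => x ≠ 0), (gi x : ℝ) := by
        refine sum_le_sum_of_subset_of_nonneg ?_ fun _ _ _ => by positivity
        intro x hx
        rw [mem_filter] at hx ⊢
        exact ⟨hx.1, hx.2.1⟩
      refine h2.trans ((sum_gi n Q hn hQ1).trans ?_)
      have h3 : (3 * (Q : ℝ)) ^ n = (3 * (1 + H)) ^ n * (P : ℝ) ^ n := by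
        rw [hQX, ← mul_pow]
        congr 1
        ring
      rw [h3]
      refine mul_le_mul_of_nonneg_left ?_ (by positivity)
      exact hlogQ.trans (mul_le_mul_of_nonneg_left hlogP (by linarith))
    refine (mul_le_mul_of_nonneg_left h1 (by positivity)).trans ?_
    have h9 : Y * Y * Y ≤ (P : ℝ) ^ ε := by
      rw [← hY4]
      nlinarith [mul_pos hY0 (mul_pos hY0 hY0)]
    calc CL * (Cd * (A ^ δ * Y)) * (2 * N * C0) * ((1 + 4 / ε) * Y) *
          ((3 * (1 + H)) ^ n * (P : ℝ) ^ n * (L * ((1 + 4 / ε) * Y)))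
        = CL * (Cd * A ^ δ) * (2 * N * C0) * (1 + 4 / ε) *
          ((3 * (1 + H)) ^ n * (L * (1 + 4 / ε))) * (P : ℝ) ^ n * (Y * Y * Y) := by ring
      _ ≤ _ := mul_le_mul_of_nonneg_left h9 (by positivity)
  calc _ ≤ CL * (Cd * A ^ δ) * (2 * N * C0) * (1 + 4 / ε) *
        ((3 * (1 + H)) ^ n * (L * (1 + 4 / ε))) * (P : ℝ) ^ n * (P : ℝ) ^ ε +
      (1 + R.totalDegree : ℝ) * (3 * (1 + H)) ^ n * (P : ℝ) ^ n * (P : ℝ) ^ ε :=
        add_le_add hgood hbad
    _ = _ := by ring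

end Pool.Agent.N852.QN
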