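import Pool.Agent.N852.QN.Stm

/-!
# Project QN (helper852), part UB (helper364): uniform bound for the number of rational points of a
conic
-/

set_option autoImplicit false

namespace Pool.Agent.N852.QN.Ub

open Matrix Finset
open Pool.Agent.H548.WM (ht bx Rep le_ht le_ht')

/-! ### Algebra -/

/-- the bilinear form -/
def bl {R : Type*} [CommRing R] (A : Matrix (Fin 3) (Fin 3) R) (x y : Fin 3 → R) : R :=
  x ⬝ᵥ A.mulVec y

section alg

variable {R : Type*} [CommRing R]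

lemma qf_eq {A : Matrix (Fin 3) (Fin 3) R} (hA : A.IsSymm) (x : Fin 3 → R) :
    qf A x = A 0 0 * x 0 ^ 2 + A 1 1 * x 1 ^ 2 + A 2 2 * x 2 ^ 2 + 2 * (A 0 1 * (x 0 * x 1)) +
      2 * (A 0 2 * (x 0 * x 2)) + 2 * (A 1 2 * (x 1 * x 2)) := by
  have h1 := hA.apply 0 1
  have h2 := hA.apply 0 2
  have h3 := hA.apply 1 2
  simp only [qf, Matrix.mulVec, dotProduct, Fin.sum_univ_three]
  rw [h1, h2, h3]
  ring

lemma bl_eq {A : Matrix (Fin 3) (Fin 3) R} (hA : A.IsSymm) (x y : Fin 3 → R) :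
    bl A x y = A 0 0 * (x 0 * y 0) + A 1 1 * (x 1 * y 1) + A 2 2 * (x 2 * y 2) +
      A 0 1 * (x 0 * y 1 + x 1 * y 0) + A 0 2 * (x 0 * y 2 + x 2 * y 0) +
      A 1 2 * (x 1 * y 2 + x 2 * y 1) := by
  have h1 := hA.apply 0 1
  have h2 := hA.apply 0 2
  have h3 := hA.apply 1 2
  simp only [bl, Matrix.mulVec, dotProduct, Fin.sum_univ_three]
  rw [h1, h2, h3]
  ring

lemma bl_comm {A : Matrix (Fin 3) (Fin 3) R} (hA : A.IsSymm) (x y : Fin 3 → R) :
    bl A x y = bl A y x := by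
  rw [bl_eq hA, bl_eq hA]
  ring

lemma gram_apply (A : Matrix (Fin 3) (Fin 3) R) (P : Matrix (Fin 3) (Fin 3) R) (i j : Fin 3) :
    (P * A * Pᵀ) i j = bl A (P i) (P j) := by
  unfold bl
  rw [Matrix.dotProduct_mulVec]
  rfl

/-- the Gram identity -/
lemma gram {A : Matrix (Fin 3) (Fin 3) R} (hA : A.IsSymm) (x y z : Fin 3 → R)
    (hx : qf A x = 0) (hy : qf A y = 0) :
    2 * bl A x y * bl A x z * bl A y z - bl A x y ^ 2 * qf A z =
      A.det * (Matrix.det (Matrix.of ![x, y, z])) ^ 2 := by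
  have h1 : (Matrix.of ![x, y, z] * A * (Matrix.of ![x, y, z])ᵀ).det =
      A.det * (Matrix.det (Matrix.of ![x, y, z])) ^ 2 := by
    rw [Matrix.det_mul, Matrix.det_mul, Matrix.det_transpose]
    ring
  rw [← h1, Matrix.det_fin_three]
  simp only [gram_apply]
  have e0 : (Matrix.of ![x, y, z]) 0 = x := rfl
  have e1 : (Matrix.of ![x, y, z]) 1 = y := rfl
  have e2 : (Matrix.of ![x, y, z]) 2 = z := rfl
  rw [e0, e1, e2]
  have hx' : bl A x x = 0 := hx
  have hy' : bl A y y = 0 := hy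
  have hz' : bl A z z = qf A z := rfl
  rw [hx', hy', hz', bl_comm hA y x, bl_comm hA z x, bl_comm hA z y]
  ring

lemma qf_sub {A : Matrix (Fin 3) (Fin 3) R} (hA : A.IsSymm) (x y : Fin 3 → R) (l : R) :
    qf A (fun i => x i - l * y i) = qf A x - 2 * l * bl A x y + l ^ 2 * qf A y := by
  rw [qf_eq hA, qf_eq hA, qf_eq hA, bl_eq hA]
  ring

lemma qf_smul {A : Matrix (Fin 3) (Fin 3) R} (hA : A.IsSymm) (x : Fin 3 → R) (l : R) :
    qf A (fun i => l * x i) = l ^ 2 * qf A x := by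
  rw [qf_eq hA, qf_eq hA]
  ring

end alg

/-! ### Representatives -/

lemma gcd_smul {x : Fin 3 → ℤ} (hx : Finset.univ.gcd x = 1) {a : ℤ} (ha : 0 < a) :
    Finset.univ.gcd (fun i => a * x i) = a := by
  rw [Finset.gcd_mul_left, hx, mul_one, Int.normalize_of_nonneg ha.le]

/-- proportional representatives are equal -/
lemma rep_eq {x y : Fin 3 → ℤ} (hx : Rep x) (hy : Rep y) (h : ∀ i j, x i * y j = x j * y i) :
    x = y := by
  obtain ⟨hx1, i, hi, hi'⟩ := hx
  obtain ⟨hy1, j, hj, hj'⟩ := hy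
  have h1 : ∀ k < i, y k = 0 := by
    intro k hk
    have h2 := h i k
    rw [hi' k hk, zero_mul] at h2
    exact (mul_eq_zero.1 h2).resolve_left hi.ne'
  have h2 : ¬ j < i := fun hji => hj.ne' (h1 j hji)
  have h3 : ¬ i < j := by
    intro hij
    have h4 := h i j
    rw [hj' i hij, mul_zero] at h4
    rcases mul_eq_zero.1 h4 with h5 | h5
    · exact hi.ne' h5
    · exact hj.ne' h5
  have hij : i = j := le_antisymm (not_lt.1 h2) (not_lt.1 h3)
  subst hij
  have h5 : (fun k => x i * y k) = fun k => y i * x k := by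
    funext k
    rw [h i k, mul_comm]
  have h6 : x i = y i := by
    rw [← gcd_smul hy1 hi, h5, gcd_smul hx1 hj]
  funext k
  have h7 : x i * y k = y i * x k := congrFun h5 k
  rw [← h6] at h7
  exact (mul_left_cancel₀ hi.ne' h7).symm

/-- two orthogonal points of the conic are equal -/
lemma eq_of_bl {M : Matrix (Fin 3) (Fin 3) ℤ} (hM : M.IsSymm) (hd : M.det ≠ 0) {x y : Fin 3 → ℤ}
    (hx : Rep x) (hy : Rep y) (hqx : qf M x = 0) (hqy : qf M y = 0) (hb : bl M x y = 0) :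
    x = y := by
  have h1 : ∀ z : Fin 3 → ℤ, Matrix.det (Matrix.of ![x, y, z]) = 0 := by
    intro z
    have h2 := gram hM x y z hqx hqy
    rw [hb] at h2
    have h3 : M.det * Matrix.det (Matrix.of ![x, y, z]) ^ 2 = 0 := by
      rw [← h2]
      ring
    exact pow_eq_zero_iff (two_ne_zero) |>.1 ((mul_eq_zero.1 h3).resolve_left hd)
  have e0 := h1 ![1, 0, 0]
  have e1 := h1 ![0, 1, 0]
  have e2 := h1 ![0, 0, 1]
  rw [Matrix.det_fin_three] at e0 e1 e2
  simp at e0 e1 e2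
  refine rep_eq hx hy ?_
  intro i j
  fin_cases i <;> fin_cases j <;> simp <;> linarith

/-! ### Divisibility -/

lemma dvd_bl {M : Matrix (Fin 3) (Fin 3) ℤ} (hM : M.IsSymm) {p : ℕ} (hp : p.Prime) (hp2 : p ≠ 2)
    {x y : Fin 3 → ℤ} (hqx : qf M x = 0) (hqy : qf M y = 0) {l : ℤ} (hl : ¬ (p : ℤ) ∣ l)
    (h : ∀ i, (p : ℤ) ∣ x i - l * y i) : (p : ℤ) ^ 2 ∣ bl M x y := by
  choose w hw using h
  have h1 := qf_sub hM x y l
  have h2 : (fun i => x i - l * y i) = fun i => (p : ℤ) * w i := funext hw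
  rw [h2, qf_smul hM, hqx, hqy] at h1
  have h3 : (p : ℤ) ^ 2 ∣ (2 * l) * bl M x y := ⟨- qf M w, by linear_combination h1⟩
  have hpi : Prime (p : ℤ) := Nat.prime_iff_prime_int.1 hp
  have h4 : IsCoprime ((p : ℤ) ^ 2) (2 * l) := by
    refine IsCoprime.pow_left ?_
    rw [hpi.coprime_iff_not_dvd]
    intro h5
    rcases hpi.dvd_or_dvd h5 with h6 | h6
    · have h7 : p ∣ 2 := by exact_mod_cast h6
      exact hp2 ((Nat.prime_dvd_prime_iff_eq hp Nat.prime_two).1 h7)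
    · exact hl h6
  exact h4.dvd_of_dvd_mul_left h3

lemma abs_mul3 {a b c X : ℤ} (ha : |a| ≤ X) (hb : |b| ≤ X) (hc : |c| ≤ X) :
    |a * b * c| ≤ X ^ 3 := by
  have h0 : 0 ≤ X := (abs_nonneg a).trans ha
  rw [abs_mul, abs_mul, pow_three', ]
  exact mul_le_mul (mul_le_mul ha hb (abs_nonneg _) h0) hc (abs_nonneg _) (mul_nonneg h0 h0)

lemma abs_det_le {x y z : Fin 3 → ℤ} {X : ℤ} (hx : ∀ i, |x i| ≤ X) (hy : ∀ i, |y i| ≤ X)
    (hz : ∀ i, |z i| ≤ X) : |Matrix.det (Matrix.of ![x, y, z])| ≤ 6 * X ^ 3 := by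
  rw [Matrix.det_fin_three]
  have e0 : (Matrix.of ![x, y, z]) 0 = x := rfl
  have e1 : (Matrix.of ![x, y, z]) 1 = y := rfl
  have e2 : (Matrix.of ![x, y, z]) 2 = z := rfl
  rw [e0, e1, e2]
  have h1 := abs_le.1 (abs_mul3 (hx 0) (hy 1) (hz 2))
  have h2 := abs_le.1 (abs_mul3 (hx 0) (hy 2) (hz 1))
  have h3 := abs_le.1 (abs_mul3 (hx 1) (hy 0) (hz 2))
  have h4 := abs_le.1 (abs_mul3 (hx 1) (hy 2) (hz 0))
  have h5 := abs_le.1 (abs_mul3 (hx 2) (hy 0) (hz 1))
  have h6 := abs_le.1 (abs_mul3 (hx 2) (hy 1) (hz 0))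
  rw [abs_le]
  constructor
  · linarith [h1.1, h2.2, h3.2, h4.1, h5.1, h6.2]
  · linarith [h1.2, h2.1, h3.1, h4.2, h5.2, h6.1]

/-- three points of the conic that are proportional modulo `p` are not different -/
lemma three {M : Matrix (Fin 3) (Fin 3) ℤ} (hM : M.IsSymm) {p X : ℕ} (hp : p.Prime)
    (hpM : ¬ (p : ℤ) ∣ M.det) (hpX : 2 * X < p) (hX : 1 ≤ X) {x y z : Fin 3 → ℤ}
    (hx : Rep x ∧ ht x ≤ X ∧ qf M x = 0) (hy : Rep y ∧ ht y ≤ X ∧ qf M y = 0)
    (hz : Rep z ∧ ht z ≤ X ∧ qf M z = 0) (h1 : (p : ℤ) ^ 2 ∣ bl M x y)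
    (h2 : (p : ℤ) ^ 2 ∣ bl M x z) (h3 : (p : ℤ) ^ 2 ∣ bl M y z) : x = y ∨ x = z ∨ y = z := by
  have hd : M.det ≠ 0 := fun h => hpM (h ▸ dvd_zero _)
  have hpi : Prime (p : ℤ) := Nat.prime_iff_prime_int.1 hp
  have hg := gram hM x y z hx.2.2 hy.2.2
  rw [hz.2.2, mul_zero, sub_zero] at hg
  set d := Matrix.det (Matrix.of ![x, y, z]) with hdd
  have h4 : ((p : ℤ) ^ 3) ^ 2 ∣ M.det * d ^ 2 := by
    rw [← hg]
    have h5 := mul_dvd_mul (mul_dvd_mul h1 h2) h3
    have h6 : ((p : ℤ) ^ 3) ^ 2 = (p : ℤ) ^ 2 * (p : ℤ) ^ 2 * (p : ℤ) ^ 2 := by ring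
    rw [h6]
    refine h5.trans ⟨2, by ring⟩
  have hco : IsCoprime (((p : ℤ) ^ 3) ^ 2) M.det := by
    refine IsCoprime.pow_left (IsCoprime.pow_left ?_)
    rw [hpi.coprime_iff_not_dvd]
    exact hpM
  have h5 : (p : ℤ) ^ 3 ∣ d := (Int.pow_dvd_pow_iff two_ne_zero).1 (hco.dvd_of_dvd_mul_left h4)
  have hb : ∀ v : Fin 3 → ℤ, ht v ≤ X → ∀ i, |v i| ≤ (X : ℤ) := fun v hv i =>
    (le_ht' v i).trans (by exact_mod_cast hv)
  have h6 : |d| ≤ 6 * (X : ℤ) ^ 3 := abs_det_le (hb x hx.2.1) (hb y hy.2.1) (hb z hz.2.1)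
  have h7 : d = 0 := by
    by_contra h8
    have h9 := Int.le_of_dvd (abs_pos.2 h8) ((dvd_abs _ _).2 h5)
    have h10 : (2 * (X : ℤ)) ^ 3 < (p : ℤ) ^ 3 :=
      pow_lt_pow_left₀ (by exact_mod_cast hpX) (by positivity) (by norm_num)
    have h11 : (1 : ℤ) ≤ (X : ℤ) := by exact_mod_cast hX
    nlinarith [pow_pos (lt_of_lt_of_le one_pos h11) 3]
  rw [h7] at hg
  have h8 : 2 * bl M x y * bl M x z * bl M y z = 0 := by
    rw [hg]
    ring
  rcases mul_eq_zero.1 h8 with h9 | h9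
  · rcases mul_eq_zero.1 h9 with h10 | h10
    · exact Or.inl (eq_of_bl hM hd hx.1 hy.1 hx.2.2 hy.2.2
        ((mul_eq_zero.1 h10).resolve_left two_ne_zero))
    · exact Or.inr (Or.inl (eq_of_bl hM hd hx.1 hz.1 hx.2.2 hz.2.2 h10))
  · exact Or.inr (Or.inr (eq_of_bl hM hd hy.1 hz.1 hy.2.2 hz.2.2 h9))

/-! ### Zeros over a finite field -/

section zeros

variable {F : Type*} [Field F] [Fintype F] [DecidableEq F]

lemma card_quad (a b c : F) (h : a ≠ 0 ∨ b ≠ 0) :
    (univ.filter fun t : F => a * t ^ 2 + b * t + c = 0).card ≤ 2 := by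
  classical
  let P : Polynomial F := Polynomial.C a * Polynomial.X ^ 2 + Polynomial.C b * Polynomial.X +
    Polynomial.C c
  have hP : P ≠ 0 := by
    intro h0
    rcases h with h | h
    · apply h
      have := congrArg (fun Q => Polynomial.coeff Q 2) h0
      simpa [P, Polynomial.coeff_X, Polynomial.coeff_C] using this
    · apply h
      have := congrArg (fun Q => Polynomial.coeff Q 1) h0
      simpa [P, Polynomial.coeff_X, Polynomial.coeff_C] using this
  have h1 : (univ.filter fun t : F => a * t ^ 2 + b * t + c = 0) ⊆ P.roots.toFinset := by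
    intro t ht
    rw [Multiset.mem_toFinset, Polynomial.mem_roots hP, Polynomial.IsRoot.def]
    have h2 := (mem_filter.1 ht).2
    simp only [P, Polynomial.eval_add, Polynomial.eval_mul, Polynomial.eval_C, Polynomial.eval_pow,
      Polynomial.eval_X]
    exact h2
  calc (univ.filter fun t : F => a * t ^ 2 + b * t + c = 0).card ≤ P.roots.toFinset.card :=
        card_le_card h1
    _ ≤ P.roots.card := Multiset.toFinset_card_le _
    _ ≤ P.natDegree := Polynomial.card_roots' P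
    _ ≤ 2 := Polynomial.natDegree_quadratic_le

lemma card_lin (a b : F) (h : a ≠ 0 ∨ b ≠ 0) :
    (univ.filter fun t : F × F => a * t.1 + b * t.2 = 0).card ≤ Fintype.card F := by
  classical
  rcases h with h | h
  · refine (Finset.card_le_card_of_injOn (fun t : F × F => t.2) (fun _ _ => mem_coe.2 (mem_univ _))
      ?_).trans (le_of_eq (card_univ (α := F)))
    intro s hs t ht hst
    have h1 := (mem_filter.1 (mem_coe.1 hs)).2
    have h2 := (mem_filter.1 (mem_coe.1 ht)).2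
    change s.2 = t.2 at hst
    rw [hst] at h1
    exact Prod.ext (mul_left_cancel₀ h (add_right_cancel (h1.trans h2.symm))) hst
  · refine (Finset.card_le_card_of_injOn (fun t : F × F => t.1) (fun _ _ => mem_coe.2 (mem_univ _))
      ?_).trans (le_of_eq (card_univ (α := F)))
    intro s hs t ht hst
    have h1 := (mem_filter.1 (mem_coe.1 hs)).2
    have h2 := (mem_filter.1 (mem_coe.1 ht)).2
    change s.1 = t.1 at hst
    rw [hst] at h1
    exact Prod.ext hst (mul_left_cancel₀ h (add_left_cancel (h1.trans h2.symm)))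

lemma card_zeros {A : Matrix (Fin 3) (Fin 3) F} (hA : A.IsSymm) (hd : A.det ≠ 0)
    (h2 : (2 : F) ≠ 0) :
    (univ.filter fun v : Fin 3 → F => qf A v = 0).card ≤ 3 * Fintype.card F ^ 2 := by
  classical
  have hne : A 2 2 ≠ 0 ∨ A 0 2 ≠ 0 ∨ A 1 2 ≠ 0 := by
    by_contra hcon
    push Not at hcon
    obtain ⟨a1, a2, a3⟩ := hcon
    apply hd
    rw [Matrix.det_fin_three, a1, a2, a3]
    ring
  rw [Finset.card_eq_sum_card_fiberwise (f := fun v : Fin 3 → F => (v 0, v 1))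
    (t := (univ : Finset (F × F))) (fun _ _ => mem_coe.2 (mem_univ _))]
  have hfib : ∀ t : F × F, ((univ.filter fun v : Fin 3 → F => qf A v = 0).filter
      fun v => (v 0, v 1) = t).card ≤
      (univ.filter fun u : F => A 2 2 * u ^ 2 + 2 * (A 0 2 * t.1 + A 1 2 * t.2) * u +
        (A 0 0 * t.1 ^ 2 + A 1 1 * t.2 ^ 2 + 2 * (A 0 1 * (t.1 * t.2))) = 0).card := by
    intro t
    refine Finset.card_le_card_of_injOn (fun v => v 2) ?_ ?_
    · intro v hv
      obtain ⟨hv1, hv2⟩ := mem_filter.1 (mem_coe.1 hv)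
      have hv3 := (mem_filter.1 hv1).2
      rw [qf_eq hA] at hv3
      refine mem_coe.2 (mem_filter.2 ⟨mem_univ _, ?_⟩)
      rw [← hv2, ← hv3]
      ring
    · intro v hv w hw hvw
      have hv2 := (mem_filter.1 (mem_coe.1 hv)).2
      have hw2 := (mem_filter.1 (mem_coe.1 hw)).2
      have h3 := hv2.trans hw2.symm
      have h4 : v 0 = w 0 := congrArg Prod.fst h3
      have h5 : v 1 = w 1 := congrArg Prod.snd h3
      funext i
      fin_cases i
      · exact h4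
      · exact h5
      · exact hvw
  have hfib2 : ∀ t : F × F, ((univ.filter fun v : Fin 3 → F => qf A v = 0).filter
      fun v => (v 0, v 1) = t).card ≤
      2 + if A 2 2 = 0 ∧ A 0 2 * t.1 + A 1 2 * t.2 = 0 then Fintype.card F else 0 := by
    intro t
    refine (hfib t).trans ?_
    split_ifs with h
    · refine (Finset.card_le_univ _).trans ?_
      exact Nat.le_add_left _ _
    · refine (card_quad _ _ _ ?_).trans (Nat.le_add_right _ _)
      by_contra hcon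
      push Not at hcon
      exact h ⟨hcon.1, (mul_eq_zero.1 hcon.2).resolve_left h2⟩
  refine (Finset.sum_le_sum fun t _ => hfib2 t).trans ?_
  rw [sum_add_distrib, sum_const, card_univ, Fintype.card_prod, smul_eq_mul, ← sum_filter,
    sum_const, smul_eq_mul]
  have hbad : (univ.filter fun t : F × F => A 2 2 = 0 ∧ A 0 2 * t.1 + A 1 2 * t.2 = 0).card ≤
      Fintype.card F := by
    by_cases h22 : A 2 2 = 0
    · refine le_trans (Finset.card_le_card ?_) (card_lin (A 0 2) (A 1 2) (hne.resolve_left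
        (not_not.2 h22)))
      intro t ht
      exact mem_filter.2 ⟨mem_univ _, (mem_filter.1 ht).2.2⟩
    · rw [filter_false_of_mem fun t _ h => h22 h.1, card_empty]
      exact Nat.zero_le _
  calc Fintype.card F * Fintype.card F * 2 + (univ.filter fun t : F × F =>
        A 2 2 = 0 ∧ A 0 2 * t.1 + A 1 2 * t.2 = 0).card * Fintype.card F
      ≤ Fintype.card F * Fintype.card F * 2 + Fintype.card F * Fintype.card F :=
        Nat.add_le_add_left (Nat.mul_le_mul_right _ hbad) _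
    _ = 3 * Fintype.card F ^ 2 := by ring

end zeros

/-! ### The number of points, for one prime -/

lemma qf_map {M : Matrix (Fin 3) (Fin 3) ℤ} (hM : M.IsSymm) (p : ℕ) (x : Fin 3 → ℤ)
    (c : ZMod p) :
    qf (M.map (Int.castRingHom (ZMod p))) (fun i => c * (x i : ZMod p)) =
      c ^ 2 * ((qf M x : ℤ) : ZMod p) := by
  have hM' : (M.map (Int.castRingHom (ZMod p))).IsSymm := hM.map _
  rw [qf_eq hM', qf_eq hM]
  simp only [Matrix.map_apply, Int.coe_castRingHom]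
  push_cast
  ring

lemma rep_mod {x : Fin 3 → ℤ} (hx : Rep x) {p : ℕ} (hp : p.Prime) : ∃ i, (x i : ZMod p) ≠ 0 := by
  by_contra hcon
  push Not at hcon
  have h1 : (p : ℤ) ∣ Finset.univ.gcd x :=
    Finset.dvd_gcd fun i _ => (ZMod.intCast_zmod_eq_zero_iff_dvd _ _).1 (hcon i)
  rw [hx.1] at h1
  have h2 : p ∣ 1 := by exact_mod_cast h1
  exact hp.one_lt.ne' (Nat.dvd_one.1 h2)

lemma one_prime {M : Matrix (Fin 3) (Fin 3) ℤ} (hM : M.IsSymm) {p X : ℕ} (hp : p.Prime)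
    (hpM : ¬ (p : ℤ) ∣ M.det) (hpX : 2 * X < p) (hX : 1 ≤ X) (S : Finset (Fin 3 → ℤ))
    (hS : ∀ x ∈ S, Rep x ∧ ht x ≤ X ∧ qf M x = 0) : S.card ≤ 9 * p := by
  classical
  have : Fact p.Prime := ⟨hp⟩
  have hp3 : 3 ≤ p := by omega
  have h2 : (2 : ZMod p) ≠ 0 := by
    intro h
    have h3 : ((2 : ℕ) : ZMod p) = 0 := by exact_mod_cast h
    rw [ZMod.natCast_eq_zero_iff] at h3
    exact absurd (Nat.le_of_dvd two_pos h3) (by omega)
  have hM' : (M.map (Int.castRingHom (ZMod p))).IsSymm := hM.map _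
  have hd' : (M.map (Int.castRingHom (ZMod p))).det ≠ 0 := by
    have h3 : (M.map (Int.castRingHom (ZMod p))).det = ((M.det : ℤ) : ZMod p) := by
      rw [← RingHom.mapMatrix_apply, ← RingHom.map_det]
      rfl
    rw [h3]
    intro h4
    exact hpM ((ZMod.intCast_zmod_eq_zero_iff_dvd _ _).1 h4)
  have hZ := card_zeros hM' hd' h2
  rw [ZMod.card] at hZ
  have hkey := Finset.card_le_mul_card_image_of_maps_to
    (s := S ×ˢ (univ.erase (0 : ZMod p)))
    (t := univ.filter fun v : Fin 3 → ZMod p => qf (M.map (Int.castRingHom (ZMod p))) v = 0)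
    (f := fun u : (Fin 3 → ℤ) × ZMod p => fun i => u.2 * (u.1 i : ZMod p)) (by
      intro u hu
      obtain ⟨hu1, hu2⟩ := mem_product.1 hu
      refine mem_filter.2 ⟨mem_univ _, ?_⟩
      rw [qf_map hM, (hS u.1 hu1).2.2, Int.cast_zero, mul_zero]) 2 (by
      intro v hv
      by_contra hcon
      rw [not_le, Finset.two_lt_card] at hcon
      obtain ⟨⟨x, a⟩, ha, ⟨y, b⟩, hb, ⟨z, c⟩, hc, hab, hac, hbc⟩ := hcon
      obtain ⟨ha1, ha2⟩ := mem_filter.1 ha
      obtain ⟨hb1, hb2⟩ := mem_filter.1 hb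
      obtain ⟨hc1, hc2⟩ := mem_filter.1 hc
      obtain ⟨hxS, ha0⟩ := mem_product.1 ha1
      obtain ⟨hyS, hb0⟩ := mem_product.1 hb1
      obtain ⟨hzS, hc0⟩ := mem_product.1 hc1
      have hpair : ∀ (x y : Fin 3 → ℤ) (a b : ZMod p), x ∈ S → y ∈ S → a ≠ 0 → b ≠ 0 →
          (fun i => a * (x i : ZMod p)) = (fun i => b * (y i : ZMod p)) →
          (x, a) ≠ (y, b) → x ≠ y ∧ (p : ℤ) ^ 2 ∣ bl M x y := by
        intro x y a b hx hy ha hb hab hne
        constructor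
        · rintro rfl
          obtain ⟨i, hi⟩ := rep_mod (hS x hx).1 hp
          have h4 := mul_right_cancel₀ hi (congrFun hab i)
          exact hne (by rw [h4])
        · obtain ⟨l, hl⟩ := ZMod.intCast_surjective (a⁻¹ * b)
          refine dvd_bl hM hp (by omega) (hS x hx).2.2 (hS y hy).2.2 (l := l) ?_ ?_
          · intro h4
            rw [← ZMod.intCast_zmod_eq_zero_iff_dvd, hl] at h4
            exact mul_ne_zero (inv_ne_zero ha) hb h4
          · intro i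
            rw [← ZMod.intCast_zmod_eq_zero_iff_dvd]
            push_cast
            rw [hl, mul_assoc, ← congrFun hab i, inv_mul_cancel_left₀ ha, sub_self]
      have hxy := hpair x y a b hxS hyS (mem_erase.1 ha0).1 (mem_erase.1 hb0).1
        (ha2.trans hb2.symm) hab
      have hxz := hpair x z a c hxS hzS (mem_erase.1 ha0).1 (mem_erase.1 hc0).1
        (ha2.trans hc2.symm) hac
      have hyz := hpair y z b c hyS hzS (mem_erase.1 hb0).1 (mem_erase.1 hc0).1
        (hb2.trans hc2.symm) hbc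
      rcases three hM hp hpM hpX hX (hS x hxS) (hS y hyS) (hS z hzS) hxy.2 hxz.2 hyz.2 with
        h4 | h4 | h4
      · exact hxy.1 h4
      · exact hxz.1 h4
      · exact hyz.1 h4)
  rw [card_product, card_erase_of_mem (mem_univ _), card_univ, ZMod.card] at hkey
  have h4 : S.card * (p - 1) ≤ 6 * p ^ 2 := by
    refine hkey.trans ?_
    calc 2 * (univ.filter fun v : Fin 3 → ZMod p =>
          qf (M.map (Int.castRingHom (ZMod p))) v = 0).card ≤ 2 * (3 * p ^ 2) :=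
          Nat.mul_le_mul_left _ hZ
      _ = 6 * p ^ 2 := by ring
  obtain ⟨k, rfl⟩ : ∃ k, p = k + 1 := ⟨p - 1, by omega⟩
  rw [Nat.add_sub_cancel] at h4
  by_contra h5
  have h6 : 9 * (k + 1) + 1 ≤ S.card := by omega
  have h7 : (9 * (k + 1) + 1) * k ≤ 6 * (k + 1) ^ 2 := (Nat.mul_le_mul_right _ h6).trans h4
  nlinarith

/-! ### The choice of the prime -/

lemma choose_prime (D Y : ℕ) (hD : D ≠ 0) (hY : Y ≠ 0) : ∃ p j : ℕ, p.Prime ∧ Y < p ∧ ¬ p ∣ D ∧
    p ≤ 2 ^ (j + 1) * Y ∧ 2 ^ (∑ i ∈ range j, i) ≤ D := by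
  classical
  have hex : ∀ i : ℕ, ∃ p : ℕ, p.Prime ∧ 2 ^ i * Y < p ∧ p ≤ 2 * (2 ^ i * Y) := fun i =>
    Nat.exists_prime_lt_and_le_two_mul _ (mul_ne_zero (pow_ne_zero _ two_ne_zero) hY)
  choose P hP1 hP2 hP3 using hex
  have hlow : ∀ i, 2 ^ i < P i := fun i =>
    lt_of_le_of_lt (Nat.le_mul_of_pos_right _ (Nat.pos_of_ne_zero hY)) (hP2 i)
  have hexi : ∃ i, ¬ P i ∣ D := by
    refine ⟨D, fun h => ?_⟩
    have h1 := Nat.le_of_dvd (Nat.pos_of_ne_zero hD) h
    have h2 := hlow D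
    have h3 : D < 2 ^ D := Nat.lt_two_pow_self
    omega
  have hmono : ∀ i j, i < j → P i < P j := by
    intro i j hij
    refine lt_of_le_of_lt ((hP3 i).trans ?_) (hP2 j)
    rw [← mul_assoc, ← pow_succ']
    exact Nat.mul_le_mul_right _ (Nat.pow_le_pow_right two_pos hij)
  refine ⟨P (Nat.find hexi), Nat.find hexi, hP1 _, ?_, Nat.find_spec hexi, ?_, ?_⟩
  · exact lt_of_le_of_lt (Nat.le_mul_of_pos_left _ (pow_pos two_pos _)) (hP2 _)
  · refine (hP3 _).trans (le_of_eq ?_)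
    rw [pow_succ]
    ring
  · have hdiv : ∀ j, j ≤ Nat.find hexi → ∏ i ∈ range j, P i ∣ D := by
      intro j
      induction j with
      | zero => intro _; simp
      | succ j ih =>
        intro hj
        rw [prod_range_succ]
        refine Nat.Coprime.mul_dvd_of_dvd_of_dvd ?_ (ih (by omega)) ?_
        · refine Nat.Coprime.prod_left fun i hi => ?_
          exact (Nat.coprime_primes (hP1 i) (hP1 j)).2 (hmono i j (mem_range.1 hi)).ne
        · exact not_not.1 (Nat.find_min hexi (by omega))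
    refine le_trans ?_ (Nat.le_of_dvd (Nat.pos_of_ne_zero hD) (hdiv _ le_rfl))
    rw [← Finset.prod_pow_eq_pow_sum]
    exact Finset.prod_le_prod' fun i _ => (hlow i).le

lemma sum_range_real (j : ℕ) : ((∑ i ∈ range j, i : ℕ) : ℝ) = (j : ℝ) * (j - 1) / 2 := by
  induction j with
  | zero => simp
  | succ j ih =>
    rw [sum_range_succ, Nat.cast_add, ih]
    push_cast
    ring

lemma pow_bound (ε : ℝ) (hε : 0 < ε) : ∃ C : ℝ, 0 ≤ C ∧ ∀ (D j : ℕ), 1 ≤ D →
    2 ^ (∑ i ∈ range j, i) ≤ D → (2 : ℝ) ^ (j + 1) ≤ C * (D : ℝ) ^ ε := by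
  refine ⟨Real.exp (Real.log 2 * (1 + (1 + ε / 2) ^ 2 / (2 * ε))), (Real.exp_pos _).le, ?_⟩
  intro D j hD h
  have hD0 : (0 : ℝ) < D := by exact_mod_cast hD
  have hL : 0 < Real.log 2 := Real.log_pos (by norm_num)
  have h1 : ((2 : ℝ)) ^ (∑ i ∈ range j, i) ≤ D := by exact_mod_cast h
  have h2 : ((j : ℝ) * (j - 1) / 2) * Real.log 2 ≤ Real.log D := by
    have h3 := Real.log_le_log (by positivity) h1
    rwa [Real.log_pow, sum_range_real] at h3
  have h4 : (2 : ℝ) ^ (j + 1) = Real.exp (((j : ℝ) + 1) * Real.log 2) := by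
    rw [mul_comm, Real.exp_mul, Real.exp_log (by norm_num : (0 : ℝ) < 2)]
    exact_mod_cast (Real.rpow_natCast 2 (j + 1)).symm
  rw [h4, Real.rpow_def_of_pos hD0, ← Real.exp_add, Real.exp_le_exp]
  have h5 : ((j : ℝ) + 1) ≤ (1 + (1 + ε / 2) ^ 2 / (2 * ε)) + ((j : ℝ) * (j - 1) / 2) * ε := by
    have h6 : (1 + (1 + ε / 2) ^ 2 / (2 * ε)) + ((j : ℝ) * (j - 1) / 2) * ε - ((j : ℝ) + 1) =
        (ε * j - (1 + ε / 2)) ^ 2 / (2 * ε) := by
      field_simp
      ring
    have h7 : 0 ≤ (ε * j - (1 + ε / 2)) ^ 2 / (2 * ε) := by positivity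
    linarith
  calc ((j : ℝ) + 1) * Real.log 2
      ≤ ((1 + (1 + ε / 2) ^ 2 / (2 * ε)) + ((j : ℝ) * (j - 1) / 2) * ε) * Real.log 2 :=
        mul_le_mul_of_nonneg_right h5 hL.le
    _ = Real.log 2 * (1 + (1 + ε / 2) ^ 2 / (2 * ε)) +
        (((j : ℝ) * (j - 1) / 2) * Real.log 2) * ε := by ring
    _ ≤ Real.log 2 * (1 + (1 + ε / 2) ^ 2 / (2 * ε)) + Real.log D * ε :=
        add_le_add le_rfl (mul_le_mul_of_nonneg_right h2 hε.le)

end Pool.Agent.N852.QN.Ub

namespace Pool.Agent.N852.QN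

open Matrix Finset Ub
open Pool.Agent.H548.WM (ht bx Rep)

theorem ubP : S_UB := by
  intro ε hε
  obtain ⟨C, hC0, hC⟩ := pow_bound ε hε
  refine ⟨18 * C, by positivity, ?_⟩
  intro M hM hd X S hX hS
  have hD : M.det.natAbs ≠ 0 := Int.natAbs_ne_zero.2 hd
  obtain ⟨p, j, hp, hpX, hpD, hpj, hj⟩ := choose_prime M.det.natAbs (2 * X) hD (by omega)
  have hpM : ¬ (p : ℤ) ∣ M.det := fun h => hpD (Int.natCast_dvd.1 h)
  have h1 := one_prime hM hp hpM hpX hX S hS
  have h2 := hC _ j (Nat.one_le_iff_ne_zero.2 hD) hj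
  have h3 : (S.card : ℝ) ≤ 9 * (p : ℝ) := by exact_mod_cast h1
  have h4 : (p : ℝ) ≤ 2 ^ (j + 1) * (2 * X) := by exact_mod_cast hpj
  have hX0 : (0 : ℝ) ≤ (X : ℝ) := Nat.cast_nonneg _
  calc (S.card : ℝ) ≤ 9 * (p : ℝ) := h3
    _ ≤ 9 * (2 ^ (j + 1) * (2 * X)) := by linarith
    _ = 18 * X * 2 ^ (j + 1) := by ring
    _ ≤ 18 * X * (C * (M.det.natAbs : ℝ) ^ ε) := mul_le_mul_of_nonneg_left h2 (by positivity)
    _ = 18 * C * X * (M.det.natAbs : ℝ) ^ ε := by ring

end Pool.Agent.N852.QN
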